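import Mathlib
import Pool.Agent.Lib.MP_695920_nt.Qt.ClassPt

/-!
From an ideal whose cube is principal to an integral point, over a general base field.
-/

set_option autoImplicit false

open NumberField Module IsDedekindDomain
open scoped nonZeroDivisors Pointwise

namespace Pool.Agent.Lib.MP_695920_nt.Qg

open Pool.Agent.Lib.MP_695920_nt.Qt

/-- ideals of a Dedekind domain are integrally closed (quadratic case) -/
lemma h6_integral {A : Type*} [CommRing A] [IsDedekindDomain A] {G : Ideal A} {t a b : A}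
    (ha : a ∈ G) (hb : b ∈ G * G) (h : t ^ 2 = a * t + b) : t ∈ G := by
  obtain ⟨N, hN⟩ : ∃ N, N = G ⊔ Ideal.span {t} := ⟨_, rfl⟩
  have hGN : G ≤ N := hN ▸ le_sup_left
  have hTN : Ideal.span {t} ≤ N := hN ▸ le_sup_right
  have htN : t ∈ N := hTN (Ideal.mem_span_singleton_self t)
  by_cases hN0 : N = ⊥
  · rw [hN0] at htN
    rw [(Submodule.mem_bot A).mp htN]
    exact G.zero_mem
  have h1 : N * N ≤ G * N := by
    conv_lhs => rw [hN]
    rw [Ideal.sup_mul, sup_le_iff]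
    constructor
    · rw [← hN]
    · rw [Ideal.mul_sup, sup_le_iff]
      constructor
      · rw [mul_comm]
        exact Ideal.mul_mono_right hTN
      · rw [Ideal.span_singleton_mul_span_singleton, Ideal.span_singleton_le_iff_mem, ← sq, h]
        apply Ideal.add_mem
        · exact Ideal.mul_mem_mul ha htN
        · exact Ideal.mul_mono_right hGN hb
  have h2 : G * N ∣ N * N := Ideal.dvd_iff_le.mpr h1
  have h3 : G ∣ N := (mul_dvd_mul_iff_right hN0).mp h2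
  exact Ideal.dvd_iff_le.mp h3 htN

/-- from an ideal whose cube is principal to an integral point -/
theorem class_point_gen {E K : Type} [Field E] [NumberField E] [Field K] [NumberField K]
    [Algebra E K] (m : ℕ) (hm : finrank ℚ E = m) (hfin : finrank E K = 2)
    (𝒰 : Finset (𝓞 E)ˣ) (h𝒰 : ∀ u : (𝓞 E)ˣ, ∃ u0 ∈ 𝒰, ∃ w : (𝓞 E)ˣ, u = u0 * w ^ 3)
    (I : Ideal (𝓞 K)) (ξ : 𝓞 K) (hξ : ξ ≠ 0) (hI : I ^ 3 = Ideal.span {ξ})
    (hN : ∃ x : 𝓞 E, Ideal.relNorm (𝓞 E) I = Ideal.span {x})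
    (B : ℝ) (hB : ∀ w : InfinitePlace K, w (ξ : K) ≤ B) :
    ∃ (y : 𝓞 K) (k X Y : 𝓞 E) (u : (𝓞 E)ˣ), u ∈ 𝒰 ∧ Algebra.trace E K (y : K) = 0 ∧
      algebraMap (𝓞 E) (𝓞 K) k = 16 * algebraMap (𝓞 E) (𝓞 K) u ^ 2 * y ^ 2 ∧
      Y ^ 2 = X ^ 3 + k ∧
      algebraMap (𝓞 E) (𝓞 K) Y + 4 * algebraMap (𝓞 E) (𝓞 K) u * y =
        8 * algebraMap (𝓞 E) (𝓞 K) u * ξ ∧
      (∀ v : InfinitePlace E, v (X : E) ^ 3 ≤ 64 * v ((u : 𝓞 E) : E) ^ 2 * B ^ 2) ∧
      (∀ v : InfinitePlace E, v (k : E) ≤ 64 * v ((u : 𝓞 E) : E) ^ 2 * B ^ 2) ∧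
      (∀ w : InfinitePlace K, w (y : K) ≤ 2 * B) ∧
      (Algebra.norm ℤ X).natAbs = 4 ^ m * Ideal.absNorm I ∧
      (y = 0 → I.IsPrincipal) ∧
      ∃ (R J : Ideal (𝓞 K)) (r : Ideal (𝓞 E)), I = R * J ∧ r ≠ ⊥ ∧
        R ^ 2 = r.map (algebraMap (𝓞 E) (𝓞 K)) ∧
        Ideal.absNorm (Ideal.span {X ^ 3, k}) ≤ 64 ^ m * Ideal.absNorm R ^ 3 := by
  obtain ⟨σ, hσ, hall⟩ := t16_conj hfin
  have hσσ := t16_sq hσ hall
  have hss : ∀ x : 𝓞 K, σ • (σ • x) = x := fun x => by rw [smul_smul, hσσ, one_smul]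
  have hssI : ∀ x : Ideal (𝓞 K), σ • (σ • x) = x := fun x => by rw [smul_smul, hσσ, one_smul]
  set ι := algebraMap (𝓞 E) (𝓞 K) with hι
  have hinj : Function.Injective ι := t16_alg_inj
  -- trace
  obtain ⟨Y₀, hY₀⟩ := t16_fixed hfin hall (x := ξ + σ • ξ) (by rw [smul_add, hss, add_comm])
  -- norm
  obtain ⟨n₀, hn₀⟩ : ∃ n₀ : 𝓞 E, n₀ = Algebra.intNorm (𝓞 E) (𝓞 K) ξ := ⟨_, rfl⟩
  have hn₀' : ι n₀ = ξ * σ • ξ := by
    rw [hn₀]
    exact t16_norm hfin hσ hall ξ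
  -- the difference
  obtain ⟨y, hy⟩ : ∃ y : 𝓞 K, y = ξ - σ • ξ := ⟨_, rfl⟩
  have hσy : σ • y = -y := by
    rw [hy, smul_sub, hss]
    ring
  obtain ⟨s, hs⟩ := t16_fixed hfin hall (x := y ^ 2) (by
    rw [smul_pow', hσy]
    ring)
  -- the norm of the ideal
  obtain ⟨x₀, hx₀⟩ := hN
  have hI0 : I ≠ ⊥ := by
    rintro rfl
    rw [← Ideal.zero_eq_bot, zero_pow (by norm_num), Ideal.zero_eq_bot] at hI
    exact hξ (Ideal.span_singleton_eq_bot.mp hI.symm)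
  obtain ⟨u', hu'⟩ : ∃ u' : (𝓞 E)ˣ, x₀ ^ 3 * u' = n₀ := by
    have h1 : Ideal.span {x₀ ^ 3} = Ideal.span {n₀} := by
      rw [← Ideal.span_singleton_pow, ← hx₀, ← map_pow, hI, Ideal.relNorm_singleton, hn₀]
    exact Ideal.span_singleton_eq_span_singleton.mp h1
  obtain ⟨u, huU, ω, hω⟩ := h𝒰 u'
  obtain ⟨x, hx⟩ : ∃ x : 𝓞 E, x = x₀ * ω := ⟨_, rfl⟩
  have hx' : Ideal.relNorm (𝓞 E) I = Ideal.span {x} := by
    rw [hx₀, hx]
    exact (Ideal.span_singleton_mul_right_unit ω.isUnit x₀).symm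
  have hu : x ^ 3 * (u : 𝓞 E) = n₀ := by
    rw [← hu', hω, hx]
    push_cast
    ring
  have hxI : Ideal.span {ι x} = I * σ • I := by
    rw [← t16_relNorm hfin hσ hall, hx', Ideal.map_span, Set.image_singleton]
  -- the identities
  have hsum : ξ + σ • ξ = ι Y₀ := hY₀.symm
  have hx0 : x ≠ 0 := by
    rintro rfl
    rw [map_zero, Ideal.span_singleton_eq_bot.mpr rfl] at hxI
    rcases mul_eq_zero.mp hxI.symm with h | h
    · exact hI0 h
    · apply hI0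
      rw [← hssI I, h]
      exact smul_zero σ
  have hξσ : ξ * σ • ξ = ι (x ^ 3 * u) := by rw [hu, hn₀']
  have hYZ : Y₀ ^ 2 = 4 * (x ^ 3 * u) + s := by
    apply hinj
    rw [map_add, map_mul, map_mul, map_pow, map_pow, map_ofNat]
    have h2 : ξ * σ • ξ = ι x ^ 3 * ι u := by rw [hξσ, map_mul, map_pow]
    have h3 : ι s = (ξ - σ • ξ) ^ 2 := by rw [hι, hs, hy]
    linear_combination (-(ι Y₀ + (ξ + σ • ξ))) * hsum + 4 * h2 - h3
  -- the places
  have hw0 : ∀ (w : InfinitePlace K) (z : K), 0 ≤ w z := fun w z => apply_nonneg _ _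
  have hv0 : ∀ (v : InfinitePlace E) (z : E), 0 ≤ v z := fun v z => apply_nonneg _ _
  have hwσ : ∀ w : InfinitePlace K, w ((σ • ξ : 𝓞 K) : K) ≤ B := fun w =>
    hB (w.comap (σ : K →+* K))
  have hB0 : 0 ≤ B := by
    obtain ⟨w⟩ : Nonempty (InfinitePlace K) := inferInstance
    exact (hw0 w _).trans (hB w)
  have hwy : ∀ w : InfinitePlace K, w (y : K) ≤ 2 * B := by
    intro w
    have h3 : (y : K) = (ξ : K) - ((σ • ξ : 𝓞 K) : K) := by rw [hy]; rfl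
    rw [h3]
    have h4 : w ((ξ : K) - ((σ • ξ : 𝓞 K) : K)) ≤ w ((ξ : K) - 0) + w (0 - ((σ • ξ : 𝓞 K) : K)) :=
      w.1.sub_le (ξ : K) 0 ((σ • ξ : 𝓞 K) : K)
    have h5 : w (-((σ • ξ : 𝓞 K) : K)) = w ((σ • ξ : 𝓞 K) : K) := w.1.map_neg _
    rw [sub_zero, zero_sub, h5] at h4
    linarith [hB w, hwσ w]
  have hnat : ∀ (v : InfinitePlace E) (n : ℕ), v (n : E) = n := by
    intro v n
    rw [← InfinitePlace.norm_embedding_eq, map_natCast]
    simp
  have h4F : ((4 : 𝓞 E) : E) = ((4 : ℕ) : E) := by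
    rw [RingOfIntegers.coe_eq_algebraMap, map_ofNat]
    norm_num
  have h16F : ((16 : 𝓞 E) : E) = ((16 : ℕ) : E) := by
    rw [RingOfIntegers.coe_eq_algebraMap, map_ofNat]
    norm_num
  have hXv : ∀ v : InfinitePlace E, v ((4 * u * x : 𝓞 E) : E) ^ 3 ≤
      64 * v ((u : 𝓞 E) : E) ^ 2 * B ^ 2 := by
    intro v
    obtain ⟨w, hw⟩ := InfinitePlace.comap_surjective (k := E) (K := K) v
    have hwv : ∀ z : 𝓞 E, w ((ι z : 𝓞 K) : K) = v (z : E) := by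
      intro z
      rw [← hw]
      rfl
    have h1 : ((4 * u * x : 𝓞 E) : E) = ((4 : 𝓞 E) : E) * ((u : 𝓞 E) : E) * (x : E) := rfl
    have h2 : v (x : E) ^ 3 * v ((u : 𝓞 E) : E) = w (ξ : K) * w ((σ • ξ : 𝓞 K) : K) := by
      have e1 : v ((x ^ 3 * u : 𝓞 E) : E) = v (n₀ : E) := by rw [hu]
      rw [← hwv n₀, hn₀'] at e1
      have e2 : ((x ^ 3 * u : 𝓞 E) : E) = (x : E) ^ 3 * ((u : 𝓞 E) : E) := rfl
      have e3 : ((ξ * σ • ξ : 𝓞 K) : K) = (ξ : K) * ((σ • ξ : 𝓞 K) : K) := rfl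
      rw [e2, e3, map_mul, map_mul, map_pow] at e1
      exact e1
    have h3 : w (ξ : K) * w ((σ • ξ : 𝓞 K) : K) ≤ B ^ 2 := by
      rw [sq]
      exact mul_le_mul (hB w) (hwσ w) (hw0 w _) hB0
    rw [h1, h4F, map_mul, map_mul, hnat]
    calc ((4 : ℕ) * v ((u : 𝓞 E) : E) * v (x : E)) ^ 3
        = 64 * v ((u : 𝓞 E) : E) ^ 2 * (v (x : E) ^ 3 * v ((u : 𝓞 E) : E)) := by push_cast; ring
      _ = 64 * v ((u : 𝓞 E) : E) ^ 2 * (w (ξ : K) * w ((σ • ξ : 𝓞 K) : K)) := by rw [h2]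
      _ ≤ 64 * v ((u : 𝓞 E) : E) ^ 2 * B ^ 2 := mul_le_mul_of_nonneg_left h3 (by
          have := hv0 v ((u : 𝓞 E) : E)
          positivity)
  have hkv : ∀ v : InfinitePlace E, v ((16 * u ^ 2 * s : 𝓞 E) : E) ≤
      64 * v ((u : 𝓞 E) : E) ^ 2 * B ^ 2 := by
    intro v
    obtain ⟨w, hw⟩ := InfinitePlace.comap_surjective (k := E) (K := K) v
    have hwv : ∀ z : 𝓞 E, w ((ι z : 𝓞 K) : K) = v (z : E) := by
      intro z
      rw [← hw]
      rfl
    have h1 : ((16 * u ^ 2 * s : 𝓞 E) : E) = ((16 : 𝓞 E) : E) * ((u : 𝓞 E) : E) ^ 2 * (s : E) := rfl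
    have h2 : v (s : E) = w (y : K) ^ 2 := by
      rw [← hwv s, hι, hs]
      have e3 : ((y ^ 2 : 𝓞 K) : K) = (y : K) ^ 2 := rfl
      rw [e3, map_pow]
    rw [h1, h16F, map_mul, map_mul, map_pow, hnat, h2]
    have h3 : w (y : K) ^ 2 ≤ (2 * B) ^ 2 := pow_le_pow_left₀ (hw0 w _) (hwy w) 2
    calc ((16 : ℕ) : ℝ) * v ((u : 𝓞 E) : E) ^ 2 * w (y : K) ^ 2
        ≤ ((16 : ℕ) : ℝ) * v ((u : 𝓞 E) : E) ^ 2 * (2 * B) ^ 2 :=
          mul_le_mul_of_nonneg_left h3 (by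
            have := hv0 v ((u : 𝓞 E) : E)
            positivity)
      _ = _ := by push_cast; ring
  -- the ideal `R`
  obtain ⟨R, hR⟩ : ∃ R : Ideal (𝓞 K), R = I ⊔ σ • I := ⟨_, rfl⟩
  have hIR : I ≤ R := hR ▸ le_sup_left
  obtain ⟨J, hJ⟩ := Ideal.dvd_iff_le.mpr hIR
  have hR0 : R ≠ ⊥ := fun h => hI0 (eq_bot_iff.mpr (h ▸ hIR))
  have hσR : σ • R = R := by
    rw [hR]
    have h1 : σ • (I ⊔ σ • I) = σ • I ⊔ σ • (σ • I) := by
      exact Ideal.map_sup (MulSemiringAction.toRingHom Gal(K/E) (𝓞 K) σ) I (σ • I)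
    rw [h1, hssI, sup_comm]
  have hR2 : R ^ 2 = (Ideal.relNorm (𝓞 E) R).map ι := by
    have h1 := t16_relNorm hfin hσ hall R
    rw [hσR] at h1
    rw [sq, ← h1]
  have hr0 : Ideal.relNorm (𝓞 E) R ≠ ⊥ := by
    intro h
    rw [h, Ideal.map_bot] at hR2
    exact hR0 (pow_eq_zero_iff (by norm_num) |>.mp hR2)
  refine ⟨y, 16 * u ^ 2 * s, 4 * u * x, 4 * u * Y₀, u, huU, ?_, ?_, ?_, ?_, hXv, hkv, hwy, ?_, ?_,
    R, J, Ideal.relNorm (𝓞 E) R, hJ, hr0, hR2, ?_⟩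
  · -- trace
    have hquad : Algebra.IsQuadraticExtension E K := ⟨hfin⟩
    have hgal : IsGalois E K := inferInstance
    apply (algebraMap E K).injective
    rw [trace_eq_sum_automorphisms, map_zero]
    classical
    have huniv : (Finset.univ : Finset Gal(K/E)) = {1, σ} := by
      ext τ
      simp only [Finset.mem_univ, Finset.mem_insert, Finset.mem_singleton, true_iff]
      exact hall τ
    rw [huniv, Finset.sum_pair hσ.symm]
    have h1 : σ (y : K) = -(y : K) := congrArg (fun z : 𝓞 K => (z : K)) hσy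
    rw [h1, AlgEquiv.one_apply]
    ring
  · rw [map_mul, map_mul, map_pow, map_ofNat, hι, hs]
  · linear_combination 16 * (u : 𝓞 E) ^ 2 * hYZ
  · rw [map_mul, map_mul, map_ofNat, ← hsum, hy]
    ring
  · -- the norm of `X`
    have h1 : Ideal.span {(4 * u * x : 𝓞 E)} = Ideal.span {(4 : 𝓞 E)} * Ideal.span {x} := by
      rw [Ideal.span_singleton_mul_span_singleton, mul_assoc, mul_comm (u : 𝓞 E) x, ← mul_assoc]
      exact Ideal.span_singleton_mul_right_unit u.isUnit _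
    rw [← Ideal.absNorm_span_singleton, h1, map_mul, ← hx', Ideal.absNorm_relNorm]
    congr 1
    rw [Ideal.absNorm_span_singleton]
    have h3 : (4 : 𝓞 E) = algebraMap ℤ (𝓞 E) 4 := by simp
    rw [h3, Algebra.norm_algebraMap, RingOfIntegers.rank, hm, Int.natAbs_pow]
    norm_num
  · -- the principal case
    intro hy0
    rw [hy0] at hy
    have h1 : σ • ξ = ξ := (sub_eq_zero.mp hy.symm).symm
    have h2 : σ • I = I := by
      have h3 : (σ • I) ^ 3 = I ^ 3 := by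
        rw [← smul_pow', hI]
        rw [t16_smul_span, h1]
      exact t16_ideal_pow_inj (by norm_num) h3
    rw [h2, ← sq] at hxI
    have h3 : Ideal.span {ι x} * I = Ideal.span {ξ} := by
      rw [hxI, ← hI]
      ring
    have h4 : ι x ∣ ξ := by
      rw [← Ideal.span_singleton_le_span_singleton, ← h3]
      exact Ideal.mul_le_left
    obtain ⟨c, hc⟩ := h4
    refine ⟨c, ?_⟩
    have hιx : Ideal.span {ι x} ≠ ⊥ := by
      rw [Ne, Ideal.span_singleton_eq_bot]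
      intro h5
      exact hx0 (hinj (by rw [h5, map_zero]))
    rw [hc, ← Ideal.span_singleton_mul_span_singleton] at h3
    exact mul_left_cancel₀ hιx h3
  · -- the common ideal
    obtain ⟨G, hG⟩ : ∃ G : Ideal (𝓞 E), G = Ideal.span {(4 * u * x) ^ 3, 16 * (u : 𝓞 E) ^ 2 * s} :=
      ⟨_, rfl⟩
    rw [← hG]
    obtain ⟨ui, hui⟩ : ∃ ui : 𝓞 E, (u : 𝓞 E) * ui = 1 := ⟨((u⁻¹ : (𝓞 E)ˣ) : 𝓞 E), by simp⟩
    have hui2 : (u : 𝓞 E) ^ 2 * ui ^ 2 = 1 := by
      rw [← mul_pow, hui, one_pow]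
    have hGX : (64 : 𝓞 E) * (x ^ 3 * u) ∈ G := by
      have h1 : (64 : 𝓞 E) * (x ^ 3 * u) = ui ^ 2 * (4 * u * x) ^ 3 := by
        linear_combination -(64 * x ^ 3 * u) * hui2
      rw [h1, hG]
      exact Ideal.mul_mem_left _ _ (Ideal.subset_span (by simp))
    have hGk : (64 : 𝓞 E) * s ∈ G := by
      have h1 : (64 : 𝓞 E) * s = (4 * ui ^ 2) * (16 * (u : 𝓞 E) ^ 2 * s) := by
        linear_combination -(64 * s) * hui2
      rw [h1, hG]
      exact Ideal.mul_mem_left _ _ (Ideal.subset_span (by simp))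
    obtain ⟨G', hG'⟩ : ∃ G' : Ideal (𝓞 K), G' = G.map ι := ⟨_, rfl⟩
    have hm1 : (8 * ξ) * (8 * σ • ξ) ∈ G' := by
      have h1 : (8 * ξ) * (8 * σ • ξ) = ι (64 * (x ^ 3 * u)) := by
        rw [map_mul, ← hξσ, map_ofNat]
        ring
      rw [h1, hG']
      exact Ideal.mem_map_of_mem _ hGX
    have hm2 : (8 * ξ - 8 * σ • ξ) ^ 2 ∈ G' := by
      have h1 : (8 * ξ - 8 * σ • ξ) ^ 2 = ι (64 * s) := by
        have h3 : ι s = (ξ - σ • ξ) ^ 2 := by rw [hι, hs, hy]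
        rw [map_mul, h3, map_ofNat]
        ring
      rw [h1, hG']
      exact Ideal.mem_map_of_mem _ hGk
    have hm3 : (8 * ξ) ^ 2 + (8 * σ • ξ) ^ 2 ∈ G' := by
      have h1 : (8 * ξ) ^ 2 + (8 * σ • ξ) ^ 2 = (8 * ξ - 8 * σ • ξ) ^ 2 +
          2 * ((8 * ξ) * (8 * σ • ξ)) := by ring
      rw [h1]
      exact Ideal.add_mem _ hm2 (Ideal.mul_mem_left _ _ hm1)
    have hm4 : -(((8 * ξ) * (8 * σ • ξ)) * ((8 * ξ) * (8 * σ • ξ))) ∈ G' * G' :=
      Ideal.neg_mem_iff _ |>.mpr (Ideal.mul_mem_mul hm1 hm1)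
    have hd1 : (8 * ξ) ^ 2 ∈ G' := h6_integral hm3 hm4 (by ring)
    have hd2 : (8 * σ • ξ) ^ 2 ∈ G' := h6_integral hm3 hm4 (by ring)
    -- ideals
    have hspan : G' ∣ Ideal.span {(64 : 𝓞 K)} * R ^ 6 := by
      rw [hR, ← t16_sup_pow hI0, Ideal.mul_sup, Ideal.dvd_iff_le, sup_le_iff]
      have h64 : Ideal.span {(64 : 𝓞 K)} = Ideal.span {(8 : 𝓞 K)} ^ 2 := by
        rw [Ideal.span_singleton_pow]
        norm_num
      constructor
      · have h1 : Ideal.span {(64 : 𝓞 K)} * I ^ 6 = Ideal.span {(8 * ξ) ^ 2} := by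
          rw [← Ideal.span_singleton_pow, ← Ideal.span_singleton_mul_span_singleton, mul_pow,
            ← hI, h64, ← pow_mul]
        rw [h1]
        exact (Ideal.span_singleton_le_iff_mem _).mpr hd1
      · have h1 : Ideal.span {(64 : 𝓞 K)} * (σ • I) ^ 6 = Ideal.span {(8 * σ • ξ) ^ 2} := by
          have h4 : (σ • I) ^ 3 = Ideal.span {σ • ξ} := by
            rw [← smul_pow', hI, t16_smul_span]
          rw [← Ideal.span_singleton_pow, ← Ideal.span_singleton_mul_span_singleton, mul_pow,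
            ← h4, h64, ← pow_mul]
        rw [h1]
        exact (Ideal.span_singleton_le_iff_mem _).mpr hd2
    -- norms
    have hnK : Ideal.absNorm G' = Ideal.absNorm G ^ 2 := by
      have hfin' : finrank (𝓞 E) (𝓞 K) = 2 := by
        rw [← hfin]
        exact (IsFractionRing.finrank_eq (𝓞 E) E (𝓞 K) K).symm
      rw [hG', hι, Ideal.absNorm_algebraMap, hfin']
    have hn64 : Ideal.absNorm (Ideal.span {(64 : 𝓞 K)}) = 64 ^ (m * 2) := by
      have h1 : finrank ℚ K = m * 2 := by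
        rw [← finrank_mul_finrank ℚ E K, hfin, hm]
      rw [Ideal.absNorm_span_singleton]
      have h3 : (64 : 𝓞 K) = algebraMap ℤ (𝓞 K) 64 := by simp
      rw [h3, Algebra.norm_algebraMap, RingOfIntegers.rank, h1, Int.natAbs_pow]
      norm_num
    have hle := Nat.le_of_dvd (by
      rw [map_mul, map_pow, hn64]
      have := absNorm_pos_of_ne_bot hR0
      positivity) (map_dvd Ideal.absNorm hspan)
    rw [map_mul, map_pow, hn64, hnK] at hle
    have h1 : Ideal.absNorm G ^ 2 ≤ (64 ^ m * Ideal.absNorm R ^ 3) ^ 2 := by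
      calc Ideal.absNorm G ^ 2 ≤ _ := hle
        _ = _ := by ring
    exact (Nat.pow_le_pow_iff_left (by norm_num)).mp h1

end Pool.Agent.Lib.MP_695920_nt.Qg
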