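import Mathlib
import Pool.Agent.Lib.MP_695920_nt.Qt.FinA
import Pool.Agent.Lib.MP_695920_nt.Gl.Defs
import Pool.Agent.Lib.MP_695920_nt.ClassMaps

/-!
Preparations for the final count.
-/

set_option autoImplicit false

open NumberField Module IsDedekindDomain
open scoped nonZeroDivisors

namespace Pool.Agent.Lib.MP_695920_nt.Qg

open Pool.Agent.Lib.MP_695920_nt.Qt Pool.Agent.Lib.MP_695920_nt.Gl

lemma tl_eq_h3 (K : Type) [Field K] [NumberField K] : (tl 3 K : ℝ) = h3 K := rfl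

/-- an element of trace zero in the base field is zero -/
lemma not_mem_range_of_trace {E K : Type} [Field E] [NumberField E] [Field K] [NumberField K]
    [Algebra E K] (hfin : finrank E K = 2) {y : K} (hy : y ≠ 0) (htr : Algebra.trace E K y = 0) :
    y ∉ Set.range (algebraMap E K) := by
  rintro ⟨x, rfl⟩
  rw [Algebra.trace_algebraMap, hfin, nsmul_eq_mul] at htr
  apply hy
  have hx : x = 0 := by simpa using htr
  rw [hx, map_zero]

/-- the index of the triples -/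
theorem index_bound_gen (m : ℕ) : ∃ C : ℝ, 0 ≤ C ∧ ∀ (E K : Type) [Field E] [NumberField E]
    [DecidableEq E] [Field K] [NumberField K] [Algebra E K]
    (_ : finrank ℚ E = m) (_ : finrank E K = 2) (_ : ∃ ω : E, ω ^ 2 + ω + 1 = 0)
    (k : 𝓞 E) (y : 𝓞 K) (u : (𝓞 E)ˣ), y ≠ 0 → Algebra.trace E K (y : K) = 0 →
    algebraMap (𝓞 E) (𝓞 K) k = 16 * algebraMap (𝓞 E) (𝓞 K) u ^ 2 * y ^ 2 →
    (nsmulAddMonoidHom (α := (Ek (k : E)).Point) 3).range.index ≠ 0 ∧
    ((nsmulAddMonoidHom (α := (Ek (k : E)).Point) 3).range.index : ℝ) ≤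
      (C * ((Algebra.norm ℤ y).natAbs : ℝ) ^ 2 * h3 K) ^ 2 := by
  obtain ⟨C, hC⟩ := relIndex_Sel (2 * m)
  refine ⟨|C| * (8 ^ (2 * m)) ^ 2, by positivity, ?_⟩
  intro E K _ _ _ _ _ _ hm hfin hω k y u hy htr hk
  obtain ⟨ω, hω⟩ := hω
  have hyK : (y : K) ≠ 0 := fun h => hy (RingOfIntegers.ext h)
  have hn : finrank ℚ K = 2 * m := by
    rw [← finrank_mul_finrank ℚ E K, hfin, hm, mul_comm]
  set s : 𝓞 K := 4 * algebraMap (𝓞 E) (𝓞 K) u * y with hs
  have hs2' : s ^ 2 = algebraMap (𝓞 E) (𝓞 K) k := by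
    rw [hs, hk]
    ring
  have hs2 : (s : K) ^ 2 = algebraMap E K (k : E) := by
    have h1 := congrArg (algebraMap (𝓞 K) K) hs2'
    rw [map_pow, ← IsScalarTower.algebraMap_apply, IsScalarTower.algebraMap_apply (𝓞 E) E K] at h1
    exact h1
  have huK : algebraMap (𝓞 E) (𝓞 K) u ≠ 0 := by
    intro h
    have h2 : IsUnit (algebraMap (𝓞 E) (𝓞 K) (u : 𝓞 E)) := u.isUnit.map _
    exact h2.ne_zero h
  have hs0 : s ≠ 0 := by
    rw [hs]
    exact mul_ne_zero (mul_ne_zero (by norm_num) huK) hy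
  have hsK : (s : K) ≠ 0 := fun h => hs0 (RingOfIntegers.ext h)
  have hkF : (k : E) ≠ 0 := by
    intro h
    rw [h, map_zero] at hs2
    exact hsK (pow_eq_zero_iff (by norm_num) |>.mp hs2)
  have hsF : (s : K) ∉ Set.range (algebraMap E K) := by
    apply not_mem_range_of_trace hfin hsK
    have h1 : (s : K) = (4 * (u : 𝓞 E) : E) • (y : K) := by
      rw [Algebra.smul_def, map_mul, map_ofNat, hs]
      change algebraMap (𝓞 K) K (4 * algebraMap (𝓞 E) (𝓞 K) u * y) = _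
      rw [map_mul, map_mul, map_ofNat, ← IsScalarTower.algebraMap_apply (𝓞 E) (𝓞 K) K,
        IsScalarTower.algebraMap_apply (𝓞 E) E K]
    rw [h1, LinearMap.map_smul, htr, smul_zero]
  have h2s : (2 * s : 𝓞 K) ≠ 0 := mul_ne_zero (by norm_num) hs0
  obtain ⟨hr0, hr⟩ := hC K (2 * s) hn h2s
  have hmw := mw_index hfin ω hω hkF (s : K) hs2 hsF (Sel K (2 * s))
    (fun x y h z hz => mem_Sel hs2 x y h z hz) (cub_le_Sel K _) hr0
  refine ⟨hmw.1, ?_⟩
  have h1 : ((nsmulAddMonoidHom (α := (Ek (k : E)).Point) 3).range.index : ℝ) ≤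
      ((Cub K).relIndex (Sel K (2 * s)) : ℝ) ^ 2 := by exact_mod_cast hmw.2
  refine h1.trans (pow_le_pow_left₀ (Nat.cast_nonneg _) ?_ 2)
  refine hr.trans ?_
  have h2 : (Algebra.norm ℤ (2 * s)).natAbs = 8 ^ (2 * m) * (Algebra.norm ℤ y).natAbs := by
    have h3 : (2 * s : 𝓞 K) = algebraMap ℤ (𝓞 K) 8 * algebraMap (𝓞 E) (𝓞 K) u * y := by
      rw [hs]
      simp only [algebraMap_int_eq, eq_intCast, Int.cast_ofNat]
      ring
    have h4 : (Algebra.norm ℤ (algebraMap (𝓞 E) (𝓞 K) (u : 𝓞 E))).natAbs = 1 := by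
      have h5 : IsUnit (Algebra.norm ℤ (algebraMap (𝓞 E) (𝓞 K) (u : 𝓞 E))) :=
        (u.isUnit.map (algebraMap (𝓞 E) (𝓞 K))).map (Algebra.norm ℤ)
      exact Int.isUnit_iff_natAbs_eq.mp h5
    rw [h3, map_mul, map_mul, Int.natAbs_mul, Int.natAbs_mul, h4, mul_one,
      Algebra.norm_algebraMap, Int.natAbs_pow]
    have h6 : finrank ℤ (𝓞 K) = 2 * m := by
      rw [RingOfIntegers.rank, hn]
    rw [h6]
    rfl
  rw [h2]
  push_cast
  unfold h3
  apply mul_le_mul_of_nonneg_right _ (Nat.cast_nonneg _)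
  have h7 : 0 ≤ (8 ^ (2 * m) * ((Algebra.norm ℤ y).natAbs : ℝ)) ^ 2 := by positivity
  calc C * (8 ^ (2 * m) * ((Algebra.norm ℤ y).natAbs : ℝ)) ^ 2 ≤
      |C| * (8 ^ (2 * m) * ((Algebra.norm ℤ y).natAbs : ℝ)) ^ 2 :=
        mul_le_mul_of_nonneg_right (le_abs_self _) h7
    _ = |C| * (8 ^ (2 * m)) ^ 2 * ((Algebra.norm ℤ y).natAbs : ℝ) ^ 2 := by ring

/-- the classes killed by three of trivial norm -/
abbrev C3 (E K : Type) [Field E] [NumberField E] [Field K] [NumberField K] [Algebra E K] : Type :=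
  {c : ClassGroup (𝓞 K) // c ^ 3 = 1 ∧ (idMap_relNorm (K := E) (L := K)).cl c = 1}

lemma tl_le_mul_C3 (E K : Type) [Field E] [NumberField E] [Field K] [NumberField K]
    [Algebra E K] : tl 3 K ≤ tl 3 E * Nat.card (C3 E K) := by
  classical
  set φ := (idMap_relNorm (K := E) (L := K)).cl with hφ
  have hfin1 : Finite {x : ClassGroup (𝓞 K) // x ^ 3 = 1} := Subtype.finite
  have hfin2 : Finite {x : ClassGroup (𝓞 E) // x ^ 3 = 1} := Subtype.finite
  cases nonempty_fintype {x : ClassGroup (𝓞 E) // x ^ 3 = 1}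
  let F : {x : ClassGroup (𝓞 K) // x ^ 3 = 1} → {x : ClassGroup (𝓞 E) // x ^ 3 = 1} :=
    fun x => ⟨φ x.1, by rw [← map_pow, x.2, map_one]⟩
  unfold tl
  rw [← Nat.card_congr (Equiv.sigmaFiberEquiv F), Nat.card_sigma]
  calc ∑ q, Nat.card {x // F x = q} ≤ ∑ _q : {x : ClassGroup (𝓞 E) // x ^ 3 = 1},
      Nat.card (C3 E K) := by
        apply Finset.sum_le_sum
        intro q _
        rcases isEmpty_or_nonempty {x // F x = q} with h | ⟨⟨x, hx⟩⟩
        · rw [Nat.card_of_isEmpty]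
          exact Nat.zero_le _
        · have h1 : ∀ y : {x // F x = q}, (y.1.1 * x.1⁻¹) ^ 3 = 1 ∧ φ (y.1.1 * x.1⁻¹) = 1 := by
            rintro ⟨y, hy⟩
            refine ⟨by rw [mul_pow, inv_pow, y.2, x.2, inv_one, mul_one], ?_⟩
            have h2 : φ y.1 = φ x.1 := by
              have h3 := congrArg Subtype.val (hy.trans hx.symm)
              exact h3
            rw [map_mul, map_inv, h2, mul_inv_cancel]
          apply Nat.card_le_card_of_injective
            (fun y : {x // F x = q} => (⟨y.1.1 * x.1⁻¹, h1 y⟩ : C3 E K))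
          intro y z hyz
          have h5 := congrArg Subtype.val hyz
          have h6 : y.1.1 = z.1.1 := mul_right_cancel h5
          exact Subtype.ext (Subtype.ext h6)
    _ = _ := by
        rw [Finset.sum_const, Finset.card_univ, smul_eq_mul, ← Nat.card_eq_fintype_card]

/-- the relative norm of an ideal in a class of trivial norm -/
lemma relNorm_principal {E K : Type} [Field E] [NumberField E] [Field K] [NumberField K]
    [Algebra E K] {c : ClassGroup (𝓞 K)} (hc : (idMap_relNorm (K := E) (L := K)).cl c = 1)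
    (I : (Ideal (𝓞 K))⁰) (hI : ClassGroup.mk0 I = c) :
    ∃ x : 𝓞 E, Ideal.relNorm (𝓞 E) (I : Ideal (𝓞 K)) = Ideal.span {x} := by
  rw [← hI, IdMap.cl_mk0] at hc
  have h2 : ((idMap_relNorm (K := E) (L := K)).nz I : Ideal (𝓞 E)).IsPrincipal :=
    (ClassGroup.mk0_eq_one_iff ((idMap_relNorm (K := E) (L := K)).nz I).2).mp hc
  obtain ⟨γ, hγ⟩ := h2
  refine ⟨γ, ?_⟩
  rw [← Ideal.submodule_span_eq, ← hγ]
  rfl

end Pool.Agent.Lib.MP_695920_nt.Qg
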