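import Mathlib

set_option autoImplicit false

open NumberField Module

namespace Pool.Agent.Lib.MP_695920_nt.Qg

/-- the floor box of a complex number -/
noncomputable def h1_box (s : ℝ) (z : ℂ) : ℤ × ℤ := (⌊z.re / s⌋, ⌊z.im / s⌋)

theorem h1_box_close {s : ℝ} (hs : 0 < s) {z w : ℂ} (h : h1_box s z = h1_box s w) :
    ‖z - w‖ ^ 2 ≤ 2 * s ^ 2 := by
  have h1 : ⌊z.re / s⌋ = ⌊w.re / s⌋ := congrArg Prod.fst h
  have h2 : ⌊z.im / s⌋ = ⌊w.im / s⌋ := congrArg Prod.snd h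
  have k1 := Int.abs_sub_lt_one_of_floor_eq_floor h1
  have k2 := Int.abs_sub_lt_one_of_floor_eq_floor h2
  rw [← sub_div, abs_div, abs_of_pos hs, div_lt_one hs] at k1 k2
  rw [Complex.sq_norm, Complex.normSq_apply, Complex.sub_re, Complex.sub_im]
  have e1 : (z.re - w.re) * (z.re - w.re) ≤ s ^ 2 := by
    rw [← sq, ← sq_abs]
    exact pow_le_pow_left₀ (abs_nonneg _) k1.le 2
  have e2 : (z.im - w.im) * (z.im - w.im) ≤ s ^ 2 := by
    rw [← sq, ← sq_abs]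
    exact pow_le_pow_left₀ (abs_nonneg _) k2.le 2
  linarith

theorem h1_box_mem {s R : ℝ} (hs : 0 < s) {z : ℂ} (hz : ‖z‖ ≤ R) {M : ℕ}
    (hM : R / s ≤ M) : h1_box s z ∈ Finset.Icc (-(M : ℤ)) M ×ˢ Finset.Icc (-(M : ℤ)) M := by
  have aux : ∀ t : ℝ, |t| ≤ R → ⌊t / s⌋ ∈ Finset.Icc (-(M : ℤ)) M := by
    intro t ht
    obtain ⟨h1, h2⟩ := abs_le.1 ht
    rw [Finset.mem_Icc]
    constructor
    · rw [Int.le_floor]
      push_cast
      rw [le_div_iff₀ hs]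
      rw [div_le_iff₀ hs] at hM
      linarith
    · have h3 : t / s ≤ (M : ℝ) := (div_le_div_of_nonneg_right h2 hs.le).trans hM
      have h4 : (⌊t / s⌋ : ℝ) ≤ (M : ℝ) := (Int.floor_le _).trans h3
      exact_mod_cast h4
  rw [Finset.mem_product]
  exact ⟨aux _ ((Complex.abs_re_le_norm z).trans hz), aux _ ((Complex.abs_im_le_norm z).trans hz)⟩

/-! H1: Pack.lean -/
/-- counting by packing -/
theorem pack_count (r : ℕ) : ∃ C : ℝ, 1 ≤ C ∧ ∀ (ι : Type) [Fintype ι] [Nonempty ι] (A : Type)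
    [AddCommGroup A] (φ : ι → A →+ ℂ) (N : ℝ) (R : ι → ℝ), Fintype.card ι ≤ r → 0 < N →
    (∀ i, 0 < R i) → (∀ a : A, a ≠ 0 → N ≤ ∏ i, ‖φ i a‖ ^ 2) →
    {a : A | ∀ i, ‖φ i a‖ ≤ R i}.Finite ∧
      ({a : A | ∀ i, ‖φ i a‖ ≤ R i}.ncard : ℝ) ≤ C * (1 + (∏ i, R i ^ 2) / N) := by
  classical
  refine ⟨64 ^ r, one_le_pow₀ (by norm_num), ?_⟩
  intro ι _ _ A _ φ N R hcard hN hR hlow
  set r' : ℕ := Fintype.card ι with hr'
  have hr'0 : r' ≠ 0 := Fintype.card_ne_zero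
  set V : ℝ := ∏ i, R i ^ 2 with hV
  have hV0 : 0 < V := Finset.prod_pos (fun i _ => pow_pos (hR i) 2)
  set m0 : ℝ := min 1 (N / V) with hm0
  have hm0pos : 0 < m0 := lt_min one_pos (div_pos hN hV0)
  have hm01 : m0 ≤ 1 := min_le_left _ _
  set c : ℝ := m0 ^ ((r' : ℝ)⁻¹) with hc
  have hcpos : 0 < c := Real.rpow_pos_of_pos hm0pos _
  have hc1 : c ≤ 1 := Real.rpow_le_one hm0pos.le hm01 (by positivity)
  have hcr : c ^ r' = m0 := Real.rpow_inv_natCast_pow hm0pos.le hr'0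
  set ρ : ℝ := Real.sqrt c / 2 with hρ
  have hρpos : 0 < ρ := by positivity
  have hρ2 : ρ ^ 2 = c / 4 := by rw [hρ, div_pow, Real.sq_sqrt hcpos.le]; norm_num
  have hρle : ρ ≤ 1 / 2 := by
    have : Real.sqrt c ≤ 1 := by rw [Real.sqrt_le_left (by norm_num)]; simpa using hc1
    rw [hρ]; linarith
  set M : ℕ := ⌈1 / ρ⌉₊ with hM
  have hM1 : 1 / ρ ≤ (M : ℝ) := Nat.le_ceil _
  have hM2 : (M : ℝ) < 1 / ρ + 1 := Nat.ceil_lt_add_one (by positivity)
  set S : Set A := {a : A | ∀ i, ‖φ i a‖ ≤ R i} with hS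
  set B : Finset (ℤ × ℤ) := Finset.Icc (-(M : ℤ)) M ×ˢ Finset.Icc (-(M : ℤ)) M with hB
  set T : Finset (ι → ℤ × ℤ) := Fintype.piFinset (fun _ => B) with hT
  set f : A → (ι → ℤ × ℤ) := fun a i => h1_box (ρ * R i) (φ i a) with hf
  have hmaps : ∀ a ∈ S, f a ∈ (T : Set (ι → ℤ × ℤ)) := by
    intro a ha
    rw [Finset.mem_coe, hT, Fintype.mem_piFinset]
    intro i
    refine h1_box_mem (mul_pos hρpos (hR i)) (ha i) ?_
    have : R i / (ρ * R i) = 1 / ρ := by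
      have := (hR i).ne'
      field_simp
    rw [this]; exact hM1
  have hinj : Set.InjOn f S := by
    intro a _ b _ hab
    by_contra hne
    have h1 := hlow (a - b) (sub_ne_zero.2 hne)
    have h2 : ∏ i, ‖φ i (a - b)‖ ^ 2 ≤ ∏ i, (2 * ρ ^ 2 * R i ^ 2) := by
      refine Finset.prod_le_prod (fun i _ => by positivity) (fun i _ => ?_)
      rw [map_sub]
      have h3 := h1_box_close (mul_pos hρpos (hR i)) (congrFun hab i)
      calc ‖φ i a - φ i b‖ ^ 2 ≤ 2 * (ρ * R i) ^ 2 := h3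
        _ = 2 * ρ ^ 2 * R i ^ 2 := by ring
    have h4 : ∏ i, (2 * ρ ^ 2 * R i ^ 2) = (2 * ρ ^ 2) ^ r' * V := by
      rw [Finset.prod_mul_distrib, Finset.prod_const, Finset.card_univ]
    have h5 : (2 * ρ ^ 2) ^ r' * V = (1 / 2) ^ r' * (m0 * V) := by
      rw [hρ2, show 2 * (c / 4) = (1 / 2) * c by ring, mul_pow, hcr]; ring
    have h6 : m0 * V ≤ N := by
      have : m0 ≤ N / V := min_le_right _ _
      rwa [le_div_iff₀ hV0] at this
    have h7 : (1 / 2 : ℝ) ^ r' < 1 := pow_lt_one₀ (by norm_num) (by norm_num) hr'0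
    have h8 : (1 / 2 : ℝ) ^ r' * (m0 * V) < N := by
      have h9 : 0 < m0 * V := mul_pos hm0pos hV0
      calc (1 / 2 : ℝ) ^ r' * (m0 * V) < 1 * (m0 * V) := mul_lt_mul_of_pos_right h7 h9
        _ = m0 * V := one_mul _
        _ ≤ N := h6
    linarith
  refine ⟨Set.Finite.of_injOn hmaps hinj T.finite_toSet, ?_⟩
  have hn := Set.ncard_le_ncard_of_injOn f hmaps hinj T.finite_toSet
  rw [Set.ncard_coe_finset] at hn
  have hTc : T.card = ((2 * M + 1) ^ 2) ^ r' := by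
    rw [hT, Fintype.card_piFinset, Finset.prod_const, Finset.card_univ, hB, Finset.card_product,
      Int.card_Icc]
    congr 1
    have : ((M : ℤ) + 1 - -(M : ℤ)).toNat = 2 * M + 1 := by omega
    rw [this]; ring
  have hb : ((2 * M + 1 : ℕ) : ℝ) ≤ 4 / ρ := by
    push_cast
    have h3 : 2 ≤ 1 / ρ := by
      rw [le_div_iff₀ hρpos]; linarith
    have h4 : 4 / ρ = 4 * (1 / ρ) := by ring
    rw [h4]; linarith
  have hb2 : (((2 * M + 1) ^ 2 : ℕ) : ℝ) ≤ 64 / c := by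
    have h1 : (((2 * M + 1) ^ 2 : ℕ) : ℝ) ≤ (4 / ρ) ^ 2 := by
      push_cast
      push_cast at hb
      exact pow_le_pow_left₀ (by positivity) hb 2
    have h2 : (4 / ρ) ^ 2 = 64 / c := by
      rw [div_pow, hρ2]; field_simp; norm_num
    rw [h2] at h1; exact h1
  have hmain : (T.card : ℝ) ≤ 64 ^ r' / m0 := by
    rw [hTc]
    push_cast
    push_cast at hb2
    calc (((2 * (M : ℝ) + 1) ^ 2) ^ r') ≤ (64 / c) ^ r' :=
          pow_le_pow_left₀ (by positivity) hb2 r'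
      _ = 64 ^ r' / m0 := by rw [div_pow, hcr]
  have hm0inv : 1 / m0 ≤ 1 + V / N := by
    rcases le_total 1 (N / V) with h | h
    · rw [hm0, min_eq_left h]
      have : 0 < V / N := div_pos hV0 hN
      linarith
    · rw [hm0, min_eq_right h, one_div_div]
      linarith
  have hpow : (64 : ℝ) ^ r' ≤ 64 ^ r := pow_le_pow_right₀ (by norm_num) hcard
  calc (S.ncard : ℝ) ≤ (T.card : ℝ) := by exact_mod_cast hn
    _ ≤ 64 ^ r' / m0 := hmain
    _ = 64 ^ r' * (1 / m0) := by ring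
    _ ≤ 64 ^ r * (1 + V / N) := mul_le_mul hpow hm0inv (by positivity) (by positivity)

/-- integers in a box of any shape -/
theorem box_count (m : ℕ) : ∃ C : ℝ, 1 ≤ C ∧ ∀ (E : Type) [Field E] [NumberField E],
    finrank ℚ E = m → (∀ v : InfinitePlace E, v.IsComplex) →
    ∀ R : InfinitePlace E → ℝ, (∀ v, 0 < R v) →
    {z : 𝓞 E | ∀ v : InfinitePlace E, v (z : E) ≤ R v}.Finite ∧
      ({z : 𝓞 E | ∀ v : InfinitePlace E, v (z : E) ≤ R v}.ncard : ℝ) ≤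
        C * (1 + ∏ v, R v ^ 2) := by
  obtain ⟨C, hC1, hC⟩ := pack_count m
  refine ⟨C, hC1, ?_⟩
  intro E _ _ hm hcx R hR
  have hmult : ∀ v : InfinitePlace E, v.mult = 2 := fun v =>
    InfinitePlace.mult_isComplex ⟨v, hcx v⟩
  have hcard : Fintype.card (InfinitePlace E) ≤ m := by
    have h := InfinitePlace.sum_mult_eq (K := E)
    simp only [hmult] at h
    rw [Finset.sum_const, Finset.card_univ, smul_eq_mul, hm] at h
    omega
  set φ : InfinitePlace E → (𝓞 E) →+ ℂ := fun v =>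
    (v.embedding.comp (algebraMap (𝓞 E) E)).toAddMonoidHom with hφ
  have hφn : ∀ v z, ‖φ v z‖ = v (z : E) := by
    intro v z
    exact InfinitePlace.norm_embedding_eq v (z : E)
  have hlow : ∀ a : 𝓞 E, a ≠ 0 → (1 : ℝ) ≤ ∏ v, ‖φ v a‖ ^ 2 := by
    intro a ha
    have h1 := InfinitePlace.prod_eq_abs_norm (K := E) (a : E)
    simp only [hmult] at h1
    simp only [hφn]
    rw [h1]
    have h2 : Algebra.norm ℤ a ≠ 0 := Algebra.norm_ne_zero_iff.2 ha
    have h3 : (1 : ℤ) ≤ |Algebra.norm ℤ a| := Int.one_le_abs h2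
    have h4 : (Algebra.norm ℚ (a : E) : ℚ) = ((Algebra.norm ℤ a : ℤ) : ℚ) :=
      (Algebra.coe_norm_int a).symm
    rw [h4]
    have h5 : (1 : ℚ) ≤ |((Algebra.norm ℤ a : ℤ) : ℚ)| := by exact_mod_cast h3
    exact_mod_cast h5
  have h := hC (InfinitePlace E) (𝓞 E) φ 1 R hcard one_pos hR hlow
  simp only [hφn, div_one] at h
  exact h

end Pool.Agent.Lib.MP_695920_nt.Qg
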