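import Mathlib
import Pool.Agent.Lib.MP_695920_nt.Qg.Pack

/-!
Counting the integers of trace zero in a quadratic extension.
-/

set_option autoImplicit false

open NumberField Module Polynomial
open scoped IntermediateField

namespace Pool.Agent.Lib.MP_695920_nt.Qg

/-- the square of an element of trace zero -/
theorem h2_sq {E K : Type*} [Field E] [Field K] [Algebra E K] [FiniteDimensional E K]
    (h2 : finrank E K = 2) {y : K} (hy : Algebra.trace E K y = 0) :
    y ^ 2 = algebraMap E K (-Algebra.norm E y) := by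
  let b : Basis (Fin 2) E K := finBasisOfFinrankEq E K h2
  apply Algebra.leftMulMatrix_injective b
  rw [map_pow, Algebra.norm_eq_matrix_det b]
  rw [Algebra.trace_eq_matrix_trace b, Matrix.trace_fin_two] at hy
  set M := Algebra.leftMulMatrix b y with hM
  have h3 : M 1 1 = - M 0 0 := by linear_combination hy
  have h4 : Algebra.leftMulMatrix b (algebraMap E K (-M.det)) = Matrix.scalar (Fin 2) (-M.det) := by
    rw [AlgHom.commutes]
    rfl
  rw [h4, Matrix.det_fin_two, sq]
  ext i j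
  fin_cases i <;> fin_cases j <;>
    simp [Matrix.mul_apply, Fin.sum_univ_two, h3] <;> ring

theorem h2_mem_range {E K : Type*} [Field E] [CharZero E] [Field K] [Algebra E K]
    [FiniteDimensional E K] (h2 : finrank E K = 2) {y : K} (hy : Algebra.trace E K y = 0)
    (hr : y ∈ (algebraMap E K).range) : y = 0 := by
  obtain ⟨a, rfl⟩ := hr
  rw [Algebra.trace_algebraMap, h2] at hy
  have : a = 0 := by simpa using hy
  simp [this]

/-- the discriminant of a quadratic extension -/
theorem h2_disc {E K : Type*} [Field E] [NumberField E] [Field K] [NumberField K] [Algebra E K]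
    (h2 : finrank E K = 2) {y : 𝓞 K} (hy0 : y ≠ 0) (htr : Algebra.trace E K (y : K) = 0) :
    (discr K).natAbs ≤ Ideal.absNorm (Ideal.span {2 * y}) * (discr E).natAbs ^ 2 := by
  have hy0' : (y : K) ≠ 0 := by
    intro h
    exact hy0 (RingOfIntegers.ext (by simpa using h))
  have hsq := h2_sq h2 htr
  set e : 𝓞 E := -RingOfIntegers.norm E y with he
  have hec : (e : E) = -Algebra.norm E (y : K) := by
    rw [he]
    simp [RingOfIntegers.coe_norm]
  have hsq' : (y : K) ^ 2 = algebraMap E K (e : E) := by rw [hsq, hec]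
  have hθint : IsIntegral (𝓞 E) y := Algebra.IsIntegral.isIntegral y
  have hsK : IsIntegral E (y : K) := Algebra.IsIntegral.isIntegral _
  have hmon : (X ^ 2 + C (-(e : E)) : E[X]).Monic := by monicity!
  have hdeg : (X ^ 2 + C (-(e : E)) : E[X]).natDegree = 2 := natDegree_X_pow_add_C
  have h3 : minpoly E (y : K) ∣ (X ^ 2 + C (-(e : E)) : E[X]) := by
    apply minpoly.dvd
    rw [map_add, map_pow, aeval_X, hsq', aeval_C, map_neg]
    ring
  have h5 : (minpoly E (y : K)).natDegree = 2 := by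
    have h6 : (minpoly E (y : K)).natDegree ≤ 2 := by
      rw [← hdeg]
      exact natDegree_le_of_dvd h3 hmon.ne_zero
    have h7 : (minpoly E (y : K)).natDegree ≠ 1 := by
      intro h
      have h8 : (minpoly E (y : K)).degree = 1 := by
        rw [degree_eq_natDegree (minpoly.ne_zero hsK), h]; rfl
      exact hy0' (h2_mem_range h2 htr (minpoly.mem_range_of_degree_eq_one E _ h8))
    have h9 := minpoly.natDegree_pos hsK
    omega
  have htop : E⟮(y : K)⟯ = ⊤ := by
    apply IntermediateField.eq_of_le_of_finrank_eq le_top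
    rw [IntermediateField.adjoin.finrank hsK, h5, IntermediateField.finrank_top', h2]
  have hmin : minpoly E (y : K) = X ^ 2 + C (-(e : E)) :=
    (eq_of_monic_of_dvd_of_natDegree_le (minpoly.monic hsK) hmon h3 (by rw [hdeg, h5])).symm
  have hmap : (minpoly (𝓞 E) y).map (algebraMap (𝓞 E) E) = X ^ 2 + C (-(e : E)) := by
    have h4 := minpoly.isIntegrallyClosed_eq_field_fractions E K hθint
    have h5 : algebraMap (𝓞 K) K y = (y : K) := rfl
    rw [h5, hmin] at h4
    exact h4.symm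
  have hmin2 : minpoly (𝓞 E) y = X ^ 2 + C (-e) := by
    apply Polynomial.map_injective (algebraMap (𝓞 E) E) (FaithfulSMul.algebraMap_injective (𝓞 E) E)
    rw [hmap, Polynomial.map_add, Polynomial.map_pow, Polynomial.map_X, Polynomial.map_C]
    rfl
  have hadj : Algebra.adjoin E {algebraMap (𝓞 K) K y} = ⊤ := by
    have h3 := IntermediateField.adjoin_simple_toSubalgebra_of_isAlgebraic (F := E) (α := (y : K))
      hsK.isAlgebraic
    have h5 : algebraMap (𝓞 K) K y = (y : K) := rfl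
    rw [h5, ← h3, htop]
    rfl
  have hmem := aeval_derivative_mem_differentIdeal (𝓞 E) E K y hadj
  rw [hmin2] at hmem
  have hder : (aeval y) (derivative (X ^ 2 + C (-e) : (𝓞 E)[X])) = 2 * y := by
    rw [derivative_add, derivative_X_pow, derivative_C, add_zero, map_mul, aeval_C, map_natCast,
      map_pow, aeval_X]
    norm_num
  rw [hder] at hmem
  have hdvd : differentIdeal (𝓞 E) (𝓞 K) ∣ Ideal.span {2 * y} := by
    rw [Ideal.dvd_span_singleton]
    exact hmem
  have h5 := Ideal.absNorm_dvd_absNorm_of_le (Ideal.dvd_iff_le.mp hdvd)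
  have hne : Ideal.absNorm (Ideal.span {2 * y}) ≠ 0 := by
    rw [Ne, Ideal.absNorm_eq_zero_iff, Ideal.span_singleton_eq_bot]
    exact mul_ne_zero two_ne_zero hy0
  have h6 := Nat.le_of_dvd (Nat.pos_of_ne_zero hne) h5
  have h8 := natAbs_discr_eq_absNorm_differentIdeal_mul_natAbs_discr_pow E (𝓞 E) K (𝓞 K)
  rw [h2] at h8
  rw [h8]
  exact Nat.mul_le_mul_right _ h6

/-- the norm of an element of trace zero is bounded below -/
theorem h2_lower {E K : Type*} [Field E] [NumberField E] [Field K] [NumberField K] [Algebra E K]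
    (h2 : finrank E K = 2) {y : 𝓞 K} (hy0 : y ≠ 0) (htr : Algebra.trace E K (y : K) = 0) :
    |(discr K : ℝ)| ≤ 4 ^ (finrank ℚ E) * |((Algebra.norm ℚ (Algebra.norm E (y : K)) : ℚ) : ℝ)| *
      |(discr E : ℝ)| ^ 2 := by
  have h1 := h2_disc h2 hy0 htr
  have h9 : |(discr K : ℝ)| = ((discr K).natAbs : ℝ) := by
    rw [Nat.cast_natAbs]
    push_cast
    rfl
  have h10 : |(discr E : ℝ)| = ((discr E).natAbs : ℝ) := by
    rw [Nat.cast_natAbs]
    push_cast
    rfl
  have hfin : finrank ℚ K = 2 * finrank ℚ E := by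
    rw [← finrank_mul_finrank ℚ E K, h2, mul_comm]
  have h11 : (Ideal.absNorm (Ideal.span {2 * y}) : ℝ) =
      4 ^ (finrank ℚ E) * |((Algebra.norm ℚ (Algebra.norm E (y : K)) : ℚ) : ℝ)| := by
    rw [Ideal.absNorm_span_singleton, Algebra.norm_norm]
    have h12 : (Algebra.norm ℤ (2 * y) : ℤ) = 4 ^ (finrank ℚ E) * Algebra.norm ℤ y := by
      rw [map_mul]
      congr 1
      have h13 : Algebra.norm ℤ ((2 : 𝓞 K)) = 2 ^ (finrank ℚ K) := by
        have := Algebra.norm_algebraMap (R := ℤ) (S := 𝓞 K) (2 : ℤ)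
        rw [RingOfIntegers.rank] at this
        simpa using this
      rw [h13, hfin, pow_mul]
      norm_num
    have h14 : ((Algebra.norm ℤ y : ℤ) : ℚ) = Algebra.norm ℚ (y : K) := Algebra.coe_norm_int y
    rw [← h14, h12, Nat.cast_natAbs]
    push_cast
    rw [abs_mul]
    congr 1
    exact abs_of_pos (by positivity)
  rw [h9, h10, ← h11]
  exact_mod_cast h1

/-- integers of trace zero in a quadratic extension -/
theorem minus_count (m : ℕ) : ∃ C : ℝ, 1 ≤ C ∧ ∀ (E K : Type) [Field E] [NumberField E] [Field K]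
    [NumberField K] [Algebra E K], finrank ℚ E = m → finrank E K = 2 →
    (∀ v : InfinitePlace E, v.IsComplex) → ∀ B : ℝ, 0 < B →
    {y : 𝓞 K | Algebra.trace E K (y : K) = 0 ∧ ∀ w : InfinitePlace K, w (y : K) ≤ B}.Finite ∧
      ({y : 𝓞 K | Algebra.trace E K (y : K) = 0 ∧
        ∀ w : InfinitePlace K, w (y : K) ≤ B}.ncard : ℝ) ≤
        C * (1 + B ^ m * |(discr E : ℝ)| / Real.sqrt |(discr K : ℝ)|) := by
  obtain ⟨C, hC1, hC⟩ := pack_count m
  refine ⟨C * 2 ^ m, ?_, ?_⟩
  · have : (1 : ℝ) ≤ 2 ^ m := one_le_pow₀ (by norm_num)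
    nlinarith
  intro E K _ _ _ _ _ hm h2 hcx B hB
  have hsum : 2 * Fintype.card (InfinitePlace E) = m := by
    rw [← hm, ← InfinitePlace.sum_mult_eq (K := E)]
    rw [Finset.sum_congr rfl (fun v _ => (InfinitePlace.mult_isComplex ⟨v, hcx v⟩ : v.mult = 2))]
    simp [mul_comm]
  -- places above
  have hsurj := InfinitePlace.comap_surjective (k := E) (K := K)
  choose W hW using hsurj
  let A : AddSubgroup (𝓞 K) := AddMonoidHom.ker
    ((Algebra.trace E K).toAddMonoidHom.comp (algebraMap (𝓞 K) K).toAddMonoidHom)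
  have hA : ∀ y : 𝓞 K, y ∈ A ↔ Algebra.trace E K (y : K) = 0 := by
    intro y
    simp only [A, AddMonoidHom.mem_ker]
    rfl
  let φ : InfinitePlace E → A →+ ℂ := fun v =>
    (((W v).embedding.toAddMonoidHom.comp (algebraMap (𝓞 K) K).toAddMonoidHom)).comp A.subtype
  have hφ : ∀ v (a : A), ‖φ v a‖ = W v ((a : 𝓞 K) : K) := by
    intro v a
    have : φ v a = (W v).embedding ((a : 𝓞 K) : K) := rfl
    rw [this, InfinitePlace.norm_embedding_eq]
  have hDK : 0 < |(discr K : ℝ)| := abs_pos.mpr (by exact_mod_cast discr_ne_zero K)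
  have hDE : 0 < |(discr E : ℝ)| := abs_pos.mpr (by exact_mod_cast discr_ne_zero E)
  have hsK : 0 < Real.sqrt |(discr K : ℝ)| := Real.sqrt_pos.mpr hDK
  set N : ℝ := Real.sqrt |(discr K : ℝ)| / (2 ^ m * |(discr E : ℝ)|) with hN
  have hNpos : 0 < N := by positivity
  have hlow : ∀ a : A, a ≠ 0 → N ≤ ∏ v, ‖φ v a‖ ^ 2 := by
    intro a ha
    have ha0 : (a : 𝓞 K) ≠ 0 := by
      intro h
      exact ha (Subtype.ext h)
    have htr := (hA a).mp a.2
    have hl := h2_lower h2 ha0 htr
    have hsq := h2_sq h2 htr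
    set e : E := -Algebra.norm E ((a : 𝓞 K) : K) with he
    have h3 : ∀ v, ‖φ v a‖ ^ 2 = v e := by
      intro v
      rw [hφ, ← map_pow, hsq]
      have h4 : v = (W v).comap (algebraMap E K) := (hW v).symm
      conv_rhs => rw [h4]
      rfl
    have h5 : (∏ v : InfinitePlace E, ‖φ v a‖ ^ 2) ^ 2 =
        |((Algebra.norm ℚ (Algebra.norm E ((a : 𝓞 K) : K)) : ℚ) : ℝ)| := by
      have h6 := InfinitePlace.prod_eq_abs_norm e
      have h7 : |((Algebra.norm ℚ e : ℚ) : ℝ)| =
          |((Algebra.norm ℚ (Algebra.norm E ((a : 𝓞 K) : K)) : ℚ) : ℝ)| := by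
        have h8 : ((Algebra.norm ℚ e : ℚ)) = (-1) ^ (finrank ℚ E) *
            Algebra.norm ℚ (Algebra.norm E ((a : 𝓞 K) : K)) := by
          have h9 : e = algebraMap ℚ E (-1) * Algebra.norm E ((a : 𝓞 K) : K) := by
            rw [he]; simp
          rw [h9, map_mul, Algebra.norm_algebraMap]
        rw [h8]
        push_cast
        rw [abs_mul, abs_pow]
        simp
      rw [← h7]
      rw [← Rat.cast_abs, ← h6, ← Finset.prod_pow]
      refine Finset.prod_congr rfl (fun v _ => ?_)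
      rw [h3, (InfinitePlace.mult_isComplex ⟨v, hcx v⟩ : v.mult = 2)]
    have h6 : 0 ≤ ∏ v : InfinitePlace E, ‖φ v a‖ ^ 2 :=
      Finset.prod_nonneg (fun v _ => by positivity)
    rw [← h5, hm] at hl
    rw [hN, div_le_iff₀ (by positivity)]
    apply Real.sqrt_le_iff.mpr
    refine ⟨by positivity, ?_⟩
    calc |(discr K : ℝ)| ≤ _ := hl
      _ = _ := by
        rw [mul_pow, mul_pow]
        have : ((2 : ℝ) ^ m) ^ 2 = 4 ^ m := by
          rw [← pow_mul, mul_comm, pow_mul]; norm_num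
        rw [this]
        ring
  have hcard : Fintype.card (InfinitePlace E) ≤ m := by omega
  obtain ⟨hf, hc⟩ := hC (InfinitePlace E) A φ N (fun _ => B) hcard hNpos (fun _ => hB) hlow
  have hsub : {y : 𝓞 K | Algebra.trace E K (y : K) = 0 ∧ ∀ w : InfinitePlace K, w (y : K) ≤ B} ⊆
      (fun a : A => (a : 𝓞 K)) '' {a : A | ∀ i, ‖φ i a‖ ≤ B} := by
    rintro y ⟨hy1, hy2⟩
    refine ⟨⟨y, (hA y).mpr hy1⟩, ?_, rfl⟩
    intro v
    rw [hφ]
    exact hy2 _
  refine ⟨(hf.image _).subset hsub, ?_⟩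
  have h1 : ({y : 𝓞 K | Algebra.trace E K (y : K) = 0 ∧
        ∀ w : InfinitePlace K, w (y : K) ≤ B}.ncard : ℝ) ≤
        ({a : A | ∀ i, ‖φ i a‖ ≤ B}.ncard : ℝ) := by
    have h2 := Set.ncard_le_ncard hsub (hf.image _)
    have h3 := Set.ncard_image_le (f := fun a : A => (a : 𝓞 K)) hf
    exact_mod_cast h2.trans h3
  refine h1.trans (hc.trans ?_)
  have h4 : ∏ _v : InfinitePlace E, B ^ 2 = B ^ m := by
    rw [Finset.prod_const, Finset.card_univ, ← pow_mul, hsum]
  rw [h4]
  have h5 : B ^ m / N = 2 ^ m * (B ^ m * |(discr E : ℝ)| / Real.sqrt |(discr K : ℝ)|) := by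
    rw [hN]
    field_simp
  rw [h5]
  have h6 : (1 : ℝ) ≤ 2 ^ m := one_le_pow₀ (by norm_num)
  have h7 : 0 ≤ B ^ m * |(discr E : ℝ)| / Real.sqrt |(discr K : ℝ)| := by positivity
  have h8 : 0 ≤ C := by linarith
  have h9 : 1 + 2 ^ m * (B ^ m * |(discr E : ℝ)| / Real.sqrt |(discr K : ℝ)|) ≤
      2 ^ m * (1 + B ^ m * |(discr E : ℝ)| / Real.sqrt |(discr K : ℝ)|) := by
    nlinarith
  calc C * (1 + 2 ^ m * (B ^ m * |(discr E : ℝ)| / Real.sqrt |(discr K : ℝ)|))
      ≤ C * (2 ^ m * (1 + B ^ m * |(discr E : ℝ)| / Real.sqrt |(discr K : ℝ)|)) := by gcongr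
    _ = _ := by ring

end Pool.Agent.Lib.MP_695920_nt.Qg
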