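import Mathlib
import Pool.Agent.Lib.MP_695920_nt.Qt.HtInt

set_option autoImplicit false

open NumberField Module IsDedekindDomain
open scoped nonZeroDivisors

namespace Pool.Agent.Lib.MP_695920_nt.Qg

open Pool.Agent.Lib.MP_695920_nt.Qt

/-! H3: HtLow.lean -/
/-- lower bound for the height of an integral point -/
theorem ht_int_lower {F M : Type} [Field F] [NumberField F] [Field M] [NumberField M]
    [Algebra F M] {k : 𝓞 F} {κ : M} (hk : (k : F) ≠ 0) (hκ : κ ^ 3 = algebraMap F M k)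
    {X Y : 𝓞 F} (hX : X ≠ 0) (h : (Y : F) ^ 2 = (X : F) ^ 3 + k) :
    (3 * Real.log (Algebra.norm ℤ X).natAbs -
      Real.log (Ideal.absNorm (Ideal.span {X ^ 3, k}))) / (3 * finrank ℚ F) ≤
        ht κ (pt hk h) := by
  have hk0 : k ≠ 0 := fun h0 => hk (by rw [h0]; rfl)
  set a' : 𝓞 M := algebraMap (𝓞 F) (𝓞 M) (X ^ 3) with ha'
  set b' : 𝓞 M := algebraMap (𝓞 F) (𝓞 M) k with hb'
  have hca : (a' : M) = algebraMap F M ((X : F) ^ 3) := by
    rw [ha', map_pow, map_pow]
    rfl
  have hcb : (b' : M) = algebraMap F M (k : F) := rfl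
  have e1 : 3 * Height.logHeight ![algebraMap F M (X : F), κ * algebraMap F M 1] =
      Height.logHeight ![(a' : M), (b' : M)] := by
    have h3 : (![algebraMap F M (X : F), κ * algebraMap F M 1]) ^ 3 = ![(a' : M), (b' : M)] := by
      ext i
      fin_cases i
      · show (algebraMap F M (X : F)) ^ 3 = (a' : M)
        rw [hca, map_pow]
      · show (κ * algebraMap F M 1) ^ 3 = (b' : M)
        rw [map_one, mul_one, hκ, hcb]
    have h4 := Height.logHeight_pow ![algebraMap F M (X : F), κ * algebraMap F M 1] 3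
    rw [h3] at h4
    rw [h4]
    norm_num
  have ha0 : a' ≠ 0 := by
    rw [ha', Ne, map_eq_zero_iff _ (FaithfulSMul.algebraMap_injective (𝓞 F) (𝓞 M))]
    exact pow_ne_zero 3 hX
  have e2 := t7_mulHeight a' b' (Or.inl ha0)
  -- the ideal
  have hspan : Ideal.span (Set.range ![a', b']) =
      (Ideal.span {X ^ 3, k}).map (algebraMap (𝓞 F) (𝓞 M)) := by
    rw [Ideal.map_span]
    congr 1
    ext z
    simp only [Set.mem_range, Set.mem_image, Set.mem_insert_iff, Set.mem_singleton_iff]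
    constructor
    · rintro ⟨i, rfl⟩
      fin_cases i
      · exact ⟨X ^ 3, Or.inl rfl, rfl⟩
      · exact ⟨k, Or.inr rfl, rfl⟩
    · rintro ⟨y, rfl | rfl, rfl⟩
      · exact ⟨0, rfl⟩
      · exact ⟨1, rfl⟩
  set nF : ℕ := Ideal.absNorm (Ideal.span {X ^ 3, k}) with hnF
  have hfr : finrank (𝓞 F) (𝓞 M) = finrank F M :=
    (IsFractionRing.finrank_eq (𝓞 F) F (𝓞 M) M).symm
  set f : ℕ := finrank F M with hf
  have hf0 : 0 < f := finrank_pos
  rw [hspan, Ideal.absNorm_algebraMap, hfr, Nat.cast_pow] at e2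
  have hI0 : Ideal.span {X ^ 3, k} ≠ (⊥ : Ideal (𝓞 F)) := by
    intro h0
    rw [Ideal.span_eq_bot] at h0
    exact hk0 (h0 k (Or.inr rfl))
  have hnF1 : 1 ≤ nF := Nat.pos_of_ne_zero (fun h0 => hI0 (Ideal.absNorm_eq_zero_iff.1 h0))
  have hnF1' : (0 : ℝ) < nF := by exact_mod_cast hnF1
  -- the archimedean part
  set NX : ℕ := (Algebra.norm ℤ X).natAbs with hNX
  have hNX1 : 1 ≤ NX := Nat.pos_of_ne_zero (fun h0 =>
    (Algebra.norm_ne_zero_iff.2 hX) (Int.natAbs_eq_zero.1 h0))
  have hNX1' : (0 : ℝ) < NX := by exact_mod_cast hNX1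
  have e3 : (((NX : ℝ) ^ 3) ^ f) ≤
      ∏ w : InfinitePlace M, (max (w (a' : M)) (w (b' : M))) ^ w.mult := by
    have h1 : ∏ w : InfinitePlace M, (w (a' : M)) ^ w.mult = ((NX : ℝ) ^ 3) ^ f := by
      rw [InfinitePlace.prod_eq_abs_norm, hca, ← Algebra.norm_norm (R := ℚ) (S := F) (A := M),
        Algebra.norm_algebraMap, map_pow, map_pow]
      have h4 : (Algebra.norm ℚ (X : F) : ℚ) = ((Algebra.norm ℤ X : ℤ) : ℚ) :=
        (Algebra.coe_norm_int X).symm
      rw [h4, abs_pow, abs_pow, ← hf]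
      have h5 : |((Algebra.norm ℤ X : ℤ) : ℚ)| = (NX : ℚ) := by
        rw [hNX, Nat.cast_natAbs, Int.cast_abs]
      rw [h5]
      push_cast
      rfl
    rw [← h1]
    refine Finset.prod_le_prod (fun w _ => pow_nonneg (apply_nonneg w _) _) (fun w _ => ?_)
    exact pow_le_pow_left₀ (apply_nonneg w _) (le_max_left _ _) _
  rw [← e2] at e3
  have hHpos := Height.mulHeight_pos ![(a' : M), (b' : M)]
  have e4 : f * (3 * Real.log NX) ≤ f * Real.log nF + Height.logHeight ![(a' : M), (b' : M)] := by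
    rw [Height.logHeight_eq_log_mulHeight, ← Real.log_pow, ← Real.log_mul (by positivity)
      hHpos.ne']
    have h1 : (f : ℝ) * (3 * Real.log NX) = Real.log (((NX : ℝ) ^ 3) ^ f) := by
      rw [Real.log_pow, Real.log_pow]
      push_cast
      ring
    rw [h1]
    exact Real.log_le_log (by positivity) e3
  have e5 : ht κ (pt hk h) =
      Height.logHeight ![algebraMap F M (X : F), κ * algebraMap F M 1] / finrank ℚ M := by
    rfl
  have hdeg : (finrank ℚ M : ℝ) = (finrank ℚ F : ℝ) * f := by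
    rw [hf, ← Nat.cast_mul, Module.finrank_mul_finrank]
  have hF0 : (0 : ℝ) < finrank ℚ F := by exact_mod_cast (finrank_pos : 0 < finrank ℚ F)
  have hf0' : (0 : ℝ) < f := by exact_mod_cast hf0
  rw [e5, hdeg, div_le_div_iff₀ (by positivity) (by positivity)]
  have e6 : Height.logHeight ![algebraMap F M (X : F), κ * algebraMap F M 1] * 3 =
      Height.logHeight ![(a' : M), (b' : M)] := by rw [← e1]; ring
  calc (3 * Real.log NX - Real.log nF) * ((finrank ℚ F : ℝ) * f)
      = (f * (3 * Real.log NX) - f * Real.log nF) * finrank ℚ F := by ring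
    _ ≤ Height.logHeight ![(a' : M), (b' : M)] * finrank ℚ F :=
        mul_le_mul_of_nonneg_right (by linarith) hF0.le
    _ = Height.logHeight ![algebraMap F M (X : F), κ * algebraMap F M 1] *
        (3 * (finrank ℚ F : ℝ)) := by rw [← e6]; ring

end Pool.Agent.Lib.MP_695920_nt.Qg
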