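import Mathlib

set_option autoImplicit false

open NumberField Module IsDedekindDomain
open scoped nonZeroDivisors

namespace Pool.Agent.Lib.MP_695920_nt.Qg

/-- an unramified prime number generates a squarefree ideal -/
theorem h5_sq (F : Type) [Field F] [NumberField F] (p : ℕ) (hp : p.Prime)
    (hpd : ¬ p ∣ (discr F).natAbs) : Squarefree (Ideal.span {(p : 𝓞 F)}) := by
  have hp0 : (Ideal.span {(p : 𝓞 F)}) ≠ 0 := by
    simpa using hp.ne_zero
  rw [UniqueFactorizationMonoid.squarefree_iff_nodup_normalizedFactors hp0]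
  rw [Multiset.nodup_iff_count_le_one]
  intro P
  by_contra hcon
  push Not at hcon
  have hPm : P ∈ UniqueFactorizationMonoid.normalizedFactors (Ideal.span {(p : 𝓞 F)}) := by
    rw [← Multiset.count_pos]; omega
  have hPp : Prime P := UniqueFactorizationMonoid.prime_of_normalized_factor P hPm
  have h2 : P ^ 2 ∣ Ideal.span {(p : 𝓞 F)} := by
    rw [UniqueFactorizationMonoid.dvd_iff_normalizedFactors_le_normalizedFactors
      (pow_ne_zero 2 hPp.ne_zero) hp0, UniqueFactorizationMonoid.normalizedFactors_pow,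
      UniqueFactorizationMonoid.normalizedFactors_irreducible hPp.irreducible, normalize_eq,
      Multiset.nsmul_singleton, ← Multiset.le_count_iff_replicate_le]
    omega
  have hmap : Ideal.map (algebraMap ℤ (𝓞 F)) (Ideal.span {(p : ℤ)}) = Ideal.span {(p : 𝓞 F)} := by
    rw [Ideal.map_span, Set.image_singleton]
    simp
  have hpZ : Prime (p : ℤ) := Nat.prime_iff_prime_int.mp hp
  have : (Ideal.span {(p : ℤ)}).IsMaximal :=
    ((Ideal.span_singleton_prime hpZ.ne_zero).2 hpZ).isMaximal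
      (by simpa using hpZ.ne_zero)
  have h3 : P ^ (2 - 1) ∣ differentIdeal ℤ (𝓞 F) := by
    apply pow_sub_one_dvd_differentIdeal ℤ (p := Ideal.span {(p : ℤ)}) P 2
    · simpa using hpZ.ne_zero
    · rw [hmap]; exact h2
  rw [show 2 - 1 = 1 from rfl, pow_one] at h3
  have h4 : Ideal.absNorm P ∣ (discr F).natAbs := by
    have := Ideal.absNorm_dvd_absNorm_of_le (Ideal.dvd_iff_le.mp h3)
    rwa [absNorm_differentIdeal F] at this
  apply hpd
  refine dvd_trans ?_ h4
  have h5 : Ideal.absNorm P ∣ p ^ finrank ℚ F := by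
    have := Ideal.absNorm_dvd_absNorm_of_le
      (Ideal.dvd_iff_le.mp (dvd_trans (dvd_pow_self P two_ne_zero) h2))
    rwa [Ideal.absNorm_span_natCast, RingOfIntegers.rank] at this
  obtain ⟨k, hk, hk2⟩ := (Nat.dvd_prime_pow hp).1 h5
  rw [hk2]
  apply dvd_pow_self
  rintro rfl
  rw [pow_zero, Ideal.absNorm_eq_one_iff] at hk2
  exact hPp.not_isUnit (by rw [hk2, ← Ideal.one_eq_top]; exact isUnit_one)

/-- a number in all primes above an unramified prime number is divisible by it -/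
theorem h5_dvd (F : Type) [Field F] [NumberField F] (p : ℕ) (hp : p.Prime)
    (hpd : ¬ p ∣ (discr F).natAbs) : ∃ T : Finset (Ideal (𝓞 F)), T.card ≤ finrank ℚ F ∧
      (∀ q ∈ T, q.IsPrime ∧ (p : 𝓞 F) ∈ q) ∧
      ∀ x : 𝓞 F, (∀ q ∈ T, x ∈ q) → (p : 𝓞 F) ∣ x := by
  classical
  have hp0 : (Ideal.span {(p : 𝓞 F)}) ≠ 0 := by
    simpa using hp.ne_zero
  have hsq := h5_sq F p hp hpd
  have hnd := hsq
  rw [UniqueFactorizationMonoid.squarefree_iff_nodup_normalizedFactors hp0] at hnd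
  have hpr : ∀ q ∈ (UniqueFactorizationMonoid.normalizedFactors
      (Ideal.span {(p : 𝓞 F)})).toFinset, Prime q := by
    intro q hq
    exact UniqueFactorizationMonoid.prime_of_normalized_factor q (Multiset.mem_toFinset.1 hq)
  have hdv : ∀ q ∈ (UniqueFactorizationMonoid.normalizedFactors
      (Ideal.span {(p : 𝓞 F)})).toFinset, q ∣ Ideal.span {(p : 𝓞 F)} := by
    intro q hq
    exact UniqueFactorizationMonoid.dvd_of_mem_normalizedFactors (Multiset.mem_toFinset.1 hq)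
  have hprod : ∏ q ∈ (UniqueFactorizationMonoid.normalizedFactors
      (Ideal.span {(p : 𝓞 F)})).toFinset, q = Ideal.span {(p : 𝓞 F)} := by
    have h1 : ∏ q ∈ (UniqueFactorizationMonoid.normalizedFactors
      (Ideal.span {(p : 𝓞 F)})).toFinset, q = (UniqueFactorizationMonoid.normalizedFactors
      (Ideal.span {(p : 𝓞 F)})).prod := by
      rw [Finset.prod_multiset_count]
      refine Finset.prod_congr rfl fun q hq => ?_
      rw [Multiset.count_eq_one_of_mem hnd (Multiset.mem_toFinset.1 hq), pow_one]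
    rw [h1]
    exact (UniqueFactorizationMonoid.prod_normalizedFactors hp0).eq_of_normalized
      (normalize_eq _) (normalize_eq _)
  refine ⟨(UniqueFactorizationMonoid.normalizedFactors (Ideal.span {(p : 𝓞 F)})).toFinset,
    ?_, ?_, ?_⟩
  · have h1 : p ^ finrank ℚ F = ∏ q ∈ (UniqueFactorizationMonoid.normalizedFactors
      (Ideal.span {(p : 𝓞 F)})).toFinset, Ideal.absNorm q := by
      rw [← map_prod, hprod, Ideal.absNorm_span_natCast, RingOfIntegers.rank]
    have h2 : ∀ q ∈ (UniqueFactorizationMonoid.normalizedFactors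
      (Ideal.span {(p : 𝓞 F)})).toFinset, p ≤ Ideal.absNorm q := by
      intro q hq
      have h5 : Ideal.absNorm q ∣ p ^ finrank ℚ F := by
        have := Ideal.absNorm_dvd_absNorm_of_le (Ideal.dvd_iff_le.mp (hdv q hq))
        rwa [Ideal.absNorm_span_natCast, RingOfIntegers.rank] at this
      obtain ⟨k, hk, hk2⟩ := (Nat.dvd_prime_pow hp).1 h5
      rw [hk2]
      apply Nat.le_self_pow
      rintro rfl
      rw [pow_zero, Ideal.absNorm_eq_one_iff] at hk2
      exact (hpr q hq).not_isUnit (by rw [hk2, ← Ideal.one_eq_top]; exact isUnit_one)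
    have h3 := Finset.pow_card_le_prod _ _ p h2
    rw [← h1] at h3
    exact (Nat.pow_le_pow_iff_right hp.one_lt).1 h3
  · intro q hq
    exact ⟨Ideal.isPrime_of_prime (hpr q hq), (Ideal.dvd_iff_le.1 (hdv q hq))
      (Ideal.mem_span_singleton_self _)⟩
  · intro x hx
    rw [← Ideal.mem_span_singleton, ← hprod, ← Ideal.span_singleton_le_iff_mem,
      ← Ideal.dvd_iff_le]
    apply Finset.prod_dvd_of_isRelPrime
    · intro q hq q' hq' hne
      have h1 := (hpr q (by simpa using hq)).irreducible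
      have h2 := (hpr q' (by simpa using hq')).irreducible
      change IsRelPrime q q'
      rw [h1.isRelPrime_iff_not_dvd]
      intro h3
      exact hne ((associated_iff_eq.1 (h1.associated_of_dvd h2 h3)))
    · intro q hq
      rw [Ideal.dvd_iff_le, Ideal.span_singleton_le_iff_mem]
      exact hx q hq

/-- the points modulo an unramified prime number -/
theorem residues (F : Type) [Field F] [NumberField F] (m : ℕ) (hm : finrank ℚ F = m) (p : ℕ)
    (hp : p.Prime) (hpd : ¬ p ∣ (discr F).natAbs) (k : 𝓞 F) :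
    ∃ c : 𝓞 F × 𝓞 F → Fin (2 ^ m * p ^ m), ∀ P Q : 𝓞 F × 𝓞 F, P.2 ^ 2 = P.1 ^ 3 + k →
      Q.2 ^ 2 = Q.1 ^ 3 + k → c P = c Q → (p : 𝓞 F) ∣ P.1 - Q.1 ∧ (p : 𝓞 F) ∣ P.2 - Q.2 := by
  classical
  obtain ⟨T, hT1, hT2, hT3⟩ := h5_dvd F p hp hpd
  rw [hm] at hT1
  have hcard : Nat.card (𝓞 F ⧸ Ideal.span {(p : 𝓞 F)}) = p ^ m := by
    rw [← hm, ← RingOfIntegers.rank, ← Ideal.absNorm_span_natCast, Ideal.absNorm_apply,
      Submodule.cardQuot_apply]
  have hfin : Finite (𝓞 F ⧸ Ideal.span {(p : 𝓞 F)}) :=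
    Nat.finite_of_card_ne_zero (by rw [hcard]; exact pow_ne_zero _ hp.ne_zero)
  have : Fintype (𝓞 F ⧸ Ideal.span {(p : 𝓞 F)}) := Fintype.ofFinite _
  -- choice of a point over each class
  have hch : ∀ x : 𝓞 F ⧸ Ideal.span {(p : 𝓞 F)}, ∃ y : 𝓞 F, ∀ P : 𝓞 F × 𝓞 F,
      P.2 ^ 2 = P.1 ^ 3 + k → Ideal.Quotient.mk _ P.1 = x →
        (p : 𝓞 F) ∣ P.2 ^ 2 - y ^ 2 := by
    intro x
    by_cases h : ∃ P : 𝓞 F × 𝓞 F, P.2 ^ 2 = P.1 ^ 3 + k ∧ Ideal.Quotient.mk _ P.1 = x
    · obtain ⟨P0, h1, h2⟩ := h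
      refine ⟨P0.2, fun P h3 h4 => ?_⟩
      have h5 : (p : 𝓞 F) ∣ P.1 - P0.1 := by
        rw [← Ideal.mem_span_singleton, ← Ideal.Quotient.eq, h2, h4]
      rw [h1, h3]
      have : P.1 ^ 3 + k - (P0.1 ^ 3 + k) = (P.1 - P0.1) * (P.1 ^ 2 + P.1 * P0.1 + P0.1 ^ 2) := by
        ring
      rw [this]
      exact Dvd.dvd.mul_right h5 _
    · exact ⟨0, fun P h3 h4 => (h ⟨P, h3, h4⟩).elim⟩
  choose y hy using hch
  have hcard2 : Fintype.card ((T → Bool) × (𝓞 F ⧸ Ideal.span {(p : 𝓞 F)})) ≤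
      Fintype.card (Fin (2 ^ m * p ^ m)) := by
    rw [Fintype.card_prod, Fintype.card_fun, Fintype.card_bool, Fintype.card_coe,
      Fintype.card_fin, ← Nat.card_eq_fintype_card, hcard]
    exact Nat.mul_le_mul_right _ (Nat.pow_le_pow_right (by norm_num) hT1)
  obtain ⟨e⟩ := Function.Embedding.nonempty_of_card_le hcard2
  refine ⟨fun P => e (fun q => decide (P.2 - y (Ideal.Quotient.mk _ P.1) ∈ q.1),
    Ideal.Quotient.mk _ P.1), ?_⟩
  intro P Q hP hQ hc
  have hc' := e.injective hc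
  simp only [Prod.mk.injEq] at hc'
  obtain ⟨c1, c2⟩ := hc'
  have d1 : (p : 𝓞 F) ∣ P.1 - Q.1 := by
    rw [← Ideal.mem_span_singleton, ← Ideal.Quotient.eq, c2]
  refine ⟨d1, hT3 _ fun q hq => ?_⟩
  obtain ⟨hq1, hq2⟩ := hT2 q hq
  have e1 := congrFun c1 ⟨q, hq⟩
  simp only [decide_eq_decide] at e1
  rw [c2] at e1
  have f1 : P.2 ^ 2 - y (Ideal.Quotient.mk _ Q.1) ^ 2 ∈ q := by
    obtain ⟨w, hw⟩ := hy _ P hP c2
    rw [hw]; exact Ideal.mul_mem_right _ _ hq2
  have f2 : Q.2 ^ 2 - y (Ideal.Quotient.mk _ Q.1) ^ 2 ∈ q := by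
    obtain ⟨w, hw⟩ := hy _ Q hQ rfl
    rw [hw]; exact Ideal.mul_mem_right _ _ hq2
  by_cases h : P.2 - y (Ideal.Quotient.mk _ Q.1) ∈ q
  · have h' := e1.1 h
    have : P.2 - Q.2 = (P.2 - y (Ideal.Quotient.mk _ Q.1)) - (Q.2 - y (Ideal.Quotient.mk _ Q.1)) := by
      ring
    rw [this]; exact q.sub_mem h h'
  · have h' : ¬ Q.2 - y (Ideal.Quotient.mk _ Q.1) ∈ q := fun h1 => h (e1.2 h1)
    have g1 : P.2 + y (Ideal.Quotient.mk _ Q.1) ∈ q := by
      have : P.2 ^ 2 - y (Ideal.Quotient.mk _ Q.1) ^ 2 =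
        (P.2 - y (Ideal.Quotient.mk _ Q.1)) * (P.2 + y (Ideal.Quotient.mk _ Q.1)) := by ring
      rw [this] at f1
      exact (hq1.mem_or_mem f1).resolve_left h
    have g2 : Q.2 + y (Ideal.Quotient.mk _ Q.1) ∈ q := by
      have : Q.2 ^ 2 - y (Ideal.Quotient.mk _ Q.1) ^ 2 =
        (Q.2 - y (Ideal.Quotient.mk _ Q.1)) * (Q.2 + y (Ideal.Quotient.mk _ Q.1)) := by ring
      rw [this] at f2
      exact (hq1.mem_or_mem f2).resolve_left h'
    have : P.2 - Q.2 = (P.2 + y (Ideal.Quotient.mk _ Q.1)) - (Q.2 + y (Ideal.Quotient.mk _ Q.1)) := by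
      ring
    rw [this]; exact q.sub_mem g1 g2

end Pool.Agent.Lib.MP_695920_nt.Qg
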