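import Mathlib
import Pool.Agent.Lib.MP_695920_nt.Qt.Defs
import Pool.Agent.Lib.MP_695920_nt.Qt.HtInt
import Pool.Agent.Lib.MP_695920_nt.Qt.SumCong

set_option autoImplicit false

open NumberField Module IsDedekindDomain
open scoped nonZeroDivisors NumberField.LiesOver

namespace Pool.Agent.Lib.MP_695920_nt.Qg

open Pool.Agent.Lib.MP_695920_nt.Qt

/-- the multiplicities of the places of `M` above `v` -/
theorem h4_sum_mult {F M : Type} [Field F] [NumberField F] [Field M] [NumberField M]
    [Algebra F M] [DecidableEq (InfinitePlace F)] (v : InfinitePlace F) :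
    ∑ w : InfinitePlace M with w.comap (algebraMap F M) = v, w.mult =
      finrank F M * v.mult := by
  classical
  have h := InfinitePlace.sum_inertiaDeg_eq_finrank F M v
  rw [← h, Finset.sum_mul]
  have hset : (Finset.univ.filter fun w : InfinitePlace M => w.comap (algebraMap F M) = v)
      = (v.placesOver M).toFinset := by
    ext w
    simp only [Finset.mem_filter, Finset.mem_univ, true_and, Set.mem_toFinset]
    constructor
    · intro hw
      exact ⟨by rw [← hw]; rfl⟩
    · intro hw
      have : w.1.LiesOver v.1 := hw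
      exact InfinitePlace.LiesOver.comap_eq w v
  rw [hset]
  refine Finset.sum_congr rfl fun w hw => ?_
  have hw1 : w ∈ v.placesOver M := Set.mem_toFinset.1 hw
  have hw' : w.1.LiesOver v.1 := hw1
  rw [InfinitePlace.inertiaDeg_eq_finrank v w, mul_comm, InfinitePlace.mult_mul_finrank v w]

/-- a sum over the places of `M` of a function of the place below -/
theorem h4_sum_comap {F M : Type} [Field F] [NumberField F] [Field M] [NumberField M]
    [Algebra F M] (f : InfinitePlace F → ℝ) :
    ∑ w : InfinitePlace M, (w.mult : ℝ) * f (w.comap (algebraMap F M)) =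
      finrank F M * ∑ v : InfinitePlace F, v.mult * f v := by
  classical
  rw [← Finset.sum_fiberwise Finset.univ (fun w : InfinitePlace M => w.comap (algebraMap F M)),
    Finset.mul_sum]
  refine Finset.sum_congr rfl fun v _ => ?_
  have h1 : ∑ w : InfinitePlace M with w.comap (algebraMap F M) = v,
      (w.mult : ℝ) * f (w.comap (algebraMap F M)) =
      ∑ w : InfinitePlace M with w.comap (algebraMap F M) = v, (w.mult : ℝ) * f v := by
    refine Finset.sum_congr rfl fun w hw => ?_
    rw [(Finset.mem_filter.1 hw).2]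
  rw [h1, ← Finset.sum_mul, ← Nat.cast_sum, h4_sum_mult v]
  push_cast
  ring

/-- heights of integral vectors, a bound at every place -/
theorem h4_logHeight_le {M : Type} [Field M] [NumberField M] (A B : 𝓞 M) (hB0 : B ≠ 0)
    (R : InfinitePlace M → ℝ) (hR : ∀ w, 0 < R w)
    (hA : ∀ w : InfinitePlace M, w (A : M) ≤ R w) (hB : ∀ w : InfinitePlace M, w (B : M) ≤ R w) :
    Height.logHeight ![(A : M), (B : M)] ≤ ∑ w : InfinitePlace M, w.mult * Real.log (R w) := by
  have hne : A ≠ 0 ∨ B ≠ 0 := Or.inr hB0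
  have h1 := t7_mulHeight A B hne
  have hspan : Ideal.span (Set.range ![A, B]) ≠ ⊥ := by
    rw [Ne, Ideal.span_eq_bot]
    intro h
    exact hB0 (h B ⟨1, rfl⟩)
  have hN : (1 : ℝ) ≤ ((Ideal.span (Set.range ![A, B])).absNorm : ℝ) := by
    have : 0 < (Ideal.span (Set.range ![A, B])).absNorm :=
      Nat.pos_of_ne_zero (fun h => hspan (Ideal.absNorm_eq_zero_iff.1 h))
    exact_mod_cast this
  have hpos := Height.mulHeight_pos ![(A : M), (B : M)]
  have h2 : Height.mulHeight ![(A : M), (B : M)] ≤ ∏ w : InfinitePlace M, R w ^ w.mult := by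
    calc Height.mulHeight ![(A : M), (B : M)] ≤
          ((Ideal.span (Set.range ![A, B])).absNorm : ℝ) *
            Height.mulHeight ![(A : M), (B : M)] := by nlinarith
      _ = ∏ w : InfinitePlace M, (max (w (A : M)) (w (B : M))) ^ w.mult := h1
      _ ≤ ∏ w : InfinitePlace M, R w ^ w.mult := by
          apply Finset.prod_le_prod
          · intro w _
            exact pow_nonneg (le_max_of_le_left (apply_nonneg w _)) _
          · intro w _
            exact pow_le_pow_left₀ (le_max_of_le_left (apply_nonneg w _))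
              (max_le (hA w) (hB w)) _
  rw [Height.logHeight_eq_log_mulHeight]
  refine (Real.log_le_log hpos h2).trans (le_of_eq ?_)
  rw [Real.log_prod (fun w _ => (pow_pos (hR w) _).ne')]
  exact Finset.sum_congr rfl fun w _ => Real.log_pow _ _

/-- upper bound for the height of a sum of two congruent integral points -/
theorem ht_add_congr_gen {F M : Type} [Field F] [NumberField F] [DecidableEq F] [Field M]
    [NumberField M] [Algebra F M] {k : 𝓞 F} {κ : M} (hk : (k : F) ≠ 0)
    (hκ : κ ^ 3 = algebraMap F M k) {X₁ Y₁ X₂ Y₂ : 𝓞 F} (h₁ : (Y₁ : F) ^ 2 = (X₁ : F) ^ 3 + k)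
    (h₂ : (Y₂ : F) ^ 2 = (X₂ : F) ^ 3 + k) (hne : (X₁, Y₁) ≠ (X₂, Y₂))
    (R : InfinitePlace F → ℝ) (hR : ∀ v, 0 < R v)
    (hX₁ : ∀ v : InfinitePlace F, v (X₁ : F) ^ 3 ≤ R v)
    (hX₂ : ∀ v : InfinitePlace F, v (X₂ : F) ^ 3 ≤ R v)
    (hkR : ∀ v : InfinitePlace F, v (k : F) ≤ R v) (p : ℕ) (hp : 1 ≤ p)
    (hpX : (p : 𝓞 F) ∣ X₁ - X₂) (hpY : (p : 𝓞 F) ∣ Y₁ - Y₂) :
    ht κ (pt hk h₁ + pt hk h₂) ≤
      max 0 ((∑ v : InfinitePlace F, v.mult * Real.log (8 * R v / p ^ 2)) / finrank ℚ F) := by
  have hn : 0 < (finrank ℚ M : ℝ) := by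
    have : 0 < finrank ℚ M := finrank_pos
    exact_mod_cast this
  have hnF : 0 < (finrank ℚ F : ℝ) := by
    have : 0 < finrank ℚ F := finrank_pos
    exact_mod_cast this
  have hp0 : (0 : ℝ) < p := by exact_mod_cast hp
  by_cases hX : X₁ = X₂
  · have hY : (Y₁ : F) ^ 2 = (Y₂ : F) ^ 2 := by rw [h₁, h₂, hX]
    have hY' : (Y₁ : F) = -(Y₂ : F) := by
      rcases sq_eq_sq_iff_eq_or_eq_neg.1 hY with h | h
      · exfalso
        apply hne
        rw [hX, show Y₁ = Y₂ by exact_mod_cast h]
      · exact h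
    have h0 : pt hk h₁ + pt hk h₂ = 0 := by
      unfold pt
      refine WeierstrassCurve.Affine.Point.add_of_Y_eq (by rw [hX]) ?_
      rw [hY']
      simp [WeierstrassCurve.Affine.negY, Ek]
    rw [h0]
    refine le_trans ?_ (le_max_left _ _)
    unfold ht
    rw [WeierstrassCurve.Affine.Point.xRep_zero]
    have h3 : ![algebraMap F M (![(1 : F), 0] 0), κ * algebraMap F M (![(1 : F), 0] 1)] =
        ![(1 : M), 0] := by
      simp
    rw [h3]
    exact div_nonpos_of_nonpos_of_nonneg t8_logHeight_one_zero hn.le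
  · obtain ⟨x', hx'⟩ := hpX
    obtain ⟨y', hy'⟩ := hpY
    have hXF : (X₁ : F) ≠ (X₂ : F) := fun h => hX (by exact_mod_cast h)
    have hpF : (p : F) ≠ 0 := by
      have : p ≠ 0 := by omega
      exact_mod_cast this
    have hx'F : (X₁ : F) - (X₂ : F) = p * (x' : F) := by
      have := congrArg (fun z : 𝓞 F => (z : F)) hx'
      simpa using this
    have hy'F : (Y₁ : F) - (Y₂ : F) = p * (y' : F) := by
      have := congrArg (fun z : 𝓞 F => (z : F)) hy'
      simpa using this
    have hx'0 : (x' : F) ≠ 0 := by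
      intro h
      rw [h, mul_zero] at hx'F
      exact hXF (sub_eq_zero.1 hx'F)
    -- the integers
    set A : 𝓞 F := y' ^ 2 - (X₁ + X₂) * x' ^ 2 with hA
    have hκint : IsIntegral ℤ κ := by
      refine IsIntegral.of_pow (n := 3) (by norm_num) ?_
      rw [hκ]
      exact (RingOfIntegers.isIntegral_coe k).map ((algebraMap F M).toIntAlgHom)
    set κ' : 𝓞 M := ⟨κ, hκint⟩ with hκ'
    set A' : 𝓞 M := algebraMap (𝓞 F) (𝓞 M) A with hA'
    set B' : 𝓞 M := κ' * algebraMap (𝓞 F) (𝓞 M) (x' ^ 2) with hB'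
    have hcA : (A' : M) = algebraMap F M (A : F) := rfl
    have hcB : (B' : M) = κ * algebraMap F M ((x' : F) ^ 2) := by
      have : (B' : M) = (κ' : M) * ((algebraMap (𝓞 F) (𝓞 M) (x' ^ 2) : 𝓞 M) : M) := by
        rw [hB']
        push_cast
        rfl
      rw [this]
      have h3 : ((algebraMap (𝓞 F) (𝓞 M) (x' ^ 2) : 𝓞 M) : M) =
        algebraMap F M (((x' ^ 2 : 𝓞 F)) : F) := rfl
      rw [h3]
      push_cast
      rfl
    have hκ0 : κ ≠ 0 := by
      intro h
      rw [h, zero_pow (by norm_num)] at hκ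
      exact hk ((map_eq_zero_iff _ (algebraMap F M).injective).1 hκ.symm)
    have hB'0 : B' ≠ 0 := by
      intro h
      have h5 : (B' : M) = 0 := by rw [h]; simp
      rw [hcB] at h5
      rcases mul_eq_zero.1 h5 with h6 | h6
      · exact hκ0 h6
      · exact pow_ne_zero 2 hx'0 ((map_eq_zero_iff _ (algebraMap F M).injective).1 h6)
    have e3 : ∀ (w : InfinitePlace M) (z : F),
        w (algebraMap F M z) = w.comap (algebraMap F M) z := by
      intro w z
      rfl
    -- the x-coordinate
    have hadd := WeierstrassCurve.Affine.Point.add_of_X_ne (W := Ek (k : F))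
      (h₁ := Ek_nonsingular hk h₁) (h₂ := Ek_nonsingular hk h₂) hXF
    have hval : ht κ (pt hk h₁ + pt hk h₂) = Height.logHeight ![(A' : M), (B' : M)] /
        finrank ℚ M := by
      unfold pt
      rw [hadd]
      unfold ht
      rw [WeierstrassCurve.Affine.Point.xRep_some]
      congr 1
      rw [WeierstrassCurve.Affine.slope_of_X_ne hXF]
      have hx3 : (Ek (k : F)).addX (X₁ : F) (X₂ : F) (((Y₁ : F) - Y₂) / ((X₁ : F) - X₂)) *
          (x' : F) ^ 2 = (A : F) := by
        have hAF : (A : F) = (y' : F) ^ 2 - ((X₁ : F) + X₂) * (x' : F) ^ 2 := by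
          rw [hA]; push_cast; ring
        rw [hAF, hx'F, hy'F]
        simp only [WeierstrassCurve.Affine.addX, Ek]
        field_simp
        ring
      have h3 : ![(A' : M), (B' : M)] = (algebraMap F M ((x' : F) ^ 2)) •
          ![algebraMap F M (![(Ek (k : F)).addX (X₁ : F) (X₂ : F)
            (((Y₁ : F) - Y₂) / ((X₁ : F) - X₂)), 1] 0), κ * algebraMap F M
            (![(Ek (k : F)).addX (X₁ : F) (X₂ : F)
            (((Y₁ : F) - Y₂) / ((X₁ : F) - X₂)), 1] 1)] := by
        ext i
        fin_cases i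
        · show (A' : M) = algebraMap F M ((x' : F) ^ 2) * algebraMap F M
            ((Ek (k : F)).addX (X₁ : F) (X₂ : F) (((Y₁ : F) - Y₂) / ((X₁ : F) - X₂)))
          rw [hcA, ← hx3, map_mul, mul_comm]
        · show (B' : M) = algebraMap F M ((x' : F) ^ 2) * (κ * algebraMap F M 1)
          rw [hcB, map_one, mul_one, mul_comm]
      rw [h3, Height.logHeight_smul_eq_logHeight]
      exact (map_ne_zero_iff _ (algebraMap F M).injective).2 (pow_ne_zero 2 hx'0)
    -- the bounds
    have main : ∀ v : InfinitePlace F, v (A : F) ≤ 8 * R v / p ^ 2 ∧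
        ∀ t : ℝ, 0 ≤ t → t ^ 3 = v (k : F) → t * v ((x' : F) ^ 2) ≤ 8 * R v / p ^ 2 := by
      intro v
      -- a cube root of the radius
      obtain ⟨S, hS0, hS3⟩ : ∃ S : ℝ, 0 < S ∧ S ^ 3 = R v := by
        refine ⟨R v ^ (1 / 3 : ℝ), Real.rpow_pos_of_pos (hR v) _, ?_⟩
        rw [← Real.rpow_natCast, ← Real.rpow_mul (hR v).le]
        norm_num
      have cub : ∀ t : ℝ, t ^ 3 ≤ R v → t ≤ S := by
        intro t ht
        rw [← hS3] at ht
        exact le_of_pow_le_pow_left₀ (by norm_num) hS0.le ht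
      have hX₁' := cub _ (hX₁ v)
      have hX₂' := cub _ (hX₂ v)
      have hkv := hkR v
      rw [← hS3] at hkv ⊢
      have hvY : ∀ X Y : 𝓞 F, (Y : F) ^ 2 = (X : F) ^ 3 + k → v (X : F) ≤ S →
          v (Y : F) ^ 2 ≤ 2 * S ^ 3 := by
        intro X Y h hXR
        rw [← map_pow, h]
        calc v ((X : F) ^ 3 + k) ≤ v ((X : F) ^ 3) + v (k : F) := v.1.add_le _ _
          _ ≤ S ^ 3 + S ^ 3 := by
              rw [map_pow]
              have := pow_le_pow_left₀ (apply_nonneg v (X : F)) hXR 3
              linarith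
          _ = 2 * S ^ 3 := by ring
      have hvY1 := hvY X₁ Y₁ h₁ hX₁'
      have hvY2 := hvY X₂ Y₂ h₂ hX₂'
      have hYY : v (Y₁ : F) * v (Y₂ : F) ≤ 2 * S ^ 3 := by
        nlinarith [sq_nonneg (v (Y₁ : F) - v (Y₂ : F))]
      have hvx : v ((x' : F) ^ 2) * p ^ 2 ≤ 4 * S ^ 2 := by
        have h4 : v ((x' : F) ^ 2) * (p : ℝ) ^ 2 = v ((X₁ : F) - X₂) ^ 2 := by
          rw [hx'F, map_mul, InfinitePlace.map_natCast, map_pow]
          ring
        rw [h4]
        have h5 : v ((X₁ : F) - X₂) ≤ 2 * S := by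
          have := v.1.add_le (X₁ : F) (-(X₂ : F))
          have hneg : v (-(X₂ : F)) = v (X₂ : F) := v.1.map_neg _
          rw [← sub_eq_add_neg] at this
          calc v ((X₁ : F) - X₂) ≤ v (X₁ : F) + v (-(X₂ : F)) := this
            _ ≤ 2 * S := by rw [hneg]; linarith
        calc v ((X₁ : F) - X₂) ^ 2 ≤ (2 * S) ^ 2 := pow_le_pow_left₀ (apply_nonneg v _) h5 2
          _ = 4 * S ^ 2 := by ring
      constructor
      · rw [le_div_iff₀ (by positivity)]
        have h3 : (A : F) * (p : F) ^ 2 = (X₁ : F) * X₂ * (X₁ + X₂) + 2 * k - 2 * (Y₁ * Y₂) := by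
          have hAF : (A : F) * (p : F) ^ 2 = (p * (y' : F)) ^ 2 - ((X₁ : F) + X₂) *
              (p * (x' : F)) ^ 2 := by
            rw [hA]; push_cast; ring
          rw [hAF, ← hx'F, ← hy'F]
          linear_combination h₁ + h₂
        have h4 : v (A : F) * (p : ℝ) ^ 2 = v ((A : F) * (p : F) ^ 2) := by
          rw [map_mul, map_pow, InfinitePlace.map_natCast]
        rw [h4, h3]
        have b1 : v ((X₁ : F) * X₂ * (X₁ + X₂)) ≤ 2 * S ^ 3 := by
          rw [map_mul, map_mul]
          have h5 : v ((X₁ : F) + X₂) ≤ 2 * S := by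
            have := v.1.add_le (X₁ : F) (X₂ : F)
            calc v ((X₁ : F) + X₂) ≤ v (X₁ : F) + v (X₂ : F) := this
              _ ≤ 2 * S := by linarith
          calc v (X₁ : F) * v (X₂ : F) * v ((X₁ : F) + X₂) ≤ S * S * (2 * S) := by
                gcongr
            _ = 2 * S ^ 3 := by ring
        have two : v (2 : F) = 2 := by
          have := InfinitePlace.map_natCast v 2
          simpa using this
        have b2 : v (2 * (k : F)) ≤ 2 * S ^ 3 := by
          rw [map_mul, two]
          linarith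
        have b3 : v (2 * ((Y₁ : F) * Y₂)) ≤ 4 * S ^ 3 := by
          rw [map_mul, map_mul, two]
          linarith
        have t1 : v ((X₁ : F) * X₂ * (X₁ + X₂) + 2 * k - 2 * (Y₁ * Y₂)) ≤
            v ((X₁ : F) * X₂ * (X₁ + X₂) + 2 * k) + v (2 * ((Y₁ : F) * Y₂)) := by
          have := v.1.add_le ((X₁ : F) * X₂ * (X₁ + X₂) + 2 * k) (-(2 * ((Y₁ : F) * Y₂)))
          have hneg : v (-(2 * ((Y₁ : F) * Y₂))) = v (2 * ((Y₁ : F) * Y₂)) := by
            exact v.1.map_neg _
          rw [← sub_eq_add_neg] at this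
          rw [← hneg]
          exact this
        have t2 : v ((X₁ : F) * X₂ * (X₁ + X₂) + 2 * k) ≤
            v ((X₁ : F) * X₂ * (X₁ + X₂)) + v (2 * (k : F)) := v.1.add_le _ _
        linarith
      · intro t ht0 ht3
        rw [le_div_iff₀ (by positivity)]
        have h4 : t ≤ S := by
          apply cub
          rw [ht3]
          exact hkR v
        calc t * v ((x' : F) ^ 2) * (p : ℝ) ^ 2 = t * (v ((x' : F) ^ 2) * (p : ℝ) ^ 2) := by
              ring
          _ ≤ S * (4 * S ^ 2) := by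
              apply mul_le_mul h4 hvx _ hS0.le
              exact mul_nonneg (apply_nonneg v _) (by positivity)
          _ ≤ 8 * S ^ 3 := by nlinarith [pow_pos hS0 3]
    have hwA : ∀ w : InfinitePlace M,
        w (A' : M) ≤ 8 * R (w.comap (algebraMap F M)) / p ^ 2 := by
      intro w
      rw [hcA, e3]
      exact (main _).1
    have hwB : ∀ w : InfinitePlace M,
        w (B' : M) ≤ 8 * R (w.comap (algebraMap F M)) / p ^ 2 := by
      intro w
      rw [hcB, map_mul, e3]
      refine (main _).2 (w κ) (apply_nonneg w _) ?_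
      rw [← map_pow, hκ, e3]
    have hfin := h4_logHeight_le A' B' hB'0
      (fun w => 8 * R (w.comap (algebraMap F M)) / p ^ 2)
      (fun w => div_pos (mul_pos (by norm_num) (hR _)) (by positivity)) hwA hwB
    rw [h4_sum_comap (fun v => Real.log (8 * R v / p ^ 2))] at hfin
    refine le_trans ?_ (le_max_right _ _)
    rw [hval, div_le_div_iff₀ hn hnF]
    have hmul : (finrank ℚ F : ℝ) * (finrank F M : ℝ) = (finrank ℚ M : ℝ) := by
      have := finrank_mul_finrank ℚ F M
      exact_mod_cast this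
    calc Height.logHeight ![(A' : M), (B' : M)] * (finrank ℚ F : ℝ) ≤
          (finrank F M * ∑ v : InfinitePlace F, v.mult * Real.log (8 * R v / p ^ 2)) *
            (finrank ℚ F : ℝ) := mul_le_mul_of_nonneg_right hfin hnF.le
      _ = (∑ v : InfinitePlace F, v.mult * Real.log (8 * R v / p ^ 2)) * (finrank ℚ M : ℝ) := by
          rw [← hmul]
          ring

end Pool.Agent.Lib.MP_695920_nt.Qg
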