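import Mathlib
import Pool.Agent.Lib.MP_695920_nt.Qt.Points
import Pool.Agent.Lib.MP_695920_nt.Qg.Pack
import Pool.Agent.Lib.MP_695920_nt.Qg.HtLow
import Pool.Agent.Lib.MP_695920_nt.Qg.SumGen
import Pool.Agent.Lib.MP_695920_nt.Qg.Resid

/-!
The bound for the number of points on one curve over a general base field.
-/

set_option autoImplicit false

open NumberField Module IsDedekindDomain
open scoped nonZeroDivisors

namespace Pool.Agent.Lib.MP_695920_nt.Qg

open Pool.Agent.Lib.MP_695920_nt.Qt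

/-- the trivial bound -/
lemma h7_card_triv {F : Type} [Field F] [NumberField F] (k : 𝓞 F) (A : Set (𝓞 F))
    (hfin : A.Finite) (N : ℝ) (hN : (A.ncard : ℝ) ≤ N)
    (S : Finset (𝓞 F × 𝓞 F)) (hS : ∀ P ∈ S, P.2 ^ 2 = P.1 ^ 3 + k ∧ P.1 ∈ A) :
    (S.card : ℝ) ≤ 2 * N := by
  classical
  have h1 : (S.image Prod.fst).card ≤ A.ncard := by
    rw [← Set.ncard_coe_finset]
    apply Set.ncard_le_ncard _ hfin
    intro z hz
    rw [Finset.mem_coe, Finset.mem_image] at hz
    obtain ⟨P, hP, rfl⟩ := hz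
    exact (hS P hP).2
  have h2 : S.card ≤ 2 * (S.image Prod.fst).card := by
    apply Finset.card_le_mul_card_image
    intro x hx
    by_contra hcon
    push Not at hcon
    obtain ⟨P, hP, Q, hQ, W, hW, h12, h13, h23⟩ := Finset.two_lt_card.mp hcon
    rw [Finset.mem_filter] at hP hQ hW
    have e1 := (hS P hP.1).1
    have e2 := (hS Q hQ.1).1
    have e3 := (hS W hW.1).1
    rw [hP.2] at e1
    rw [hQ.2] at e2
    rw [hW.2] at e3
    have n1 : P.2 ≠ Q.2 := fun h => h12 (Prod.ext (hP.2.trans hQ.2.symm) h)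
    have n2 : P.2 ≠ W.2 := fun h => h13 (Prod.ext (hP.2.trans hW.2.symm) h)
    have n3 : Q.2 ≠ W.2 := fun h => h23 (Prod.ext (hQ.2.trans hW.2.symm) h)
    have m1 : (P.2 - Q.2) * (P.2 + Q.2) = 0 := by linear_combination e1 - e2
    have m2 : (P.2 - W.2) * (P.2 + W.2) = 0 := by linear_combination e1 - e3
    have s1 := (mul_eq_zero.mp m1).resolve_left (sub_ne_zero.mpr n1)
    have s2 := (mul_eq_zero.mp m2).resolve_left (sub_ne_zero.mpr n2)
    apply n3
    linear_combination s1 - s2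
  have h3 : (S.card : ℝ) ≤ 2 * ((S.image Prod.fst).card : ℝ) := by exact_mod_cast h2
  have h4 : ((S.image Prod.fst).card : ℝ) ≤ (A.ncard : ℝ) := by
    exact_mod_cast h1
  linarith

/-- one residue class -/
lemma h7_class_card {F M : Type} [Field F] [NumberField F] [DecidableEq F] [Field M]
    [NumberField M] [Algebra F M]
    {k : 𝓞 F} {κ : M} (hk : (k : F) ≠ 0) (hκ : κ ^ 3 = algebraMap F M k) (Cp : ℝ)
    (hpar : ∀ P Q : (Ek (k : F)).Point,
      |ht κ (P + Q) + ht κ (P - Q) - 2 * ht κ P - 2 * ht κ Q| ≤ Cp)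
    (r : ℕ) (hfin : (nsmulAddMonoidHom (α := (Ek (k : F)).Point) 3).range.index ≠ 0)
    (hr : (nsmulAddMonoidHom (α := (Ek (k : F)).Point) 3).range.index ≤ 3 ^ r)
    (T : Finset (𝓞 F × 𝓞 F)) (hT : ∀ P ∈ T, (P.2 : F) ^ 2 = (P.1 : F) ^ 3 + k)
    (low hi : ℝ) (hlow : ∀ P (hP : P ∈ T), low ≤ ht κ (pt hk (hT P hP)))
    (hhi : ∀ P (hP : P ∈ T) Q (hQ : Q ∈ T), P ≠ Q →
      ht κ (pt hk (hT P hP) + pt hk (hT Q hQ)) ≤ hi)
    (ε b : ℝ) (j : ℕ) (hj : 1 ≤ j) (hε : 0 ≤ ε) (hb : 0 < b) (hb2 : b ≤ low - Cp)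
    (hcos : (hi + Cp) / 2 - (low - Cp) ≤ ε * b)
    (hN : 2 * (Nat.multichoose r j : ℝ) * ε ^ (2 * j - 1) ≤ 1 / 2) :
    (T.card : ℝ) ≤ 4 * Nat.multichoose r j := by
  classical
  let e : Fin T.card ≃ T := (Finset.equivFin T).symm
  let x : Fin T.card → (Ek (k : F)).Point := fun i => pt hk (hT (e i) (e i).2)
  obtain ⟨w, hw1, hw2⟩ := gram_of_height (fun P => ht κ P) Cp (fun P => ht_nonneg κ P) hpar
    (fun b => northcott hk hκ b) r hfin hr T.card x
  refine sphere_code w ε b j hj hε hb ?_ ?_ hN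
  · intro i
    have h1 := (abs_le.mp (hw1 i)).2
    have h2 := hlow (e i) (e i).2
    have h3 : ht κ (x i) = ht κ (pt hk (hT (e i) (e i).2)) := rfl
    linarith
  · intro i i' hne
    have h1 := (abs_le.mp (hw1 i)).2
    have h1' := (abs_le.mp (hw1 i')).2
    have h2 := hlow (e i) (e i).2
    have h2' := hlow (e i') (e i').2
    have h3 : ht κ (x i) = ht κ (pt hk (hT (e i) (e i).2)) := rfl
    have h3' : ht κ (x i') = ht κ (pt hk (hT (e i') (e i').2)) := rfl
    have h4 := (abs_le.mp (hw2 i i')).1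
    have h5 : ht κ (x i + x i') ≤ hi := by
      refine hhi (e i) (e i).2 (e i') (e i').2 ?_
      intro h
      apply hne
      apply e.injective
      exact Subtype.ext h
    have h6 : ∑ a, (w i a + w i' a) ^ 2 = ∑ a, w i a ^ 2 + ∑ a, w i' a ^ 2 +
        2 * ∑ a, w i a * w i' a := by
      rw [Finset.mul_sum, ← Finset.sum_add_distrib, ← Finset.sum_add_distrib]
      apply Finset.sum_congr rfl
      intro a _
      ring
    rw [h6] at h4
    linarith

/-- the sum over the places -/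
lemma h7_sum {F : Type} [Field F] [NumberField F] (m : ℕ) (hm : finrank ℚ F = m)
    (hc : ∀ v : InfinitePlace F, v.IsComplex) (R : InfinitePlace F → ℝ) (hR : ∀ v, 0 < R v)
    (p : ℕ) (hp : 0 < p) (V : ℝ) (hV : ∏ v, R v ^ 2 ≤ V) :
    ∑ v : InfinitePlace F, v.mult * Real.log (8 * R v / p ^ 2) ≤
      m * Real.log 8 + Real.log V - 2 * (m * Real.log p) := by
  have hp0 : (0 : ℝ) < p := by exact_mod_cast hp
  have h1 : ∀ v : InfinitePlace F, (v.mult : ℝ) * Real.log (8 * R v / p ^ 2) =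
      v.mult * (Real.log 8 - 2 * Real.log p) + Real.log (R v ^ 2) := by
    intro v
    have h2 : (v.mult : ℝ) = 2 := by
      rw [InfinitePlace.mult, if_neg (InfinitePlace.not_isReal_iff_isComplex.mpr (hc v))]
      norm_num
    have hRv := hR v
    rw [Real.log_div (by positivity) (by positivity), Real.log_mul (by norm_num) hRv.ne',
      Real.log_pow, Real.log_pow, h2]
    push_cast
    ring
  have h3 : ∑ v : InfinitePlace F, (v.mult : ℝ) = m := by
    rw [← Nat.cast_sum, InfinitePlace.sum_mult_eq, hm]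
  have h4 : ∑ v : InfinitePlace F, Real.log (R v ^ 2) = Real.log (∏ v, R v ^ 2) := by
    rw [Real.log_prod]
    intro v _
    exact pow_ne_zero 2 (hR v).ne'
  have h5 : Real.log (∏ v, R v ^ 2) ≤ Real.log V :=
    Real.log_le_log (Finset.prod_pos (fun v _ => pow_pos (hR v) 2)) hV
  rw [Finset.sum_congr rfl (fun v _ => h1 v), Finset.sum_add_distrib, ← Finset.sum_mul, h3, h4]
  have h6 : (m : ℝ) * (Real.log 8 - 2 * Real.log p) =
      m * Real.log 8 - 2 * (m * Real.log p) := by ring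
  rw [h6]
  linarith

/-- the cube roots of the radii -/
lemma h7_cbrt {F : Type} [Field F] [NumberField F] (R : InfinitePlace F → ℝ) (hR : ∀ v, 0 < R v)
    (V : ℝ) (hV1 : 1 ≤ V) (hV : ∏ v, R v ^ 2 ≤ V) :
    ∏ v, (R v ^ (1 / 3 : ℝ)) ^ 2 ≤ V := by
  have h1 : ∏ v, (R v ^ (1 / 3 : ℝ)) ^ 2 = (∏ v, R v ^ 2) ^ (1 / 3 : ℝ) := by
    rw [← Real.finsetProd_rpow _ _ (fun v _ => by positivity)]
    apply Finset.prod_congr rfl
    intro v _
    rw [← Real.rpow_natCast, ← Real.rpow_natCast, ← Real.rpow_mul (hR v).le,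
      ← Real.rpow_mul (hR v).le, mul_comm]
  have h0 : 0 ≤ ∏ v, R v ^ 2 := Finset.prod_nonneg (fun v _ => by positivity)
  rw [h1]
  calc (∏ v, R v ^ 2) ^ (1 / 3 : ℝ) ≤ V ^ (1 / 3 : ℝ) :=
        Real.rpow_le_rpow h0 hV (by norm_num)
    _ ≤ V ^ (1 : ℝ) := Real.rpow_le_rpow_of_exponent_le hV1 (by norm_num)
    _ = V := Real.rpow_one V

theorem points_bound_gen (m : ℕ) (C₀ : ℝ) : ∃ θ : ℝ, 0 < θ ∧ θ < 1 / 8 ∧ ∃ C : ℝ,
    ∀ (F : Type) [Field F] [NumberField F] [DecidableEq F] (k : 𝓞 F) (D : ℝ)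
    (R : InfinitePlace F → ℝ) (S : Finset (𝓞 F × 𝓞 F)),
    finrank ℚ F = m → (∀ v : InfinitePlace F, v.IsComplex) → k ≠ 0 → 1 ≤ D →
    |(discr F : ℝ)| ≤ D ^ (1 / (8 * m) : ℝ) → (∀ v, 0 < R v) →
    ∏ v, R v ^ 2 ≤ C₀ * D ^ (3 / 2 : ℝ) → (∀ v : InfinitePlace F, v (k : F) ≤ R v) →
    (nsmulAddMonoidHom (α := (Ek (k : F)).Point) 3).range.index ≠ 0 →
    ((nsmulAddMonoidHom (α := (Ek (k : F)).Point) 3).range.index : ℝ) ≤ C₀ * D ^ C₀ →
    (∀ P ∈ S, P.2 ^ 2 = P.1 ^ 3 + k ∧ (∀ v : InfinitePlace F, v (P.1 : F) ^ 3 ≤ R v) ∧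
      D ^ (3 / 2 - θ / 2 : ℝ) * Ideal.absNorm (Ideal.span {P.1 ^ 3, k}) ≤
        C₀ * ((Algebra.norm ℤ P.1).natAbs : ℝ) ^ 3) →
    (S.card : ℝ) ≤ C * D ^ (1 / 4 - θ / 2 : ℝ) := by
  classical
  rcases Nat.eq_zero_or_pos m with hm0 | hm1
  · refine ⟨1 / 16, by norm_num, by norm_num, 0, ?_⟩
    intro F _ _ _ k D R S hmF
    exfalso
    have : 0 < finrank ℚ F := finrank_pos
    omega
  have hM : (1 : ℝ) ≤ m := by exact_mod_cast hm1
  have hM0 : (0 : ℝ) < m := by linarith
  obtain ⟨Cp, hCp, hpar⟩ := parallelogram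
  obtain ⟨Cb, hCb1, hcb⟩ := box_count m
  set c0 : ℝ := max C₀ 1 with hc0
  have hc01 : 1 ≤ c0 := le_max_right _ _
  have hC0 : C₀ ≤ c0 := le_max_left _ _
  have hlc : 0 ≤ Real.log c0 := Real.log_nonneg hc01
  obtain ⟨ε₀, hε₀, hnum⟩ := code_numeric (1 + Real.log c0 + c0)
  set θ : ℝ := min (1 / 256) (ε₀ / 4) with hθ
  have hθ0 : 0 < θ := lt_min (by norm_num) (by positivity)
  have hθ1 : θ ≤ 1 / 256 := min_le_left _ _
  have hθ2 : 4 * θ ≤ ε₀ := by
    have := min_le_right (1 / 256) (ε₀ / 4)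
    rw [← hθ] at this
    linarith
  obtain ⟨C2, hC2⟩ := hnum (4 * θ) (by positivity) hθ2
  set A1 : ℝ := Real.log c0 / 3 + Cp with hA1
  have hA10 : 0 ≤ A1 := by positivity
  set A2 : ℝ := Real.log 8 + Real.log c0 + Cp with hA2
  have hA20 : 0 ≤ A2 := by
    have : 0 ≤ Real.log 8 := Real.log_nonneg (by norm_num)
    positivity
  set L0 : ℝ := 26 * A1 * m + (A2 / 2 + A1) * 5 * m / θ + 1 with hL0
  set C3 : ℝ := 24 ^ m * |C2| + 2 * (Cb * (1 + c0 * Real.exp (3 / 2 * L0))) with hC3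
  refine ⟨θ, hθ0, by linarith, C3, ?_⟩
  intro F _ _ _ k D R S hmF hcF hk0 hD hdD hR hRD hkR hidx hidx2 hS
  set L := Real.log D with hL
  have hL1 : 0 ≤ L := Real.log_nonneg hD
  have hD0 : 0 < D := by linarith
  have hkF : (k : F) ≠ 0 := fun h => hk0 (RingOfIntegers.ext h)
  have hDpow : ∀ a : ℝ, D ^ a = Real.exp (a * L) := by
    intro a
    rw [Real.rpow_def_of_pos hD0, mul_comm]
  have hRD' : ∏ v, R v ^ 2 ≤ c0 * D ^ (3 / 2 : ℝ) :=
    hRD.trans (mul_le_mul_of_nonneg_right hC0 (by positivity))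
  have hD32 : (1 : ℝ) ≤ D ^ (3 / 2 : ℝ) := Real.one_le_rpow hD (by norm_num)
  have hV1 : 1 ≤ c0 * D ^ (3 / 2 : ℝ) := by
    calc (1 : ℝ) = 1 * 1 := by ring
      _ ≤ _ := mul_le_mul hc01 hD32 zero_le_one (by linarith)
  have hgoal : (1 : ℝ) ≤ D ^ (1 / 4 - θ / 2 : ℝ) := Real.one_le_rpow hD (by linarith)
  rcases lt_or_ge L L0 with hLs | hLl
  · -- small discriminant
    obtain ⟨hfin, hcard⟩ := hcb F hmF hcF (fun v => R v ^ (1 / 3 : ℝ))
      (fun v => Real.rpow_pos_of_pos (hR v) _)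
    have h1 := h7_card_triv k _ hfin _ hcard S (fun P hP => ⟨(hS P hP).1, fun v => by
      have h2 := (hS P hP).2.1 v
      have h3 : (0 : ℝ) ≤ v (P.1 : F) := apply_nonneg _ _
      have h4 : v (P.1 : F) = (v (P.1 : F) ^ 3) ^ (1 / 3 : ℝ) := by
        rw [← Real.rpow_natCast, ← Real.rpow_mul h3]
        norm_num
      rw [h4]
      exact Real.rpow_le_rpow (by positivity) h2 (by norm_num)⟩)
    have h2 : ∏ v, (R v ^ (1 / 3 : ℝ)) ^ 2 ≤ c0 * Real.exp (3 / 2 * L0) := by
      refine (h7_cbrt R hR _ hV1 hRD').trans ?_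
      rw [hDpow]
      apply mul_le_mul_of_nonneg_left _ (by linarith)
      apply Real.exp_le_exp.mpr
      linarith
    have h3 : Cb * (1 + ∏ v, (R v ^ (1 / 3 : ℝ)) ^ 2) ≤
        Cb * (1 + c0 * Real.exp (3 / 2 * L0)) :=
      mul_le_mul_of_nonneg_left (by linarith) (by linarith)
    have h4 : (S.card : ℝ) ≤ C3 := by
      have : 0 ≤ 24 ^ m * |C2| := by positivity
      rw [hC3]
      linarith
    have h5 : 0 ≤ C3 := le_trans (Nat.cast_nonneg _) h4
    calc (S.card : ℝ) ≤ C3 * 1 := by rw [mul_one]; exact h4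
      _ ≤ _ := mul_le_mul_of_nonneg_left hgoal h5
  -- large discriminant
  obtain ⟨M, _, _, _, κ, hκ⟩ := exists_cbrt (k : F)
  set idx := (nsmulAddMonoidHom (α := (Ek (k : F)).Point) 3).range.index with hidxdef
  have hidx1 : 1 ≤ idx := Nat.one_le_iff_ne_zero.mpr hidx
  have hidxr : (1 : ℝ) ≤ idx := by exact_mod_cast hidx1
  have hidxlog : Real.log idx ≤ Real.log c0 + c0 * L := by
    have h1 : (idx : ℝ) ≤ c0 * D ^ c0 := by
      refine hidx2.trans ?_
      have hC00 : 0 ≤ C₀ := by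
        by_contra hcon
        push Not at hcon
        have : C₀ * D ^ C₀ ≤ 0 := mul_nonpos_of_nonpos_of_nonneg hcon.le (by positivity)
        linarith
      exact mul_le_mul hC0 (Real.rpow_le_rpow_of_exponent_le hD hC0) (by positivity) (by linarith)
    have h2 := Real.log_le_log (by linarith) h1
    rwa [Real.log_mul (by linarith) (by positivity), Real.log_rpow hD0] at h2
  have hr := clog_le c0 L hc01 hL1 idx hidx1 hidxlog
  obtain ⟨j, hj, hN, hN2⟩ := hC2 L (Nat.clog 3 idx) hL1 hr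
  -- the prime
  set α : ℝ := (1 / 4 - θ) / m with hα
  have hα1 : 1 / (8 * (m : ℝ)) ≤ α := by
    rw [hα, ← div_div]
    exact div_le_div_of_nonneg_right (by linarith) hM0.le
  have hα0 : 0 < α := div_pos (by linarith) hM0
  have hDα : 1 ≤ D ^ α := Real.one_le_rpow hD hα0.le
  set q : ℕ := max 4 ⌈D ^ α⌉₊ with hq
  obtain ⟨p, hpp, hmp, hp2m⟩ := Nat.exists_prime_lt_and_le_two_mul q (by
    have : 4 ≤ q := le_max_left _ _
    omega)
  have hql : D ^ α ≤ q := by
    calc D ^ α ≤ ⌈D ^ α⌉₊ := Nat.le_ceil _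
      _ ≤ q := by exact_mod_cast le_max_right _ _
  have hpl : D ^ α ≤ p := by
    calc D ^ α ≤ q := hql
      _ ≤ p := by exact_mod_cast hmp.le
  have hpu : (p : ℝ) ≤ 12 * D ^ α := by
    have h1 : (q : ℝ) ≤ 4 + (D ^ α + 1) := by
      have h2 : (q : ℝ) ≤ 4 + ⌈D ^ α⌉₊ := by
        have : q ≤ 4 + ⌈D ^ α⌉₊ := max_le (by omega) (by omega)
        exact_mod_cast this
      have h3 := (Nat.ceil_lt_add_one (show 0 ≤ D ^ α by positivity)).le
      linarith
    have h4 : (p : ℝ) ≤ 2 * q := by exact_mod_cast hp2m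
    linarith
  have hp0 : (0 : ℝ) < p := by
    have := hpp.pos
    exact_mod_cast this
  have hpd : ¬ p ∣ (discr F).natAbs := by
    intro hdvd
    have h1 : 0 < (discr F).natAbs := Int.natAbs_pos.mpr (discr_ne_zero F)
    have h2 := Nat.le_of_dvd h1 hdvd
    have h3 : (((discr F).natAbs : ℕ) : ℝ) = |(discr F : ℝ)| := by
      rw [Nat.cast_natAbs, Int.cast_abs]
    have h4 : |(discr F : ℝ)| ≤ q := by
      refine hdD.trans (le_trans ?_ hql)
      exact Real.rpow_le_rpow_of_exponent_le hD hα1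
    rw [← h3] at h4
    have h5 : (discr F).natAbs ≤ q := by exact_mod_cast h4
    omega
  have hαm : m * α = 1 / 4 - θ := by
    rw [hα]
    field_simp
  have hlogp : (1 / 4 - θ) * L ≤ m * Real.log p := by
    have h1 := Real.log_le_log (by positivity) hpl
    rw [Real.log_rpow hD0] at h1
    calc (1 / 4 - θ) * L = m * (α * L) := by rw [← hαm]; ring
      _ ≤ m * Real.log p := mul_le_mul_of_nonneg_left h1 hM0.le
  obtain ⟨c, hc⟩ := residues F m hmF p hpp hpd k
  -- the size of one class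
  have hθL : (A2 / 2 + A1) * 5 * m ≤ θ * L := by
    have h1 : (A2 / 2 + A1) * 5 * m / θ ≤ L := by
      have : 0 ≤ 26 * A1 * m := by positivity
      linarith
    rw [div_le_iff₀ hθ0] at h1
    linarith
  have h26 : 26 * A1 * m ≤ L := by
    have : 0 ≤ (A2 / 2 + A1) * 5 * m / θ := by positivity
    linarith
  have hLpos : 0 < L := by
    have : 0 ≤ (A2 / 2 + A1) * 5 * m / θ := by positivity
    have : 0 ≤ 26 * A1 * m := by positivity
    linarith
  have hclass : ∀ i, ((S.filter (fun x => c x = i)).card : ℝ) ≤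
      4 * Nat.multichoose (Nat.clog 3 idx) j := by
    intro i
    have hTeq : ∀ P ∈ S.filter (fun x => c x = i), (P.2 : F) ^ 2 = (P.1 : F) ^ 3 + k := by
      intro P hP
      have h1 := (hS P (Finset.mem_filter.mp hP).1).1
      have := congrArg (fun z : 𝓞 F => (z : F)) h1
      simpa using this
    refine h7_class_card hkF hκ Cp (hpar F M (k : F) κ hkF hκ) (Nat.clog 3 idx) hidx
      (Nat.le_pow_clog (by norm_num) idx) _ hTeq
      (((3 / 2 - θ / 2) * L - Real.log c0) / (3 * m))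
      (max 0 ((m * Real.log 8 + Real.log (c0 * D ^ (3 / 2 : ℝ)) - 2 * (m * Real.log p)) / m))
      ?_ ?_ (4 * θ) (2 * L / (5 * m)) j hj (by positivity) (by positivity) ?_ ?_ hN
    · intro P hP
      have hPS := hS P (Finset.mem_filter.mp hP).1
      obtain ⟨G, hG⟩ : ∃ G : Ideal (𝓞 F), G = Ideal.span {P.1 ^ 3, k} := ⟨_, rfl⟩
      have hG0 : G ≠ ⊥ := by
        intro h
        apply hk0
        have h1 : k ∈ G := by
          rw [hG]
          exact Ideal.subset_span (by simp)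
        rw [h] at h1
        exact (Submodule.mem_bot _).mp h1
      have hGn : 0 < Ideal.absNorm G :=
        Nat.pos_of_ne_zero (fun h => hG0 (Ideal.absNorm_eq_zero_iff.1 h))
      have hGn' : (0 : ℝ) < Ideal.absNorm G := by exact_mod_cast hGn
      have h3 := hPS.2.2
      rw [← hG] at h3
      have h4 : D ^ (3 / 2 - θ / 2 : ℝ) * Ideal.absNorm G ≤
          c0 * ((Algebra.norm ℤ P.1).natAbs : ℝ) ^ 3 :=
        h3.trans (mul_le_mul_of_nonneg_right hC0 (by positivity))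
      have hX0 : P.1 ≠ 0 := by
        intro h
        have h5 : Algebra.norm ℤ P.1 = 0 := by rw [h]; exact Algebra.norm_zero
        rw [h5] at h4
        have : 0 < D ^ (3 / 2 - θ / 2 : ℝ) * Ideal.absNorm G := by positivity
        have h6 : c0 * (((0 : ℤ).natAbs : ℕ) : ℝ) ^ 3 = 0 := by simp
        rw [h6] at h4
        linarith
      have hn0 : (0 : ℝ) < ((Algebra.norm ℤ P.1).natAbs : ℝ) := by
        have : 0 < (Algebra.norm ℤ P.1).natAbs :=
          Int.natAbs_pos.mpr (Algebra.norm_ne_zero_iff.mpr hX0)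
        exact_mod_cast this
      have h1 := ht_int_lower (F := F) (M := M) hkF hκ hX0 (hTeq P hP)
      refine le_trans ?_ h1
      rw [hmF, ← hG]
      apply div_le_div_of_nonneg_right _ (by positivity)
      have h5 := Real.log_le_log (by positivity) h4
      rw [Real.log_mul (by positivity) (by positivity), Real.log_mul (by positivity) (by positivity),
        Real.log_rpow hD0, Real.log_pow] at h5
      push_cast at h5
      linarith
    · intro P hP Q hQ hne
      have hPS := hS P (Finset.mem_filter.mp hP).1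
      have hQS := hS Q (Finset.mem_filter.mp hQ).1
      obtain ⟨ha, hb⟩ := hc P Q hPS.1 hQS.1
        ((Finset.mem_filter.mp hP).2.trans (Finset.mem_filter.mp hQ).2.symm)
      have h1 := ht_add_congr_gen hkF hκ (hTeq P hP) (hTeq Q hQ) hne R hR hPS.2.1 hQS.2.1 hkR p
        hpp.one_lt.le ha hb
      refine h1.trans ?_
      apply max_le_max le_rfl
      rw [hmF]
      apply div_le_div_of_nonneg_right _ hM0.le
      exact h7_sum m hmF hcF R hR p hpp.pos _ hRD'
    · -- lower bound for the norm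
      have e1 : ((3 / 2 - θ / 2) * L - Real.log c0) / (3 * m) - Cp =
          ((1 / 2 - θ / 6) * L - Real.log c0 / 3 - Cp * m) / m := by
        field_simp
        ring
      have e2 : 2 * L / (5 * m) = (2 * L / 5) / m := by
        field_simp
      rw [e1, e2]
      apply div_le_div_of_nonneg_right _ hM0.le
      have h1 : Real.log c0 / 3 ≤ Real.log c0 / 3 * m := by
        calc Real.log c0 / 3 = Real.log c0 / 3 * 1 := by ring
          _ ≤ _ := mul_le_mul_of_nonneg_left hM (by positivity)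
      have h2 : A1 * m = Real.log c0 / 3 * m + Cp * m := by rw [hA1]; ring
      nlinarith
    · have e1 : ((3 / 2 - θ / 2) * L - Real.log c0) / (3 * m) - Cp =
          ((1 / 2 - θ / 6) * L - Real.log c0 / 3 - Cp * m) / m := by
        field_simp
        ring
      have e2 : 4 * θ * (2 * L / (5 * m)) = (8 / 5 * (θ * L)) / m := by
        field_simp
        ring
      have h8 : 0 ≤ Real.log 8 := Real.log_nonneg (by norm_num)
      have h1 : max 0 ((m * Real.log 8 + Real.log (c0 * D ^ (3 / 2 : ℝ)) -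
          2 * (m * Real.log p)) / m) ≤
          ((1 + 2 * θ) * L + (A2 - Cp) * m) / m := by
        have h2 : (A2 - Cp) * m = Real.log 8 * m + Real.log c0 * m := by rw [hA2]; ring
        have h3 : 0 ≤ (A2 - Cp) * m := by rw [h2]; positivity
        apply max_le
        · apply div_nonneg _ hM0.le
          have : 0 ≤ (1 + 2 * θ) * L := by positivity
          linarith
        · apply div_le_div_of_nonneg_right _ hM0.le
          rw [Real.log_mul (by positivity) (by positivity), Real.log_rpow hD0, h2]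
          have h4 : Real.log c0 ≤ Real.log c0 * m := by
            calc Real.log c0 = Real.log c0 * 1 := by ring
              _ ≤ _ := mul_le_mul_of_nonneg_left hM hlc
          nlinarith
      have h5 : (max 0 ((m * Real.log 8 + Real.log (c0 * D ^ (3 / 2 : ℝ)) -
          2 * (m * Real.log p)) / m) + Cp) / 2 ≤
          ((1 / 2 + θ) * L + A2 / 2 * m) / m := by
        have e3 : ((1 / 2 + θ) * L + A2 / 2 * m) / m =
            (((1 + 2 * θ) * L + (A2 - Cp) * m) / m + Cp) / 2 := by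
          field_simp
          ring
        rw [e3]
        linarith
      rw [e1, e2]
      have h6 : ((1 / 2 + θ) * L + A2 / 2 * m) / m -
          ((1 / 2 - θ / 6) * L - Real.log c0 / 3 - Cp * m) / m ≤ (8 / 5 * (θ * L)) / m := by
        rw [← sub_div]
        apply div_le_div_of_nonneg_right _ hM0.le
        have h7 : Real.log c0 / 3 ≤ Real.log c0 / 3 * m := by
          calc Real.log c0 / 3 = Real.log c0 / 3 * 1 := by ring
            _ ≤ _ := mul_le_mul_of_nonneg_left hM (by positivity)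
        have h9 : A1 * m = Real.log c0 / 3 * m + Cp * m := by rw [hA1]; ring
        have h10 : 0 ≤ (A2 / 2 + A1) * m := by positivity
        nlinarith
      linarith
  have hfinal := card_le_classes S (2 ^ m * p ^ m) c _ hclass
  have hexp : Real.exp ((4 * θ) ^ (3 / 2 : ℝ) * L) ≤ D ^ (θ / 2) := by
    rw [hDpow]
    apply Real.exp_le_exp.mpr
    apply mul_le_mul_of_nonneg_right _ hL1
    have h1 : (4 * θ) ^ (3 / 2 : ℝ) = (4 * θ) * (4 * θ) ^ (1 / 2 : ℝ) := by
      rw [show (3 / 2 : ℝ) = 1 + 1 / 2 by norm_num, Real.rpow_add (by positivity), Real.rpow_one]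
    have h2 : (4 * θ) ^ (1 / 2 : ℝ) ≤ 1 / 8 := by
      rw [← Real.sqrt_eq_rpow, Real.sqrt_le_left (by norm_num)]
      linarith
    rw [h1]
    have h3 : (4 * θ) * (4 * θ) ^ (1 / 2 : ℝ) ≤ (4 * θ) * (1 / 8) :=
      mul_le_mul_of_nonneg_left h2 (by positivity)
    linarith
  have hN3 : 4 * (Nat.multichoose (Nat.clog 3 idx) j : ℝ) ≤ |C2| * D ^ (θ / 2) := by
    refine hN2.trans ?_
    exact mul_le_mul (le_abs_self _) hexp (Real.exp_pos _).le (abs_nonneg _)
  have hp2 : ((2 ^ m * p ^ m : ℕ) : ℝ) ≤ 24 ^ m * D ^ (1 / 4 - θ : ℝ) := by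
    push_cast
    have h1 : (p : ℝ) ^ m ≤ (12 * D ^ α) ^ m := pow_le_pow_left₀ hp0.le hpu m
    have h2 : (D ^ α) ^ m = D ^ (1 / 4 - θ : ℝ) := by
      rw [← Real.rpow_natCast, ← Real.rpow_mul hD0.le]
      congr 1
      rw [← hαm, mul_comm]
    rw [mul_pow, h2] at h1
    calc (2 : ℝ) ^ m * (p : ℝ) ^ m ≤ 2 ^ m * (12 ^ m * D ^ (1 / 4 - θ : ℝ)) :=
          mul_le_mul_of_nonneg_left h1 (by positivity)
      _ = (2 * 12) ^ m * D ^ (1 / 4 - θ : ℝ) := by rw [mul_pow]; ring
      _ = _ := by norm_num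
  have h7 : (S.card : ℝ) ≤ (24 ^ m * D ^ (1 / 4 - θ : ℝ)) * (|C2| * D ^ (θ / 2)) :=
    hfinal.trans (mul_le_mul hp2 hN3 (by positivity) (by positivity))
  have h8 : (24 ^ m * D ^ (1 / 4 - θ : ℝ)) * (|C2| * D ^ (θ / 2)) =
      24 ^ m * |C2| * D ^ (1 / 4 - θ / 2 : ℝ) := by
    rw [show (1 / 4 - θ / 2 : ℝ) = (1 / 4 - θ) + θ / 2 by ring, Real.rpow_add hD0]
    ring
  rw [h8] at h7
  refine h7.trans (mul_le_mul_of_nonneg_right ?_ (by positivity))
  have : 0 ≤ 2 * (Cb * (1 + c0 * Real.exp (3 / 2 * L0))) := by positivity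
  rw [hC3]
  linarith

end Pool.Agent.Lib.MP_695920_nt.Qg
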