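import Mathlib
import Pool.Agent.Lib.MP_695920_nt.Qg.FinA
import Pool.Agent.Lib.MP_695920_nt.Qg.Minus
import Pool.Agent.Lib.MP_695920_nt.Qg.PointsGen
import Pool.Agent.Lib.MP_695920_nt.Qg.ClassGen

/-!
The data attached to a class killed by three of trivial norm.
-/

set_option autoImplicit false

open NumberField Module IsDedekindDomain
open scoped nonZeroDivisors

namespace Pool.Agent.Lib.MP_695920_nt.Qg

open Pool.Agent.Lib.MP_695920_nt.Qt Pool.Agent.Lib.MP_695920_nt.Gl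

/-- the data attached to a class -/
structure GData (E K : Type) [Field E] [NumberField E] [Field K] [NumberField K] [Algebra E K]
    (m : ℕ) (𝒰 : Finset (𝓞 E)ˣ) (B : ℝ) (c : ClassGroup (𝓞 K)) where
  I : (Ideal (𝓞 K))⁰
  ξ : 𝓞 K
  y : 𝓞 K
  k : 𝓞 E
  X : 𝓞 E
  Y : 𝓞 E
  u : (𝓞 E)ˣ
  R : Ideal (𝓞 K)
  J : Ideal (𝓞 K)
  r : Ideal (𝓞 E)
  hI : ClassGroup.mk0 I = c
  hI3 : (I : Ideal (𝓞 K)) ^ 3 = Ideal.span {ξ}
  hξB : ∀ w : InfinitePlace K, w (ξ : K) ≤ B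
  hξ0 : ξ ≠ 0
  hu : u ∈ 𝒰
  htr : Algebra.trace E K (y : K) = 0
  hk : algebraMap (𝓞 E) (𝓞 K) k = 16 * algebraMap (𝓞 E) (𝓞 K) u ^ 2 * y ^ 2
  hY : Y ^ 2 = X ^ 3 + k
  hξ : algebraMap (𝓞 E) (𝓞 K) Y + 4 * algebraMap (𝓞 E) (𝓞 K) u * y =
        8 * algebraMap (𝓞 E) (𝓞 K) u * ξ
  hX3 : ∀ v : InfinitePlace E, v (X : E) ^ 3 ≤ 64 * v ((u : 𝓞 E) : E) ^ 2 * B ^ 2
  hkv : ∀ v : InfinitePlace E, v (k : E) ≤ 64 * v ((u : 𝓞 E) : E) ^ 2 * B ^ 2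
  hyB : ∀ w : InfinitePlace K, w (y : K) ≤ 2 * B
  hNX : (Algebra.norm ℤ X).natAbs = 4 ^ m * Ideal.absNorm (I : Ideal (𝓞 K))
  hy0 : y = 0 → (I : Ideal (𝓞 K)).IsPrincipal
  hRJ : (I : Ideal (𝓞 K)) = R * J
  hr0 : r ≠ ⊥
  hr : R ^ 2 = r.map (algebraMap (𝓞 E) (𝓞 K))
  hg : Ideal.absNorm (Ideal.span {X ^ 3, k}) ≤ 64 ^ m * Ideal.absNorm R ^ 3

section data

variable {E K : Type} [Field E] [NumberField E] [Field K] [NumberField K] [Algebra E K]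
  {m : ℕ} {𝒰 : Finset (𝓞 E)ˣ} {B : ℝ} {c c' : ClassGroup (𝓞 K)}

lemma GData.I_ne (d : GData E K m 𝒰 B c) : (d.I : Ideal (𝓞 K)) ≠ ⊥ :=
  nonZeroDivisors.coe_ne_zero d.I

lemma GData.R_ne (d : GData E K m 𝒰 B c) : d.R ≠ ⊥ := by
  intro h
  apply d.I_ne
  rw [d.hRJ, h, Ideal.bot_mul]

lemma GData.J_ne (d : GData E K m 𝒰 B c) : d.J ≠ ⊥ := by
  intro h
  apply d.I_ne
  rw [d.hRJ, h, Ideal.mul_bot]

/-- the class of the ideal of the base field -/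
noncomputable def GData.rc (d : GData E K m 𝒰 B c) : ClassGroup (𝓞 E) :=
  ClassGroup.mk0 ⟨d.r, mem_nonZeroDivisors_of_ne_zero d.hr0⟩

/-- the class is determined by the ideals `J` and `r` -/
lemma GData.class_J (d : GData E K m 𝒰 B c) (hc : c ^ 3 = 1) :
    (ClassGroup.extendedHom (𝓞 E) (𝓞 K) d.rc) ^ 2 *
      ClassGroup.mk0 ⟨d.J, mem_nonZeroDivisors_of_ne_zero d.J_ne⟩ ^ 4 = c := by
  have h1 : ClassGroup.extendedHom (𝓞 E) (𝓞 K) d.rc =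
      ClassGroup.mk0 ⟨d.R, mem_nonZeroDivisors_of_ne_zero d.R_ne⟩ ^ 2 := by
    unfold GData.rc
    rw [ClassGroup.extendedHom_mk0, ← map_pow]
    congr 1
    apply Subtype.ext
    exact d.hr.symm
  have h2 : ClassGroup.mk0 ⟨d.R, mem_nonZeroDivisors_of_ne_zero d.R_ne⟩ *
      ClassGroup.mk0 ⟨d.J, mem_nonZeroDivisors_of_ne_zero d.J_ne⟩ = c := by
    refine Eq.trans ?_ d.hI
    rw [← map_mul]
    congr 1
    apply Subtype.ext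
    exact d.hRJ.symm
  rw [h1, ← pow_mul, show 2 * 2 = 4 by norm_num, ← mul_pow, h2, pow_succ, hc, one_mul]

lemma GData.eq_of_J (d : GData E K m 𝒰 B c) (d' : GData E K m 𝒰 B c') (hc : c ^ 3 = 1)
    (hc' : c' ^ 3 = 1) (h : d.J = d'.J) (hr : d.rc = d'.rc) : c = c' := by
  rw [← d.class_J hc, ← d'.class_J hc', hr]
  congr 3
  exact Subtype.ext h

lemma GData.eq_of_I (d : GData E K m 𝒰 B c) (d' : GData E K m 𝒰 B c')
    (h : (d.I : Ideal (𝓞 K)) = d'.I) : c = c' := by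
  rw [← d.hI, ← d'.hI]
  congr 1
  exact Subtype.ext h

/-- the class is determined by the point -/
lemma GData.eq_of_pt (d : GData E K m 𝒰 B c) (d' : GData E K m 𝒰 B c') (hy : d.y = d'.y)
    (hu : d.u = d'.u) (hY : d.Y = d'.Y) : c = c' := by
  have h1 := d.hξ
  rw [hy, hu, hY, d'.hξ] at h1
  have h8 : (8 : 𝓞 K) * algebraMap (𝓞 E) (𝓞 K) d'.u ≠ 0 := by
    apply mul_ne_zero (by norm_num)
    intro h
    have h2 : IsUnit (algebraMap (𝓞 E) (𝓞 K) (d'.u : 𝓞 E)) := d'.u.isUnit.map _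
    exact h2.ne_zero h
  have h2 : d'.ξ = d.ξ := mul_left_cancel₀ h8 h1
  apply d.eq_of_I d'
  have h3 : (d.I : Ideal (𝓞 K)) ^ 3 = (d'.I : Ideal (𝓞 K)) ^ 3 := by
    rw [d.hI3, d'.hI3, h2]
  exact t16_ideal_pow_inj (by norm_num) h3

lemma GData.norm_I (d : GData E K m 𝒰 B c) {n : ℕ} (hn : finrank ℚ K = n) :
    ((Ideal.absNorm (d.I : Ideal (𝓞 K)) : ℝ)) ^ 3 ≤ B ^ n := by
  have h1 : Ideal.absNorm ((d.I : Ideal (𝓞 K)) ^ 3) = (Algebra.norm ℤ d.ξ).natAbs := by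
    rw [d.hI3, Ideal.absNorm_span_singleton]
  rw [map_pow] at h1
  have h2 : ((Algebra.norm ℤ d.ξ).natAbs : ℝ) = ∏ w : InfinitePlace K, w (d.ξ : K) ^ w.mult := by
    rw [InfinitePlace.prod_eq_abs_norm, ← Algebra.coe_norm_int (d.ξ), Nat.cast_natAbs]
    push_cast
    rfl
  have h3 : ((Ideal.absNorm (d.I : Ideal (𝓞 K)) : ℝ)) ^ 3 = ((Algebra.norm ℤ d.ξ).natAbs : ℝ) := by
    exact_mod_cast h1
  rw [h3, h2, ← hn, ← InfinitePlace.sum_mult_eq (K := K), ← Finset.prod_pow_eq_pow_sum]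
  exact Finset.prod_le_prod (fun v _ => by positivity)
    (fun v _ => pow_le_pow_left₀ (by positivity) (d.hξB v) _)

lemma GData.norm_y (d : GData E K m 𝒰 B c) {n : ℕ} (hn : finrank ℚ K = n) :
    ((Algebra.norm ℤ d.y).natAbs : ℝ) ≤ (2 * B) ^ n := by
  have h2 : ((Algebra.norm ℤ d.y).natAbs : ℝ) = ∏ w : InfinitePlace K, w (d.y : K) ^ w.mult := by
    rw [InfinitePlace.prod_eq_abs_norm, ← Algebra.coe_norm_int (d.y), Nat.cast_natAbs]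
    push_cast
    rfl
  rw [h2, ← hn, ← InfinitePlace.sum_mult_eq (K := K), ← Finset.prod_pow_eq_pow_sum]
  exact Finset.prod_le_prod (fun v _ => by positivity)
    (fun v _ => pow_le_pow_left₀ (by positivity) (d.hyB v) _)

end data

theorem exists_gdata {E K : Type} [Field E] [NumberField E] [Field K] [NumberField K]
    [Algebra E K] (m : ℕ) (hm : finrank ℚ E = m) (hfin : finrank E K = 2)
    (𝒰 : Finset (𝓞 E)ˣ) (h𝒰 : ∀ u : (𝓞 E)ˣ, ∃ u0 ∈ 𝒰, ∃ w : (𝓞 E)ˣ, u = u0 * w ^ 3)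
    (B : ℝ)
    (hmink : ∀ c : ClassGroup (𝓞 K), c ^ 3 = 1 → ∃ (I : (Ideal (𝓞 K))⁰) (ξ : 𝓞 K),
      ClassGroup.mk0 I = c ∧ (I : Ideal (𝓞 K)) ^ 3 = Ideal.span {ξ} ∧ ξ ≠ 0 ∧
      ∀ w : InfinitePlace K, w (ξ : K) ≤ B)
    (c : C3 E K) : Nonempty (GData E K m 𝒰 B c.1) := by
  obtain ⟨I, ξ, h1, h2, h3, h4⟩ := hmink c.1 c.2.1
  obtain ⟨y, k, X, Y, u, a1, a2, a3, a4, a5, a6, a7, a8, a9, a10, R, J, r, a11, a12, a13, a14⟩ :=
    class_point_gen m hm hfin 𝒰 h𝒰 I ξ h3 h2 (relNorm_principal c.2.2 I h1) B h4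
  exact ⟨⟨I, ξ, y, k, X, Y, u, R, J, r, h1, h2, h4, h3, a1, a2, a3, a4, a5, a6, a7, a8, a9, a10,
    a11, a12, a13, a14⟩⟩

end Pool.Agent.Lib.MP_695920_nt.Qg
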