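import Mathlib
import Pool.Agent.Lib.MP_695920_nt.Core
import Pool.Agent.Lib.MP_695920_nt.Qt.Defs
import Pool.Agent.Lib.MP_695920_nt.Qt.SelCard

/-!
Representatives of the units modulo cubes, and small generators of cubes of ideals.
-/

set_option autoImplicit false

open NumberField Module IsDedekindDomain
open scoped nonZeroDivisors

namespace Pool.Agent.Lib.MP_695920_nt.Qg

open Pool.Agent.Lib.MP_695920_nt.Qt

theorem unit_reps (E : Type) [Field E] [NumberField E] :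
    ∃ 𝒰 : Finset (𝓞 E)ˣ, 𝒰.card ≤ 3 ^ finrank ℚ E ∧
      ∀ u : (𝓞 E)ˣ, ∃ u0 ∈ 𝒰, ∃ w : (𝓞 E)ˣ, u = u0 * w ^ 3 := by
  classical
  obtain ⟨f, hf⟩ := t11_units E
  let g : Fin 3 × (Fin (Units.rank E) → Fin 3) → (𝓞 E)ˣ := fun t =>
    if h : ∃ u, f u = t then h.choose else 1
  have hg : ∀ u, f (g (f u)) = f u := by
    intro u
    have h : ∃ u', f u' = f u := ⟨u, rfl⟩
    have h1 : g (f u) = h.choose := dif_pos h
    rw [h1]
    exact h.choose_spec
  refine ⟨Finset.univ.image g, ?_, ?_⟩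
  · refine Finset.card_image_le.trans ?_
    rw [Finset.card_univ, Fintype.card_prod, Fintype.card_fin, Fintype.card_fun, Fintype.card_fin,
      Fintype.card_fin, mul_comm, ← pow_succ]
    exact Nat.pow_le_pow_right (by norm_num) (t11_rank E)
  · intro u
    obtain ⟨w, hw⟩ := hf u (g (f u)) (hg u).symm
    exact ⟨g (f u), Finset.mem_image_of_mem g (Finset.mem_univ _), w, hw⟩

theorem mink_gen (n : ℕ) : ∃ C : ℝ, 1 ≤ C ∧ ∀ (K : Type) [Field K] [NumberField K],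
    finrank ℚ K = n → ∀ c : ClassGroup (𝓞 K), c ^ 3 = 1 →
    ∃ (I : (Ideal (𝓞 K))⁰) (ξ : 𝓞 K),
      ClassGroup.mk0 I = c ∧ (I : Ideal (𝓞 K)) ^ 3 = Ideal.span {ξ} ∧ ξ ≠ 0 ∧
      ∀ w : InfinitePlace K, w (ξ : K) ≤ C * |(discr K : ℝ)| ^ (3 / (2 * n) : ℝ) := by
  refine ⟨8, by norm_num, ?_⟩
  intro K _ _ hn c hc
  have hn1 : (1 : ℝ) ≤ n := by
    rw [← hn]
    exact_mod_cast (finrank_pos : 0 < finrank ℚ K)
  obtain ⟨B, a, b, ha, hb, hB, -, hid, hw⟩ := pair_exists (K := K) (l := 3) (by norm_num) 1 c hc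
  rw [map_one, mul_one] at hB
  have hid' : Ideal.span {b} * (B : Ideal (𝓞 K)) ^ 3 = Ideal.span {a} := by
    rw [hid]
    have h1 : ((1 : (Ideal (𝓞 K))⁰) : Ideal (𝓞 K)) = 1 := rfl
    rw [h1, one_pow, mul_one]
  have hba : b ∣ a := by
    rw [← Ideal.span_singleton_le_span_singleton, ← hid']
    exact Ideal.mul_le_left
  obtain ⟨ξ, hξ⟩ := hba
  have hξ0 : ξ ≠ 0 := by
    rintro rfl
    rw [mul_zero] at hξ
    exact ha hξ
  have hb' : Ideal.span {b} ≠ ⊥ := by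
    rw [Ne, Ideal.span_singleton_eq_bot]
    exact hb
  refine ⟨B, ξ, hB, ?_, hξ0, ?_⟩
  · rw [hξ, ← Ideal.span_singleton_mul_span_singleton] at hid'
    exact mul_left_cancel₀ hb' hid'
  · intro w
    have h1 := hw w
    have hwb : 0 < w (b : K) := infinitePlace_pos hb
    rw [hξ, RingOfIntegers.coe_eq_algebraMap, map_mul, map_mul] at h1
    have h2 : w (ξ : K) < (ZK K / Ideal.absNorm ((1 : (Ideal (𝓞 K))⁰) : Ideal (𝓞 K))) ^
        ((3 : ℕ) / finrank ℚ K : ℝ) := by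
      rw [RingOfIntegers.coe_eq_algebraMap] at hwb ⊢
      rw [mul_comm] at h1
      exact lt_of_mul_lt_mul_right h1 hwb.le
    refine h2.le.trans ?_
    have h3 : ((Ideal.absNorm ((1 : (Ideal (𝓞 K))⁰) : Ideal (𝓞 K)) : ℕ) : ℝ) = 1 := by
      simp
    rw [h3, div_one, hn]
    have hD : (0 : ℝ) ≤ |(discr K : ℝ)| := abs_nonneg _
    unfold ZK
    rw [Real.mul_rpow (by norm_num) (Real.sqrt_nonneg _), Real.sqrt_eq_rpow, ← Real.rpow_mul hD]
    have h4 : (1 / 2 : ℝ) * (((3 : ℕ) : ℝ) / (n : ℝ)) = 3 / (2 * n) := by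
      push_cast
      field_simp
    rw [h4]
    have h5 : (2 : ℝ) ^ (((3 : ℕ) : ℝ) / (n : ℝ)) ≤ 8 := by
      calc (2 : ℝ) ^ (((3 : ℕ) : ℝ) / (n : ℝ)) ≤ (2 : ℝ) ^ (3 : ℝ) := by
            apply Real.rpow_le_rpow_of_exponent_le (by norm_num)
            push_cast
            exact div_le_self (by norm_num) hn1
        _ = 8 := by norm_num
    exact mul_le_mul_of_nonneg_right h5 (Real.rpow_nonneg hD _)

end Pool.Agent.Lib.MP_695920_nt.Qg
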