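import Mathlib
import Pool.Agent.Lib.MP_695920_nt.Qg.FinB
import Pool.Agent.Lib.MP_695920_nt.Qg.Small
import Pool.Agent.Lib.MP_695920_nt.Gl.ClassNum

/-!
The bound for the three torsion of quadratic extensions of fields containing the third roots of
unity.
-/

set_option autoImplicit false

open NumberField Module IsDedekindDomain
open scoped nonZeroDivisors

namespace Pool.Agent.Lib.MP_695920_nt.Qg

open Pool.Agent.Lib.MP_695920_nt.Qt Pool.Agent.Lib.MP_695920_nt.Gl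

lemma complex_of_omega {E : Type} [Field E] [NumberField E] (hω : ∃ ω : E, ω ^ 2 + ω + 1 = 0)
    (v : InfinitePlace E) : v.IsComplex := by
  rw [← InfinitePlace.not_isReal_iff_isComplex]
  intro hv
  obtain ⟨ω, hω⟩ := hω
  have h1 := congrArg (InfinitePlace.embedding_of_isReal hv) hω
  rw [map_add, map_add, map_pow, map_one, map_zero] at h1
  nlinarith [sq_nonneg (InfinitePlace.embedding_of_isReal hv ω + 1 / 2)]

/-- the powers of the bound -/
lemma B_pow {Cm D : ℝ} (hD : 0 < D) (a m : ℕ) (hm : 0 < m) :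
    (Cm * D ^ (3 / (2 * ((2 * m : ℕ) : ℝ)) : ℝ)) ^ (a * m) =
      Cm ^ (a * m) * D ^ (3 * a / 4 : ℝ) := by
  have hmr : (m : ℝ) ≠ 0 := by exact_mod_cast hm.ne'
  rw [mul_pow, ← Real.rpow_natCast (D ^ _), ← Real.rpow_mul hD.le]
  congr 2
  push_cast
  field_simp
  ring

lemma norm_I_le' {N Cm D : ℝ} {n : ℕ} (hN : 0 ≤ N) (hCm : 1 ≤ Cm) (hD : 1 ≤ D)
    (h : N ^ 3 ≤ Cm ^ n * D ^ (3 / 2 : ℝ)) : N ≤ Cm ^ n * D ^ (1 / 2 : ℝ) := by
  have hD0 : 0 < D := by linarith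
  have hCn : 1 ≤ Cm ^ n := one_le_pow₀ hCm
  have e2 : (D ^ (1 / 2 : ℝ)) ^ 3 = D ^ (3 / 2 : ℝ) := by
    rw [← Real.rpow_natCast, ← Real.rpow_mul hD0.le]; norm_num
  apply le_of_pow_le_pow_left₀ (n := 3) (by norm_num) (by positivity)
  rw [mul_pow, e2]
  refine h.trans (mul_le_mul_of_nonneg_right ?_ (by positivity))
  calc Cm ^ n = (Cm ^ n) ^ 1 := (pow_one _).symm
    _ ≤ (Cm ^ n) ^ 3 := pow_le_pow_right₀ hCn (by norm_num)

section count

variable {E K : Type} [Field E] [NumberField E] [Field K] [NumberField K] [Algebra E K]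
  {m : ℕ} {𝒰 : Finset (𝓞 E)ˣ} {B : ℝ}

/-- a set of classes with ideals `I` of small norm is small -/
lemma card_by_I' (d : ∀ c : C3 E K, GData E K m 𝒰 B c.1) (S : Finset (C3 E K)) (x : ℝ)
    (hS : ∀ c ∈ S, (Ideal.absNorm ((d c).I : Ideal (𝓞 K)) : ℝ) ≤ x) :
    S.card ≤ (idl K ⌊x⌋₊).card := by
  classical
  apply Finset.card_le_card_of_injOn (fun c => ((d c).I : Ideal (𝓞 K)))
  · intro c hc
    rw [Finset.mem_coe, mem_idl]
    exact ⟨(d c).I_ne, Nat.le_floor (hS c hc)⟩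
  · intro c _ c' _ h
    exact Subtype.ext ((d c).eq_of_I (d c') h)

/-- a set of classes with ideals `J` of small norm is small -/
lemma card_by_J' [Fintype (ClassGroup (𝓞 E))] (d : ∀ c : C3 E K, GData E K m 𝒰 B c.1)
    (S : Finset (C3 E K)) (x : ℝ)
    (hS : ∀ c ∈ S, (Ideal.absNorm (d c).J : ℝ) ≤ x) :
    S.card ≤ (idl K ⌊x⌋₊).card * Nat.card (ClassGroup (𝓞 E)) := by
  classical
  rw [Nat.card_eq_fintype_card, ← Finset.card_univ, ← Finset.card_product]
  apply Finset.card_le_card_of_injOn (fun c => ((d c).J, (d c).rc))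
  · intro c hc
    rw [Finset.mem_coe, Finset.mem_product, mem_idl]
    exact ⟨⟨(d c).J_ne, Nat.le_floor (hS c hc)⟩, Finset.mem_univ _⟩
  · intro c _ c' _ h
    rw [Prod.ext_iff] at h
    exact Subtype.ext ((d c).eq_of_J (d c') c.2.1 c'.2.1 h.1 h.2)

/-- the classes over a pair `(y, u)` are counted by the points -/
lemma card_by_pt' [DecidableEq (𝓞 E × 𝓞 E)]
    (d : ∀ c : C3 E K, GData E K m 𝒰 B c.1)
    (S : Finset (C3 E K)) (y : 𝓞 K) (u : (𝓞 E)ˣ)
    (hS : ∀ c ∈ S, (d c).y = y ∧ (d c).u = u) :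
    S.card = (S.image (fun c => ((d c).X, (d c).Y))).card := by
  symm
  apply Finset.card_image_of_injOn
  intro c hc c' hc' h
  have h1 := hS c hc
  have h2 := hS c' hc'
  exact Subtype.ext ((d c).eq_of_pt (d c') (h1.1.trans h2.1.symm) (h1.2.trans h2.2.symm)
    (Prod.ext_iff.mp h).2)

end count

/-- the product of the squares of the absolute values of a unit -/
lemma prod_unit {E : Type} [Field E] [NumberField E] (hc : ∀ v : InfinitePlace E, v.IsComplex)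
    (u : (𝓞 E)ˣ) : ∏ v : InfinitePlace E, v ((u : 𝓞 E) : E) ^ 2 = 1 := by
  have h1 : ∏ v : InfinitePlace E, v ((u : 𝓞 E) : E) ^ v.mult = 1 := by
    rw [InfinitePlace.prod_eq_abs_norm, ← Algebra.coe_norm_int]
    have h5 : IsUnit (Algebra.norm ℤ (u : 𝓞 E)) := u.isUnit.map (Algebra.norm ℤ)
    have h6 := Int.isUnit_iff_abs_eq.mp h5
    rw [← Int.cast_abs, h6]
    simp
  rw [← h1]
  apply Finset.prod_congr rfl
  intro v _
  rw [InfinitePlace.mult_isComplex ⟨v, hc v⟩]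

lemma prod_R {E : Type} [Field E] [NumberField E] (hc : ∀ v : InfinitePlace E, v.IsComplex)
    (u : (𝓞 E)ˣ) (B : ℝ) : ∏ v : InfinitePlace E, (64 * v ((u : 𝓞 E) : E) ^ 2 * B ^ 2) ^ 2 =
      (64 * B ^ 2) ^ finrank ℚ E := by
  have h1 : ∀ v : InfinitePlace E, (64 * v ((u : 𝓞 E) : E) ^ 2 * B ^ 2) ^ 2 =
      (v ((u : 𝓞 E) : E) ^ 2) ^ 2 * (64 * B ^ 2) ^ v.mult := by
    intro v
    rw [InfinitePlace.mult_isComplex ⟨v, hc v⟩]
    ring
  rw [Finset.prod_congr rfl (fun v _ => h1 v), Finset.prod_mul_distrib, Finset.prod_pow,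
    prod_unit hc u, one_pow, one_mul, Finset.prod_pow_eq_pow_sum, InfinitePlace.sum_mult_eq]

end Pool.Agent.Lib.MP_695920_nt.Qg
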