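import Mathlib
import Pool.Agent.Lib.MP_695920_nt.Qg.FinC

/-!
The bound for the three torsion of quadratic extensions of fields containing the third roots of
unity.
-/

set_option autoImplicit false

open NumberField Module IsDedekindDomain
open scoped nonZeroDivisors

namespace Pool.Agent.Lib.MP_695920_nt.Qg

open Pool.Agent.Lib.MP_695920_nt.Qt Pool.Agent.Lib.MP_695920_nt.Gl

/-- the case of small discriminant of the base field -/
theorem quad_small (m : ℕ) (hm0 : 0 < m) : ∃ κ : ℝ, 0 < κ ∧ κ < 1 / 2 ∧ ∃ C : ℝ, 0 ≤ C ∧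
    ∀ (E K : Type) [Field E] [NumberField E] [Field K] [NumberField K] [Algebra E K],
      finrank ℚ E = m → finrank E K = 2 → (∃ ω : E, ω ^ 2 + ω + 1 = 0) →
      |(discr E : ℝ)| ≤ |(discr K : ℝ)| ^ (1 / (8 * m) : ℝ) →
      (Nat.card (C3 E K) : ℝ) ≤ C * |(discr K : ℝ)| ^ (1 / 2 - κ / 2) * |(discr E : ℝ)| := by
  classical
  obtain ⟨Cm, hCm, hmink⟩ := mink_gen (2 * m)
  obtain ⟨Ci, hCi, hidx⟩ := index_bound_gen m
  obtain ⟨Cy, hCy, hminus⟩ := minus_count m
  obtain ⟨Ch, hCh, hclK⟩ := class_number_le (2 * m) (1 / 2) (by norm_num)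
  obtain ⟨CE, hCE, hclE⟩ := class_number_le m (1 / 2) (by norm_num)
  set Cx : ℝ := (Ci * ((2 * Cm) ^ (2 * m)) ^ 2 * Ch) ^ 2 with hCx
  have hCx0 : 0 ≤ Cx := by positivity
  set C₀ : ℝ := 64 ^ m * Cm ^ (2 * m) + 8 + Cx with hC₀
  have hCm0 : 0 < Cm := by linarith
  have hC0a : 64 ^ m * Cm ^ (2 * m) ≤ C₀ := by rw [hC₀]; linarith
  have h64 : 0 ≤ (64 : ℝ) ^ m * Cm ^ (2 * m) := by positivity
  have hC0b : 8 ≤ C₀ := by rw [hC₀]; linarith
  have hC0c : Cx ≤ C₀ := by rw [hC₀]; linarith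
  have hC0d : 1 ≤ C₀ := by linarith
  obtain ⟨θ, hθ, hθ8, Cp', hpts⟩ := points_bound_gen m C₀
  set κ : ℝ := θ / 12 with hκ
  have hκ0 : 0 < κ := by positivity
  have hκ2 : κ < 1 / 2 := by rw [hκ]; linarith
  obtain ⟨Cb, hCb, hcount2⟩ := ideal_count (2 * m) κ hκ0
  set Cp : ℝ := max Cp' 0 with hCp
  have hCp0 : 0 ≤ Cp := le_max_right _ _
  set CT4 : ℝ := 3 ^ m * (Cy * (2 * (2 * Cm) ^ m)) * Cp with hCT4
  have hCT40 : 0 ≤ CT4 := by
    have : 0 ≤ Cy := by linarith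
    positivity
  refine ⟨κ, hκ0, hκ2, Cb + CE * (Cb * (Cm ^ (2 * m)) ^ 2) + 1 + CT4, by positivity, ?_⟩
  intro E K _ _ _ _ _ hm hfin hω hDE
  have hn : finrank ℚ K = 2 * m := by
    rw [← finrank_mul_finrank ℚ E K, hfin, hm, mul_comm]
  have hcx := complex_of_omega hω
  set D : ℝ := |(discr K : ℝ)| with hD
  set D1 : ℝ := |(discr E : ℝ)| with hD1'
  have hD1 : 1 ≤ D := by
    rw [hD, ← Int.cast_abs]
    exact_mod_cast Int.one_le_abs (discr_ne_zero K)
  have hD0 : 0 < D := by linarith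
  have hDE1 : 1 ≤ D1 := by
    rw [hD1', ← Int.cast_abs]
    exact_mod_cast Int.one_le_abs (discr_ne_zero E)
  obtain ⟨𝒰, h𝒰c, h𝒰⟩ := unit_reps E
  set B : ℝ := Cm * D ^ (3 / (2 * ((2 * m : ℕ) : ℝ)) : ℝ) with hB
  have hB0 : 0 < B := by positivity
  have hex := fun c : C3 E K => exists_gdata (E := E) (K := K) m hm hfin 𝒰 h𝒰 B (hmink K hn) c
  set d : ∀ c : C3 E K, GData E K m 𝒰 B c.1 := fun c => (hex c).some with hd
  have hBn : B ^ (2 * m) = Cm ^ (2 * m) * D ^ (3 / 2 : ℝ) := by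
    rw [hB, B_pow hD0 2 m hm0]
    norm_num
  have hBm : B ^ m = Cm ^ m * D ^ (3 / 4 : ℝ) := by
    have := B_pow (Cm := Cm) hD0 1 m hm0
    rw [one_mul] at this
    rw [hB, this]
    norm_num
  -- norms of the ideals
  have hNI : ∀ c, (Ideal.absNorm ((d c).I : Ideal (𝓞 K)) : ℝ) ≤ Cm ^ (2 * m) * D ^ (1 / 2 : ℝ) := by
    intro c
    have h1 := (d c).norm_I hn
    rw [hBn] at h1
    exact norm_I_le' (Nat.cast_nonneg _) hCm hD1 h1
  have hfinC : Finite (C3 E K) := Subtype.finite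
  cases nonempty_fintype (C3 E K)
  rw [Nat.card_eq_fintype_card, ← Finset.card_univ]
  -- the four parts
  set T1 := (Finset.univ : Finset (C3 E K)).filter
    (fun c => (Ideal.absNorm ((d c).I : Ideal (𝓞 K)) : ℝ) ≤ D ^ (1 / 2 - κ)) with hT1
  set T2 := (Finset.univ : Finset (C3 E K)).filter
    (fun c => D ^ κ < (Ideal.absNorm (d c).R : ℝ)) with hT2
  set T3 := (Finset.univ : Finset (C3 E K)).filter
    (fun c : C3 E K => (c : ClassGroup (𝓞 K)) = 1) with hT3
  set T4 := (Finset.univ : Finset (C3 E K)).filter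
    (fun c => D ^ (1 / 2 - κ) < (Ideal.absNorm ((d c).I : Ideal (𝓞 K)) : ℝ) ∧
      (Ideal.absNorm (d c).R : ℝ) ≤ D ^ κ ∧ (c : ClassGroup (𝓞 K)) ≠ 1) with hT4
  have hcover : (Finset.univ : Finset (C3 E K)) ⊆ ((T1 ∪ T2) ∪ T3) ∪ T4 := by
    intro c _
    simp only [hT1, hT2, hT3, hT4, Finset.mem_union, Finset.mem_filter, Finset.mem_univ, true_and]
    by_cases a1 : (Ideal.absNorm ((d c).I : Ideal (𝓞 K)) : ℝ) ≤ D ^ (1 / 2 - κ)
    · exact Or.inl (Or.inl (Or.inl a1))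
    by_cases a2 : D ^ κ < (Ideal.absNorm (d c).R : ℝ)
    · exact Or.inl (Or.inl (Or.inr a2))
    by_cases a3 : (c : ClassGroup (𝓞 K)) = 1
    · exact Or.inl (Or.inr a3)
    · exact Or.inr ⟨not_le.mp a1, not_lt.mp a2, a3⟩
  have hexp : (1 / 2 - κ) * (1 + κ) ≤ 1 / 2 - κ / 2 := by nlinarith
  -- part one
  have h1 : (T1.card : ℝ) ≤ Cb * D ^ (1 / 2 - κ / 2) := by
    have h1 := card_by_I' d T1 (D ^ (1 / 2 - κ)) (fun c hc => (Finset.mem_filter.mp hc).2)
    have h2 := hcount2 K hn (D ^ (1 / 2 - κ)) (Real.one_le_rpow hD1 (by linarith))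
    rw [← Real.rpow_mul hD0.le] at h2
    calc (T1.card : ℝ) ≤ (idl K ⌊D ^ (1 / 2 - κ)⌋₊).card := by exact_mod_cast h1
      _ ≤ Cb * D ^ ((1 / 2 - κ) * (1 + κ)) := h2
      _ ≤ Cb * D ^ (1 / 2 - κ / 2) := by
          apply mul_le_mul_of_nonneg_left _ hCb
          exact Real.rpow_le_rpow_of_exponent_le hD1 hexp
  -- part two
  have hCmn : 1 ≤ Cm ^ (2 * m) := one_le_pow₀ hCm
  have h2 : (T2.card : ℝ) ≤ CE * (Cb * (Cm ^ (2 * m)) ^ 2) * D ^ (1 / 2 - κ / 2) * D1 := by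
    have h1 := card_by_J' d T2 (Cm ^ (2 * m) * D ^ (1 / 2 - κ)) (fun c hc => by
      have a1 := (Finset.mem_filter.mp hc).2
      have a2 := hNI c
      have a3 : (Ideal.absNorm ((d c).I : Ideal (𝓞 K)) : ℝ) =
          (Ideal.absNorm (d c).R : ℝ) * (Ideal.absNorm (d c).J : ℝ) := by
        rw [(d c).hRJ, map_mul, Nat.cast_mul]
      rw [a3] at a2
      have hJ0 : (0 : ℝ) ≤ (Ideal.absNorm (d c).J : ℝ) := Nat.cast_nonneg _
      have hDk : 0 < D ^ κ := by positivity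
      have a4 : D ^ κ * (Ideal.absNorm (d c).J : ℝ) ≤
          D ^ κ * (Cm ^ (2 * m) * D ^ (1 / 2 - κ)) := by
        calc D ^ κ * (Ideal.absNorm (d c).J : ℝ) ≤
            (Ideal.absNorm (d c).R : ℝ) * (Ideal.absNorm (d c).J : ℝ) :=
              mul_le_mul_of_nonneg_right a1.le hJ0
          _ ≤ Cm ^ (2 * m) * D ^ (1 / 2 : ℝ) := a2
          _ = D ^ κ * (Cm ^ (2 * m) * D ^ (1 / 2 - κ)) := by
              rw [show (1 / 2 : ℝ) = κ + (1 / 2 - κ) by ring, Real.rpow_add hD0]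
              ring_nf
      exact le_of_mul_le_mul_left a4 hDk)
    have hx1 : 1 ≤ Cm ^ (2 * m) * D ^ (1 / 2 - κ) :=
      one_le_mul_of_one_le_of_one_le hCmn (Real.one_le_rpow hD1 (by linarith))
    have h2 := hcount2 K hn (Cm ^ (2 * m) * D ^ (1 / 2 - κ)) hx1
    rw [Real.mul_rpow (by positivity) (by positivity), ← Real.rpow_mul hD0.le] at h2
    have h3 : (Cm ^ (2 * m) : ℝ) ^ (1 + κ) ≤ (Cm ^ (2 * m)) ^ 2 := by
      calc (Cm ^ (2 * m) : ℝ) ^ (1 + κ) ≤ (Cm ^ (2 * m) : ℝ) ^ (2 : ℝ) :=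
            Real.rpow_le_rpow_of_exponent_le hCmn (by linarith)
        _ = (Cm ^ (2 * m)) ^ 2 := by
            rw [show (2 : ℝ) = ((2 : ℕ) : ℝ) by norm_num, Real.rpow_natCast]
    have h4 := hclE E hm
    have h5 : (1 / 2 + 1 / 2 : ℝ) = 1 := by norm_num
    rw [h5, Real.rpow_one] at h4
    have h6 : ((idl K ⌊Cm ^ (2 * m) * D ^ (1 / 2 - κ)⌋₊).card : ℝ) ≤
        Cb * (Cm ^ (2 * m)) ^ 2 * D ^ (1 / 2 - κ / 2) := by
      calc _ ≤ Cb * ((Cm ^ (2 * m)) ^ (1 + κ) * D ^ ((1 / 2 - κ) * (1 + κ))) := h2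
        _ ≤ Cb * ((Cm ^ (2 * m)) ^ 2 * D ^ (1 / 2 - κ / 2)) := by
            apply mul_le_mul_of_nonneg_left _ hCb
            exact mul_le_mul h3 (Real.rpow_le_rpow_of_exponent_le hD1 hexp) (by positivity)
              (by positivity)
        _ = _ := by ring
    calc (T2.card : ℝ) ≤ ((idl K ⌊Cm ^ (2 * m) * D ^ (1 / 2 - κ)⌋₊).card : ℝ) *
          Nat.card (ClassGroup (𝓞 E)) := by exact_mod_cast h1
      _ ≤ (Cb * (Cm ^ (2 * m)) ^ 2 * D ^ (1 / 2 - κ / 2)) * (CE * D1) :=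
          mul_le_mul h6 h4 (Nat.cast_nonneg _) (by positivity)
      _ = _ := by ring
  -- part three
  have h3' : (T3.card : ℝ) ≤ 1 * D ^ (1 / 2 - κ / 2) := by
    have a1 : T3.card ≤ 1 := by
      rw [Finset.card_le_one]
      intro a ha b hb
      have ha' := (Finset.mem_filter.mp ha).2
      have hb' := (Finset.mem_filter.mp hb).2
      exact Subtype.ext (ha'.trans hb'.symm)
    have a2 : (1 : ℝ) ≤ D ^ (1 / 2 - κ / 2) := Real.one_le_rpow hD1 (by linarith)
    have a3 : (T3.card : ℝ) ≤ 1 := by exact_mod_cast a1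
    linarith
  -- part four
  have hfib : ∀ (y : 𝓞 K) (u : (𝓞 E)ˣ),
      ((T4.filter (fun c => (d c).y = y ∧ (d c).u = u)).card : ℝ) ≤
        Cp * D ^ (1 / 4 - θ / 2) := by
    intro y u
    set S := T4.filter (fun c => (d c).y = y ∧ (d c).u = u) with hS
    rcases S.eq_empty_or_nonempty with h0 | ⟨c0, hc0⟩
    · rw [h0, Finset.card_empty, Nat.cast_zero]
      positivity
    have hSm : ∀ c ∈ S, (d c).y = y ∧ (d c).u = u := fun c hc => (Finset.mem_filter.mp hc).2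
    have hST : ∀ c ∈ S, D ^ (1 / 2 - κ) < (Ideal.absNorm ((d c).I : Ideal (𝓞 K)) : ℝ) ∧
        (Ideal.absNorm (d c).R : ℝ) ≤ D ^ κ ∧ (c : ClassGroup (𝓞 K)) ≠ 1 := fun c hc =>
      (Finset.mem_filter.mp (Finset.mem_filter.mp hc).1).2
    obtain ⟨hcy, hcu⟩ := hSm c0 hc0
    have hy0 : y ≠ 0 := by
      rintro rfl
      have a1 := (d c0).hy0 hcy
      apply (hST c0 hc0).2.2
      rw [← (d c0).hI]
      exact ClassGroup.mk0_eq_one_iff (d c0).I.2 |>.mpr a1
    set k : 𝓞 E := (d c0).k with hk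
    have hkall : ∀ c ∈ S, (d c).k = k := by
      intro c hc
      have a1 := (d c).hk
      have a2 := (d c0).hk
      rw [(hSm c hc).1, (hSm c hc).2] at a1
      rw [hcy, hcu] at a2
      exact FaithfulSMul.algebraMap_injective (𝓞 E) (𝓞 K) (a1.trans a2.symm)
    have hkeq : algebraMap (𝓞 E) (𝓞 K) k = 16 * algebraMap (𝓞 E) (𝓞 K) u ^ 2 * y ^ 2 := by
      have a2 := (d c0).hk
      rwa [hcy, hcu] at a2
    have htr : Algebra.trace E K (y : K) = 0 := by
      have a2 := (d c0).htr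
      rwa [hcy] at a2
    have hk0 : k ≠ 0 := by
      intro h
      rw [h, map_zero] at hkeq
      have huK : algebraMap (𝓞 E) (𝓞 K) u ≠ 0 := by
        intro h
        have h2 : IsUnit (algebraMap (𝓞 E) (𝓞 K) (u : 𝓞 E)) := u.isUnit.map _
        exact h2.ne_zero h
      exact mul_ne_zero (mul_ne_zero (by norm_num) (pow_ne_zero 2 huK)) (pow_ne_zero 2 hy0)
        hkeq.symm
    obtain ⟨hi1, hi2⟩ := hidx E K hm hfin hω k y u hy0 htr hkeq
    have hi3 : ((nsmulAddMonoidHom (α := (Ek (k : E)).Point) 3).range.index : ℝ) ≤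
        C₀ * D ^ C₀ := by
      refine hi2.trans ?_
      have hNy : ((Algebra.norm ℤ y).natAbs : ℝ) ≤ (2 * Cm) ^ (2 * m) * D ^ (3 / 2 : ℝ) := by
        have a1 := (d c0).norm_y hn
        rw [hcy, mul_pow, hBn] at a1
        rw [mul_pow]
        linarith
      have a1 : ((Algebra.norm ℤ y).natAbs : ℝ) ^ 2 ≤ ((2 * Cm) ^ (2 * m)) ^ 2 * D ^ 3 := by
        have a2 := pow_le_pow_left₀ (Nat.cast_nonneg _) hNy 2
        have e1 : (D ^ (3 / 2 : ℝ)) ^ 2 = D ^ 3 := by
          rw [← Real.rpow_natCast, ← Real.rpow_mul hD0.le, ← Real.rpow_natCast]; norm_num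
        rwa [mul_pow, e1] at a2
      have hh0 : 0 ≤ h3 K := by rw [h3]; positivity
      have htriv : h3 K ≤ Ch * D := by
        have b1 := hclK K hn
        rw [show (1 / 2 + 1 / 2 : ℝ) = 1 by norm_num, Real.rpow_one] at b1
        refine le_trans ?_ b1
        rw [← tl_eq_h3]
        exact_mod_cast tl_le_class 3 K
      have a3 : Ci * ((Algebra.norm ℤ y).natAbs : ℝ) ^ 2 * h3 K ≤
          (Ci * ((2 * Cm) ^ (2 * m)) ^ 2 * Ch) * D ^ 4 := by
        calc Ci * ((Algebra.norm ℤ y).natAbs : ℝ) ^ 2 * h3 K ≤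
            Ci * (((2 * Cm) ^ (2 * m)) ^ 2 * D ^ 3) * (Ch * D) := by
              apply mul_le_mul _ htriv hh0 (by positivity)
              exact mul_le_mul_of_nonneg_left a1 hCi
          _ = _ := by ring
      calc (Ci * ((Algebra.norm ℤ y).natAbs : ℝ) ^ 2 * h3 K) ^ 2 ≤
          ((Ci * ((2 * Cm) ^ (2 * m)) ^ 2 * Ch) * D ^ 4) ^ 2 :=
            pow_le_pow_left₀ (by positivity) a3 2
        _ = Cx * D ^ 8 := by rw [hCx]; ring
        _ ≤ C₀ * D ^ C₀ := by
            apply mul_le_mul hC0c _ (by positivity) (by positivity)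
            rw [← Real.rpow_natCast]
            exact Real.rpow_le_rpow_of_exponent_le hD1 (by exact_mod_cast hC0b)
    rw [card_by_pt' d S y u hSm]
    have hu0 : ∀ v : InfinitePlace E, 0 < v ((u : 𝓞 E) : E) := by
      intro v
      rw [InfinitePlace.pos_iff]
      exact RingOfIntegers.coe_ne_zero_iff.mpr u.ne_zero
    have hmain := hpts E k D (fun v => 64 * v ((u : 𝓞 E) : E) ^ 2 * B ^ 2)
      (S.image (fun c => ((d c).X, (d c).Y))) hm hcx hk0 hD1 hDE (by
        intro v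
        have := hu0 v
        positivity) (by
        rw [prod_R hcx u B, hm, mul_pow, ← pow_mul, hBn, ← mul_assoc]
        exact mul_le_mul_of_nonneg_right hC0a (by positivity)) (by
        intro v
        have a1 := (d c0).hkv v
        rwa [hcu] at a1) hi1 hi3 (by
        intro P hP
        obtain ⟨c, hc, rfl⟩ := Finset.mem_image.mp hP
        obtain ⟨hcy', hcu'⟩ := hSm c hc
        obtain ⟨b1, b2, b3⟩ := hST c hc
        refine ⟨?_, ?_, ?_⟩
        · have := (d c).hY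
          rwa [hkall c hc] at this
        · intro v
          have := (d c).hX3 v
          rwa [hcu'] at this
        · have b4 := (d c).hg
          rw [hkall c hc] at b4
          have b5 : (Ideal.absNorm (Ideal.span {(d c).X ^ 3, k}) : ℝ) ≤
              64 ^ m * (Ideal.absNorm (d c).R : ℝ) ^ 3 := by exact_mod_cast b4
          have b6 : (Ideal.absNorm (d c).R : ℝ) ^ 3 ≤ (D ^ κ) ^ 3 :=
            pow_le_pow_left₀ (Nat.cast_nonneg _) b2 3
          have b7 : ((Algebra.norm ℤ (d c).X).natAbs : ℝ) =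
              4 ^ m * (Ideal.absNorm ((d c).I : Ideal (𝓞 K)) : ℝ) := by
            exact_mod_cast (d c).hNX
          have b8 : (D ^ (1 / 2 - κ)) ^ 3 ≤
              (Ideal.absNorm ((d c).I : Ideal (𝓞 K)) : ℝ) ^ 3 :=
            pow_le_pow_left₀ (by positivity) b1.le 3
          have e1 : D ^ (3 / 2 - θ / 2 : ℝ) * (D ^ κ) ^ 3 = (D ^ (1 / 2 - κ)) ^ 3 := by
            rw [← Real.rpow_natCast, ← Real.rpow_natCast, ← Real.rpow_mul hD0.le,
              ← Real.rpow_mul hD0.le, ← Real.rpow_add hD0]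
            congr 1
            rw [hκ]
            push_cast
            ring
          have e2 : ((4 : ℝ) ^ m) ^ 3 = 64 ^ m := by
            rw [← pow_mul, mul_comm m 3, pow_mul]
            norm_num
          change D ^ (3 / 2 - θ / 2 : ℝ) * (Ideal.absNorm (Ideal.span {(d c).X ^ 3, k}) : ℝ) ≤
            C₀ * ((Algebra.norm ℤ (d c).X).natAbs : ℝ) ^ 3
          rw [b7, mul_pow, e2]
          calc D ^ (3 / 2 - θ / 2 : ℝ) * (Ideal.absNorm (Ideal.span {(d c).X ^ 3, k}) : ℝ)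
              ≤ D ^ (3 / 2 - θ / 2 : ℝ) * (64 ^ m * (D ^ κ) ^ 3) := by
                apply mul_le_mul_of_nonneg_left _ (by positivity)
                exact b5.trans (mul_le_mul_of_nonneg_left b6 (by positivity))
            _ = 64 ^ m * (D ^ (1 / 2 - κ)) ^ 3 := by rw [← e1]; ring
            _ ≤ 64 ^ m * (Ideal.absNorm ((d c).I : Ideal (𝓞 K)) : ℝ) ^ 3 :=
                mul_le_mul_of_nonneg_left b8 (by positivity)
            _ ≤ C₀ * (64 ^ m * (Ideal.absNorm ((d c).I : Ideal (𝓞 K)) : ℝ) ^ 3) :=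
                le_mul_of_one_le_left (by positivity) hC0d)
    refine hmain.trans ?_
    exact mul_le_mul_of_nonneg_right (le_max_left _ _) (by positivity)
  have hpairs : ((T4.image (fun c => ((d c).y, (d c).u))).card : ℝ) ≤
      3 ^ m * (Cy * (2 * (2 * Cm) ^ m)) * (D ^ (1 / 4 : ℝ) * D1) := by
    obtain ⟨f1, f2⟩ := hminus E K hm hfin hcx (2 * B) (by positivity)
    have hsub : T4.image (fun c => ((d c).y, (d c).u)) ⊆ f1.toFinset ×ˢ 𝒰 := by
      intro P hP
      obtain ⟨c, hc, rfl⟩ := Finset.mem_image.mp hP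
      rw [Finset.mem_product, Set.Finite.mem_toFinset]
      exact ⟨⟨(d c).htr, (d c).hyB⟩, (d c).hu⟩
    have g1 := Finset.card_le_card hsub
    rw [Finset.card_product, ← Set.ncard_eq_toFinset_card _ f1] at g1
    have g3 : (𝒰.card : ℝ) ≤ 3 ^ m := by
      rw [hm] at h𝒰c
      exact_mod_cast h𝒰c
    have g4 : 1 + (2 * B) ^ m * D1 / Real.sqrt D ≤ 2 * (2 * Cm) ^ m * (D ^ (1 / 4 : ℝ) * D1) := by
      have e1 : (2 * B) ^ m * D1 / Real.sqrt D = (2 * Cm) ^ m * (D ^ (1 / 4 : ℝ) * D1) := by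
        rw [mul_pow, hBm, mul_pow, Real.sqrt_eq_rpow, div_eq_iff (by positivity)]
        have e2 : D ^ (3 / 4 : ℝ) = D ^ (1 / 4 : ℝ) * D ^ (1 / 2 : ℝ) := by
          rw [← Real.rpow_add hD0]; norm_num
        rw [e2]
        ring
      rw [e1]
      have e3 : (1 : ℝ) ≤ (2 * Cm) ^ m * (D ^ (1 / 4 : ℝ) * D1) := by
        apply one_le_mul_of_one_le_of_one_le (one_le_pow₀ (by linarith))
        exact one_le_mul_of_one_le_of_one_le (Real.one_le_rpow hD1 (by norm_num)) hDE1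
      linarith
    calc ((T4.image (fun c => ((d c).y, (d c).u))).card : ℝ) ≤
        ({y : 𝓞 K | Algebra.trace E K (y : K) = 0 ∧
          ∀ w : InfinitePlace K, w (y : K) ≤ 2 * B}.ncard : ℝ) * (𝒰.card : ℝ) := by
          exact_mod_cast g1
      _ ≤ (Cy * (1 + (2 * B) ^ m * D1 / Real.sqrt D)) * 3 ^ m :=
          mul_le_mul f2 g3 (Nat.cast_nonneg _) (by positivity)
      _ ≤ (Cy * (2 * (2 * Cm) ^ m * (D ^ (1 / 4 : ℝ) * D1))) * 3 ^ m := by
          apply mul_le_mul_of_nonneg_right _ (by positivity)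
          exact mul_le_mul_of_nonneg_left g4 (by linarith)
      _ = _ := by ring
  have h4 : (T4.card : ℝ) ≤ CT4 * D ^ (1 / 2 - κ / 2) * D1 := by
    have a1 := Finset.card_eq_sum_card_image (fun c => ((d c).y, (d c).u)) T4
    rw [a1, Nat.cast_sum]
    have a2 : ∀ P ∈ T4.image (fun c => ((d c).y, (d c).u)),
        ((T4.filter (fun c => ((d c).y, (d c).u) = P)).card : ℝ) ≤
          Cp * D ^ (1 / 4 - θ / 2) := by
      intro P hP
      obtain ⟨c0, hc0, rfl⟩ := Finset.mem_image.mp hP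
      refine le_trans ?_ (hfib (d c0).y (d c0).u)
      have : T4.filter (fun c => ((d c).y, (d c).u) = ((d c0).y, (d c0).u)) ⊆
          T4.filter (fun c => (d c).y = (d c0).y ∧ (d c).u = (d c0).u) := by
        intro c hc
        rw [Finset.mem_filter] at hc ⊢
        exact ⟨hc.1, Prod.ext_iff.mp hc.2⟩
      exact_mod_cast Finset.card_le_card this
    refine (Finset.sum_le_card_nsmul _ _ _ a2).trans ?_
    rw [nsmul_eq_mul]
    have hCy0 : 0 ≤ Cy := by linarith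
    calc _ ≤ (3 ^ m * (Cy * (2 * (2 * Cm) ^ m)) * (D ^ (1 / 4 : ℝ) * D1)) *
          (Cp * D ^ (1 / 4 - θ / 2)) := mul_le_mul_of_nonneg_right hpairs (by positivity)
      _ = CT4 * (D ^ (1 / 4 : ℝ) * D ^ (1 / 4 - θ / 2)) * D1 := by rw [hCT4]; ring
      _ ≤ CT4 * D ^ (1 / 2 - κ / 2) * D1 := by
          apply mul_le_mul_of_nonneg_right _ (by linarith)
          apply mul_le_mul_of_nonneg_left _ hCT40
          rw [← Real.rpow_add hD0]
          apply Real.rpow_le_rpow_of_exponent_le hD1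
          rw [hκ]; linarith
  have h5 : (Finset.univ : Finset (C3 E K)).card ≤ T1.card + T2.card + T3.card + T4.card := by
    calc (Finset.univ : Finset (C3 E K)).card ≤ (((T1 ∪ T2) ∪ T3) ∪ T4).card :=
          Finset.card_le_card hcover
      _ ≤ ((T1 ∪ T2) ∪ T3).card + T4.card := Finset.card_union_le _ _
      _ ≤ (T1 ∪ T2).card + T3.card + T4.card := by
          have := Finset.card_union_le (T1 ∪ T2) T3
          omega
      _ ≤ T1.card + T2.card + T3.card + T4.card := by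
          have := Finset.card_union_le T1 T2
          omega
  have h6 : ((Finset.univ : Finset (C3 E K)).card : ℝ) ≤
      T1.card + T2.card + T3.card + T4.card := by exact_mod_cast h5
  set W : ℝ := D ^ (1 / 2 - κ / 2) with hW
  have hW0 : 0 < W := by positivity
  have e1 : Cb * W ≤ Cb * W * D1 := le_mul_of_one_le_right (by positivity) hDE1
  have e2 : 1 * W ≤ 1 * W * D1 := le_mul_of_one_le_right (by positivity) hDE1
  calc ((Finset.univ : Finset (C3 E K)).card : ℝ) ≤ T1.card + T2.card + T3.card + T4.card := h6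
    _ ≤ Cb * W * D1 + CE * (Cb * (Cm ^ (2 * m)) ^ 2) * W * D1 + 1 * W * D1 + CT4 * W * D1 := by
        linarith
    _ = (Cb + CE * (Cb * (Cm ^ (2 * m)) ^ 2) + 1 + CT4) * W * D1 := by ring

theorem three_torsion_quad (m : ℕ) : ∃ δ : ℝ, 0 < δ ∧ ∃ (A : ℕ) (C : ℝ), 0 ≤ C ∧
    ∀ (E K : Type) [Field E] [NumberField E] [Field K] [NumberField K] [Algebra E K],
      finrank ℚ E = m → finrank E K = 2 → (∃ ω : E, ω ^ 2 + ω + 1 = 0) →
      (tl 3 K : ℝ) ≤ C * |(discr K : ℝ)| ^ (1 / 2 - δ) * |(discr E : ℝ)| ^ A := by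
  classical
  rcases Nat.eq_zero_or_pos m with rfl | hm0
  · refine ⟨1, one_pos, 0, 0, le_rfl, ?_⟩
    intro E K _ _ _ _ _ hm
    have : 0 < finrank ℚ E := finrank_pos
    omega
  obtain ⟨κ, hκ0, hκ2, C, hC, hmain⟩ := quad_small m hm0
  obtain ⟨CE, hCE, hclE⟩ := class_number_le m (1 / 2) (by norm_num)
  obtain ⟨CK, hCK, hclK⟩ := class_number_le (2 * m) (κ / 2) (by positivity)
  refine ⟨κ / 2, by positivity, 8 * m + 2, CE * C + CK, by positivity, ?_⟩
  intro E K _ _ _ _ _ hm hfin hω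
  have hn : finrank ℚ K = 2 * m := by
    rw [← finrank_mul_finrank ℚ E K, hfin, hm, mul_comm]
  set D : ℝ := |(discr K : ℝ)| with hD
  set D1 : ℝ := |(discr E : ℝ)| with hD1'
  have hD1 : 1 ≤ D := by
    rw [hD, ← Int.cast_abs]
    exact_mod_cast Int.one_le_abs (discr_ne_zero K)
  have hD0 : 0 < D := by linarith
  have hDE1 : 1 ≤ D1 := by
    rw [hD1', ← Int.cast_abs]
    exact_mod_cast Int.one_le_abs (discr_ne_zero E)
  have hW0 : 0 < D ^ (1 / 2 - κ / 2) := by positivity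
  rcases le_or_gt D1 (D ^ (1 / (8 * m) : ℝ)) with h | h
  · have h1 := hmain E K hm hfin hω h
    have h2 : (tl 3 K : ℝ) ≤ tl 3 E * Nat.card (C3 E K) := by
      exact_mod_cast tl_le_mul_C3 E K
    have h3 : (tl 3 E : ℝ) ≤ CE * D1 := by
      have b1 := hclE E hm
      rw [show (1 / 2 + 1 / 2 : ℝ) = 1 by norm_num, Real.rpow_one] at b1
      refine le_trans ?_ b1
      exact_mod_cast tl_le_class 3 E
    have h4 : D1 ^ 2 ≤ D1 ^ (8 * m + 2) := pow_le_pow_right₀ hDE1 (by omega)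
    calc (tl 3 K : ℝ) ≤ tl 3 E * Nat.card (C3 E K) := h2
      _ ≤ (CE * D1) * (C * D ^ (1 / 2 - κ / 2) * D1) :=
          mul_le_mul h3 h1 (Nat.cast_nonneg _) (by positivity)
      _ = CE * C * D ^ (1 / 2 - κ / 2) * D1 ^ 2 := by ring
      _ ≤ (CE * C + CK) * D ^ (1 / 2 - κ / 2) * D1 ^ (8 * m + 2) := by
          apply mul_le_mul _ h4 (by positivity) (by positivity)
          apply mul_le_mul_of_nonneg_right _ hW0.le
          linarith
  · have h1 : (tl 3 K : ℝ) ≤ CK * D ^ (1 / 2 + κ / 2) := by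
      refine le_trans ?_ (hclK K hn)
      exact_mod_cast tl_le_class 3 K
    have hmr : (0 : ℝ) < m := by exact_mod_cast hm0
    have h2 : D ≤ D1 ^ (8 * m) := by
      have h3 : (D ^ (1 / (8 * m) : ℝ)) ^ (8 * m) ≤ D1 ^ (8 * m) :=
        pow_le_pow_left₀ (by positivity) h.le _
      have h4 : (D ^ (1 / (8 * m) : ℝ)) ^ (8 * m) = D := by
        rw [← Real.rpow_natCast, ← Real.rpow_mul hD0.le]
        push_cast
        rw [one_div, inv_mul_cancel₀ (by positivity), Real.rpow_one]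
      rwa [h4] at h3
    have h5 : D ^ κ ≤ D1 ^ (8 * m + 2) := by
      calc D ^ κ ≤ D ^ (1 : ℝ) := Real.rpow_le_rpow_of_exponent_le hD1 (by linarith)
        _ = D := Real.rpow_one D
        _ ≤ D1 ^ (8 * m) := h2
        _ ≤ D1 ^ (8 * m + 2) := pow_le_pow_right₀ hDE1 (by omega)
    have h6 : D ^ (1 / 2 + κ / 2) = D ^ (1 / 2 - κ / 2) * D ^ κ := by
      rw [← Real.rpow_add hD0]
      congr 1
      ring
    calc (tl 3 K : ℝ) ≤ CK * D ^ (1 / 2 + κ / 2) := h1
      _ = CK * D ^ (1 / 2 - κ / 2) * D ^ κ := by rw [h6]; ring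
      _ ≤ (CE * C + CK) * D ^ (1 / 2 - κ / 2) * D1 ^ (8 * m + 2) := by
          apply mul_le_mul _ h5 (by positivity) (by positivity)
          apply mul_le_mul_of_nonneg_right _ hW0.le
          have : 0 ≤ CE * C := by positivity
          linarith

end Pool.Agent.Lib.MP_695920_nt.Qg
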